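import Pool.Agent.H47.SQ.Targets

/-!
The savings of backtracking search on random k-CNFs (MP_c62aed_lc): row FIA.
-/

set_option autoImplicit false

namespace Pool.Agent.H47.SR

open Finset Pool.Agent.H47.SQ

theorem success_nonneg {n k m : ℕ} (F : Fml n k m) (a s : ℕ) (T : Tree n) :
    0 ≤ success F a s T := by
  unfold success
  positivity

theorem success_le_one {n k m : ℕ} (F : Fml n k m) (a s : ℕ) (T : Tree n) :
    success F a s T ≤ 1 := by
  unfold success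
  have h1 : Nat.card {ω : Finset (Fin n × Bool) → Bool // Find F (Refuted F a s) ω T ∅} ≤
      Nat.card (Finset (Fin n × Bool) → Bool) :=
    Nat.card_le_card_of_injective _ Subtype.val_injective
  have h2 : 0 < Nat.card (Finset (Fin n × Bool) → Bool) := Nat.card_pos
  rw [div_le_one (by exact_mod_cast h2)]
  exact_mod_cast h1

theorem half_le_sav {k n m : ℕ} (hk : 2 ≤ k) (hkn : k ≤ n) : (1 / 2 : ℝ) ≤ sav n k m * n := by
  have hk0 : (0 : ℝ) < k := by exact_mod_cast (by omega : 0 < k)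
  have hn0 : (0 : ℝ) < n := by exact_mod_cast (by omega : 0 < n)
  have hk2 : (2 : ℝ) ≤ k := by exact_mod_cast hk
  have hkn' : (k : ℝ) ≤ n := by exact_mod_cast hkn
  have h1 : (2 : ℝ) ≤ k * (1 + m / (2 ^ k * n)) := by
    have : (0 : ℝ) ≤ m / (2 ^ k * n) := by positivity
    nlinarith
  have h2 : (1 / 2 : ℝ) ≤ Real.log (k * (1 + m / (2 ^ k * n))) := by
    have h3 := Real.log_le_log (by norm_num) h1
    have h4 := Real.log_two_gt_d9
    linarith
  unfold sav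
  rw [div_mul_eq_mul_div, le_div_iff₀ hk0]
  nlinarith

theorem guess_pos (n k m : ℕ) : 0 < guess n k m := by
  unfold guess
  have h1 : (0 : ℝ) ≤ 1 - (1 / 2 : ℝ) ^ k := by
    have := pow_le_one₀ (n := k) (show (0 : ℝ) ≤ 1 / 2 by norm_num) (by norm_num)
    linarith
  positivity

theorem guess_le (n k m : ℕ) : guess n k m ≤ 2 := by
  unfold guess
  have h0 : (0 : ℝ) ≤ (1 / 2 : ℝ) ^ k := by positivity
  have h1 : (0 : ℝ) ≤ 1 - (1 / 2 : ℝ) ^ k := by
    have := pow_le_one₀ (n := k) (show (0 : ℝ) ≤ 1 / 2 by norm_num) (by norm_num)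
    linarith
  have h2 := pow_le_one₀ (n := n) (show (0 : ℝ) ≤ 1 / 2 by norm_num) (by norm_num)
  have h3 := pow_le_one₀ (n := m) h1 (by linarith)
  linarith

theorem half_le_guess (n k m : ℕ) : (1 / 2 : ℝ) ^ n ≤ guess n k m := by
  unfold guess
  have h1 : (0 : ℝ) ≤ 1 - (1 / 2 : ℝ) ^ k := by
    have := pow_le_one₀ (n := k) (show (0 : ℝ) ≤ 1 / 2 by norm_num) (by norm_num)
    linarith
  have : (0 : ℝ) ≤ (1 - (1 / 2 : ℝ) ^ k) ^ m := by positivity
  linarith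

theorem almostAll_univ (n k m : ℕ) : AlmostAll (Set.univ : Set (Fml n k m)) := by
  constructor
  · have h : IsEmpty {F : Fml n k m // Dist F ∧ F ∉ (Set.univ : Set (Fml n k m))} :=
      ⟨fun x => x.2.2 (Set.mem_univ _)⟩
    rw [Nat.card_of_isEmpty]
    simp
  · have h : IsEmpty {p : Fml n k m × (Fin n → Bool) //
        Dist p.1 ∧ Sat p.1 p.2 ∧ p.1 ∉ (Set.univ : Set (Fml n k m))} :=
      ⟨fun x => x.2.2.2 (Set.mem_univ _)⟩
    rw [Nat.card_of_isEmpty]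
    simp

theorem exists_scale {n t₀ : ℕ} (ht : 1 ≤ t₀) (h : 2 ^ 15 * t₀ ≤ n) :
    ∃ I, 2 ^ 15 * (2 ^ I * t₀) ≤ n ∧ n < 2 ^ 16 * (2 ^ I * t₀) := by
  classical
  have hex : ∃ i, n < 2 ^ 15 * (2 ^ i * t₀) := by
    refine ⟨n, ?_⟩
    have h1 : n < 2 ^ n := Nat.lt_two_pow_self
    nlinarith [Nat.mul_le_mul_left (2 ^ n) ht]
  have hs := Nat.find_spec hex
  rcases hI : Nat.find hex with _ | I
  · rw [hI] at hs
    simp only [pow_zero, one_mul] at hs
    omega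
  · rw [hI] at hs
    refine ⟨I, ?_, ?_⟩
    · have := Nat.find_min hex (m := I) (by omega)
      omega
    · have h3 : 2 ^ (I + 1) * t₀ = 2 * (2 ^ I * t₀) := by
        rw [pow_succ]
        ring
      rw [h3] at hs
      omega

theorem pf_FIA : T_FIA := by
  intro hMSC hGOD
  refine ⟨2 ^ 33, ?_⟩
  intro k n m hk hkn
  set x := sav n k m * n with hx
  have hx2 : (1 / 2 : ℝ) ≤ x := half_le_sav hk hkn
  set t₀ := ⌈2 ^ 13 * sav n k m * n⌉₊ with ht₀
  have hle : 2 ^ 13 * sav n k m * n ≤ t₀ := Nat.le_ceil _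
  have hle' : 2 ^ 13 * x ≤ t₀ := by
    rw [hx, ← mul_assoc]
    exact hle
  have hlt : (t₀ : ℝ) < 2 ^ 13 * x + 1 := by
    have h1 : (t₀ : ℝ) < 2 ^ 13 * sav n k m * n + 1 := by
      refine Nat.ceil_lt_add_one ?_
      rw [mul_assoc, ← hx]
      linarith
    rw [mul_assoc, ← hx] at h1
    exact h1
  have ht1 : 1 ≤ t₀ := by
    have : (0 : ℝ) < t₀ := by linarith
    exact_mod_cast this
  have hg := guess_pos n k m
  have hpow : ∀ s : ℕ, 1 ≤ s → ((s : ℝ) * (2 : ℝ) ^ x) ^ (2 ^ 33 : ℝ) =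
      (s : ℝ) ^ (2 ^ 33 : ℝ) * (2 : ℝ) ^ (x * 2 ^ 33) := by
    intro s _
    rw [Real.mul_rpow (by positivity) (by positivity), ← Real.rpow_mul (by norm_num)]
  by_cases hn : 2 ^ 15 * t₀ ≤ n
  · obtain ⟨I, hI1, hI2⟩ := exists_scale ht1 hn
    obtain ⟨G, hG1, hG2⟩ := hGOD k n m t₀ I hk hkn ht1 hle hI1
    refine ⟨G, hG1, ?_⟩
    intro F hF a s T hs ha
    obtain ⟨h1, h2⟩ := hG2 F hF
    have h3 := hMSC n k m F t₀ I (2 ^ (2 ^ 15 * t₀) * (2 ^ n * guess n k m)) ht1 hI1 hI2 h1 (by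
      have := guess_le n k m
      calc (2 : ℝ) ^ (2 ^ 15 * t₀) * (2 ^ n * guess n k m) ≤
          2 ^ (2 ^ 15 * t₀) * (2 ^ n * 2) := by gcongr
        _ = _ := by rw [pow_add, pow_add]; ring) h2 a s T (by
      have : (a : ℝ) ≤ t₀ := by linarith
      exact_mod_cast this) hs
    have h4 : success F a s T ≤ (s : ℝ) ^ 8 * 2 ^ (3 * (2 ^ 15 * t₀) + 4) * guess n k m := by
      have h5 : (0 : ℝ) < 2 ^ n := by positivity
      rw [← mul_le_mul_iff_left₀ h5]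
      refine h3.trans (le_of_eq ?_)
      have h6 : 3 * (2 ^ 15 * t₀) + 4 = (2 * (2 ^ 15 * t₀) + 4) + 2 ^ 15 * t₀ := by ring
      rw [h6, pow_add 2 (2 * (2 ^ 15 * t₀) + 4)]
      ring
    refine h4.trans ?_
    rw [hpow s hs]
    have hs1 : (1 : ℝ) ≤ s := by exact_mod_cast hs
    have h5 : (s : ℝ) ^ 8 ≤ (s : ℝ) ^ (2 ^ 33 : ℝ) := by
      rw [← Real.rpow_natCast]
      exact Real.rpow_le_rpow_of_exponent_le hs1 (by norm_num)
    have h6 : (2 : ℝ) ^ (3 * (2 ^ 15 * t₀) + 4) ≤ (2 : ℝ) ^ (x * 2 ^ 33) := by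
      rw [← Real.rpow_natCast]
      refine Real.rpow_le_rpow_of_exponent_le (by norm_num) ?_
      push_cast
      nlinarith
    gcongr
  · refine ⟨Set.univ, almostAll_univ n k m, ?_⟩
    intro F _ a s T hs _
    refine (success_le_one F a s T).trans ?_
    rw [hpow s hs]
    have hs1 : (1 : ℝ) ≤ s := by exact_mod_cast hs
    have h5 : (1 : ℝ) ≤ (s : ℝ) ^ (2 ^ 33 : ℝ) := Real.one_le_rpow hs1 (by norm_num)
    have h6 : (2 : ℝ) ^ (n : ℝ) ≤ (2 : ℝ) ^ (x * 2 ^ 33) := by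
      refine Real.rpow_le_rpow_of_exponent_le (by norm_num) ?_
      have h7 : (n : ℝ) ≤ 2 ^ 15 * t₀ := by
        have : n ≤ 2 ^ 15 * t₀ := by omega
        exact_mod_cast this
      nlinarith
    calc (1 : ℝ) = 1 * (2 : ℝ) ^ (n : ℝ) * (1 / 2) ^ n := by
          rw [Real.rpow_natCast, one_mul, ← mul_pow]
          norm_num
      _ ≤ (s : ℝ) ^ (2 ^ 33 : ℝ) * (2 : ℝ) ^ (x * 2 ^ 33) * guess n k m := by
          have := half_le_guess n k m
          gcongr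

end Pool.Agent.H47.SR
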