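import Pool.Agent.H47.SQ.Targets

/-!
The savings of backtracking search on random k-CNFs (MP_c62aed_lc): row FIB.
-/

set_option autoImplicit false

namespace Pool.Agent.H47.SR

open Finset Pool.Agent.H47.SQ

open Classical in
theorem card_last {n h : ℕ} (hh : h ≤ n) :
    (univ.filter fun v : Fin n => n ≤ v.1 + h).card = h := by
  have h1 : (univ.filter fun v : Fin n => n ≤ v.1 + h).card =
      ((range n).filter fun v => n ≤ v + h).card := by
    refine card_bij (fun v _ => v.1) ?_ ?_ ?_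
    · intro v hv
      rw [mem_filter] at hv ⊢
      exact ⟨mem_range.2 v.2, hv.2⟩
    · intro v _ w _ hvw
      exact Fin.ext hvw
    · intro b hb
      rw [mem_filter, mem_range] at hb
      exact ⟨⟨b, hb.1⟩, mem_filter.2 ⟨mem_univ _, hb.2⟩, rfl⟩
  rw [h1]
  have h2 : ((range n).filter fun v => n ≤ v + h) = Ico (n - h) n := by
    ext v
    rw [mem_filter, mem_range, mem_Ico]
    omega
  rw [h2, Nat.card_Ico]
  omega

theorem pf_FIB : T_FIB := by
  classical
  intro hA hB ⟨K, hC⟩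
  refine ⟨1 / 20, max K 1, by norm_num, ?_⟩
  intro k n m hk hn hm1 hm2
  have hk1 : 1 ≤ k := (le_max_right _ _).trans hk
  have hkn : k ≤ n := by
    have h1 : 1 * k ≤ max K 1 * k := Nat.mul_le_mul_right _ (le_max_right _ _)
    omega
  obtain ⟨h, u, huh, hhn, hsv, hnum⟩ := hC k n m ((le_max_left _ _).trans hk)
    ((Nat.mul_le_mul_right _ (le_max_left _ _)).trans hn) hm1 hm2
  have h1 := hB n k m h u hk1 hkn hhn huh
  set P := (univ.filter fun p : Fml n k m × (Fin n → Bool) => Dist p.1 ∧ Sat p.1 p.2).card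
    with hP
  have h2 : Nat.card {p : Fml n k m × (Fin n → Bool) // Dist p.1 ∧ Sat p.1 p.2} = P := by
    rw [Nat.card_eq_fintype_card, Fintype.card_subtype]
  have h3 : Nat.card {p : Fml n k m × (Fin n → Bool) // Dist p.1 ∧ Sat p.1 p.2 ∧
      ¬ (2 : ℝ) ^ (1 / 20 * sav n k m * n) * (1 / 2) ^ n ≤
        success p.1 1 1 (chain (List.finRange n))} ≤
      (univ.filter fun p : Fml n k m × (Fin n → Bool) => Pool.Agent.H97.RK.Dist p.1 ∧
        Pool.Agent.H47.PL.Sat p.1 p.2 ∧
      u ≤ (univ.filter fun v : Fin n => n ≤ v.1 + h ∧ ¬ Frc p.1 p.2 v).card).card := by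
    rw [Nat.card_eq_fintype_card, Fintype.card_subtype]
    refine card_le_card fun p hp => ?_
    rw [mem_filter] at hp ⊢
    obtain ⟨_, hD, hS, hs⟩ := hp
    refine ⟨mem_univ _, hD, hS, ?_⟩
    have h4 := hA n k m p.1 p.2 hS
    have h5 : (2 : ℝ) ^ (univ.filter fun v => Frc p.1 p.2 v).card <
        (2 : ℝ) ^ (1 / 20 * sav n k m * n) := by
      by_contra hcon
      rw [not_lt] at hcon
      refine hs (le_trans ?_ h4)
      gcongr
    have h6 : ((univ.filter fun v => Frc p.1 p.2 v).card : ℝ) < 1 / 20 * sav n k m * n := by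
      rw [← Real.rpow_natCast] at h5
      exact (Real.rpow_lt_rpow_left_iff (by norm_num)).1 h5
    have h7 : ((univ.filter fun v => Frc p.1 p.2 v).card : ℝ) < (h : ℝ) - u := h6.trans_le hsv
    have h8 : (univ.filter fun v => Frc p.1 p.2 v).card + u < h := by
      have : ((univ.filter fun v => Frc p.1 p.2 v).card : ℝ) + u < (h : ℝ) := by linarith
      exact_mod_cast this
    have h9 := card_last hhn
    have h10 : (univ.filter fun v : Fin n => n ≤ v.1 + h).card ≤
        (univ.filter fun v : Fin n => n ≤ v.1 + h ∧ ¬ Frc p.1 p.2 v).card +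
        (univ.filter fun v => Frc p.1 p.2 v).card := by
      refine le_trans (card_le_card (t := (univ.filter fun v : Fin n => n ≤ v.1 + h ∧
        ¬ Frc p.1 p.2 v) ∪ (univ.filter fun v => Frc p.1 p.2 v)) fun v hv => ?_)
        (card_union_le _ _)
      rw [mem_union, mem_filter, mem_filter]
      by_cases hF : Frc p.1 p.2 v
      · exact Or.inr ⟨mem_univ _, hF⟩
      · exact Or.inl ⟨mem_univ _, (mem_filter.1 hv).2, hF⟩
    omega
  rw [h2]
  have hn0 : (0 : ℝ) ≤ n := Nat.cast_nonneg _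
  calc (n : ℝ) * _ ≤ n * (((univ.filter fun p : Fml n k m × (Fin n → Bool) =>
        Pool.Agent.H97.RK.Dist p.1 ∧ Pool.Agent.H47.PL.Sat p.1 p.2 ∧
      u ≤ (univ.filter fun v : Fin n => n ≤ v.1 + h ∧ ¬ Frc p.1 p.2 v).card).card : ℕ) : ℝ) := by
        refine mul_le_mul_of_nonneg_left ?_ hn0
        exact_mod_cast h3
    _ ≤ n * (2 ^ h * (1 - u * (k * ((n - h).descFactorial (k - 1) : ℝ) /
      ((2 ^ k - 1) * (n.descFactorial k : ℝ)))) ^ m * P) := mul_le_mul_of_nonneg_left h1 hn0
    _ = (n * (2 ^ h * (1 - u * (k * ((n - h).descFactorial (k - 1) : ℝ) /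
      ((2 ^ k - 1) * (n.descFactorial k : ℝ)))) ^ m)) * P := by ring
    _ ≤ 1 * P := mul_le_mul_of_nonneg_right hnum (Nat.cast_nonneg _)
    _ = P := one_mul _

end Pool.Agent.H47.SR
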