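import Pool.Agent.H47.SQ.Targets2
import Pool.Agent.H47.SQ.FIA

/-!
The savings of backtracking search on random k-CNFs (MP_c62aed_lc): row FIC.
-/

set_option autoImplicit false

namespace Pool.Agent.H47.SR

open Finset Pool.Agent.H47.SQ

theorem pf_FIC : T_FIC := by
  intro hMSD hGOE
  refine ⟨2 ^ 44, ?_⟩
  intro k n m hk hkn
  have hx2 : (1 / 2 : ℝ) ≤ sav n k m * n := half_le_sav hk hkn
  have hC : (2 : ℝ) ^ 44 * sav n k m * n = 2 ^ 44 * (sav n k m * n) := by ring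
  rw [hC]
  set x := sav n k m * n with hx
  set t₀ := ⌈2 ^ 20 * sav n k m * n⌉₊ with ht₀
  have hle : 2 ^ 20 * sav n k m * n ≤ t₀ := Nat.le_ceil _
  have hle' : 2 ^ 20 * x ≤ t₀ := by
    rw [hx, ← mul_assoc]
    exact hle
  have hlt : (t₀ : ℝ) < 2 ^ 20 * x + 1 := by
    have h1 : (t₀ : ℝ) < 2 ^ 20 * sav n k m * n + 1 := by
      refine Nat.ceil_lt_add_one ?_
      rw [mul_assoc, ← hx]
      linarith
    rw [mul_assoc, ← hx] at h1
    exact h1
  have ht1 : 1 ≤ t₀ := by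
    have : (0 : ℝ) < t₀ := by linarith
    exact_mod_cast this
  have hg := guess_pos n k m
  by_cases hn : 2 ^ 22 * t₀ ≤ n
  · obtain ⟨G, hG1, hG2⟩ := hGOE k n m t₀ hk hkn ht1 hle hn
    refine ⟨G, hG1, ?_⟩
    intro F hF a s T hs ha
    obtain ⟨h1, h2⟩ := hG2 F hF
    have h3 := hMSD n k m F t₀ (2 ^ (2 ^ 22 * t₀) * (2 ^ n * guess n k m)) ht1 hn h1 (by
      have := guess_le n k m
      calc (2 : ℝ) ^ (2 ^ 22 * t₀) * (2 ^ n * guess n k m) ≤
          2 ^ (2 ^ 22 * t₀) * (2 ^ n * 2) := by gcongr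
        _ = _ := by rw [pow_add, pow_add]; ring) h2 a s T (by
      have : (a : ℝ) ≤ t₀ := by linarith
      exact_mod_cast this) hs
    have h4 : success F a s T ≤ (s : ℝ) ^ (12 / 7 : ℝ) *
        2 ^ ((2 ^ 22 + 4) * t₀ + 2 + 2 ^ 22 * t₀) * guess n k m := by
      have h5 : (0 : ℝ) < 2 ^ n := by positivity
      rw [← mul_le_mul_iff_left₀ h5]
      refine h3.trans (le_of_eq ?_)
      rw [pow_add 2 ((2 ^ 22 + 4) * t₀ + 2)]
      ring
    refine h4.trans ?_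
    have h6 : (2 : ℝ) ^ ((2 ^ 22 + 4) * t₀ + 2 + 2 ^ 22 * t₀) ≤ (2 : ℝ) ^ (2 ^ 44 * x) := by
      rw [← Real.rpow_natCast]
      refine Real.rpow_le_rpow_of_exponent_le (by norm_num) ?_
      push_cast
      nlinarith
    have h7 : (0 : ℝ) ≤ (s : ℝ) ^ (12 / 7 : ℝ) := by positivity
    gcongr
  · refine ⟨Set.univ, almostAll_univ n k m, ?_⟩
    intro F _ a s T hs _
    refine (success_le_one F a s T).trans ?_
    have hs1 : (1 : ℝ) ≤ s := by exact_mod_cast hs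
    have h5 : (1 : ℝ) ≤ (s : ℝ) ^ (12 / 7 : ℝ) := Real.one_le_rpow hs1 (by norm_num)
    have h6 : (2 : ℝ) ^ (n : ℝ) ≤ (2 : ℝ) ^ (2 ^ 44 * x) := by
      refine Real.rpow_le_rpow_of_exponent_le (by norm_num) ?_
      have h7 : (n : ℝ) ≤ 2 ^ 22 * t₀ := by
        have : n ≤ 2 ^ 22 * t₀ := by omega
        exact_mod_cast this
      nlinarith
    calc (1 : ℝ) = 1 * (2 : ℝ) ^ (n : ℝ) * (1 / 2) ^ n := by
          rw [Real.rpow_natCast, one_mul, ← mul_pow]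
          norm_num
      _ ≤ (s : ℝ) ^ (12 / 7 : ℝ) * (2 : ℝ) ^ (2 ^ 44 * x) * guess n k m := by
          have := half_le_guess n k m
          gcongr

end Pool.Agent.H47.SR
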