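import Pool.Agent.H47.SQ.Targets2
import Pool.Agent.H51.SSM.CHO

/-!
# Row NUE (board ppz_modules)
-/

set_option autoImplicit false

open Finset Pool.Agent.H97.RK Pool.Agent.H41.SS Pool.Agent.H47.SR

namespace Pool.Agent.H47.SQ.NUE

/-- the volume of a ball of radius `A t` -/
theorem bl_le (N A t e : ℕ) (ht : 1 ≤ t) (hA : 1 ≤ A) (hA2 : A ≤ 140)
    (h1 : 4194304 * t ≤ N + 4 * t) (h2 : N ≤ 4194304 * t)
    (hM : 27182818286 * 4194304 ≤ 10000000000 * (A * 2 ^ e)) :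
    bl N (A * t) ≤ 2 ^ (e * A * t) := by
  have hAt : 1 ≤ A * t := Nat.mul_pos hA ht
  have hAN : A * t ≤ N := by
    have h3 : A * t ≤ 140 * t := Nat.mul_le_mul_right t hA2
    omega
  have h4 := Pool.Agent.H51.SSM.pf_CHO.2 N (A * t) hAt hAN
  have ht0 : (0 : ℝ) < t := by exact_mod_cast ht
  have hA0 : (0 : ℝ) < A := by exact_mod_cast hA
  have h5 : Real.exp 1 * (N : ℝ) / ((A * t : ℕ) : ℝ) ≤ ((2 ^ e : ℕ) : ℝ) := by
    rw [div_le_iff₀ (by exact_mod_cast hAt)]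
    push_cast
    have h6 : (N : ℝ) ≤ 4194304 * t := by
      have : ((N : ℕ) : ℝ) ≤ ((4194304 * t : ℕ) : ℝ) := by exact_mod_cast h2
      push_cast at this
      linarith
    have h7 : (27182818286 : ℝ) * 4194304 ≤ 10000000000 * (A * 2 ^ e) := by exact_mod_cast hM
    have h8 := Real.exp_one_lt_d9
    have h9 : Real.exp 1 * (N : ℝ) ≤ 2.7182818286 * (4194304 * t) := by
      apply mul_le_mul h8.le h6 (Nat.cast_nonneg _) (by norm_num)
    have h10 : (2.7182818286 : ℝ) * (4194304 * t) ≤ (2 : ℝ) ^ e * (A * t) := by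
      have h11 : (2.7182818286 : ℝ) * 4194304 ≤ (2 : ℝ) ^ e * A := by
        linarith
      calc (2.7182818286 : ℝ) * (4194304 * t) = (2.7182818286 * 4194304) * t := by ring
        _ ≤ ((2 : ℝ) ^ e * A) * t := mul_le_mul_of_nonneg_right h11 ht0.le
        _ = (2 : ℝ) ^ e * (A * t) := by ring
    linarith
  have h12 : (bl N (A * t) : ℝ) ≤ ((2 ^ e : ℕ) : ℝ) ^ (A * t) :=
    h4.trans (pow_le_pow_left₀ (by positivity) h5 _)
  have h13 : bl N (A * t) ≤ (2 ^ e) ^ (A * t) := by exact_mod_cast h12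
  calc bl N (A * t) ≤ (2 ^ e) ^ (A * t) := h13
    _ = 2 ^ (e * A * t) := by rw [← pow_mul, mul_assoc]

theorem pf_NUE : T_NUE := by
  intro t s N S ht hs hS h1 h2
  have e22 : 2 ^ 22 = 4194304 := by norm_num
  rw [e22] at h1 h2 hs
  have hs' : s ≤ 2 ^ (2446680 * t) := by
    have h3 : s ^ 12 ≤ (2 ^ (2446680 * t)) ^ 12 := by
      rw [← pow_mul]
      refine hs.trans (Nat.pow_le_pow_right (by norm_num) ?_)
      omega
    exact (Nat.pow_le_pow_iff_left (by norm_num)).1 h3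
  have hS' : S ≤ 2 ^ (2446680 * t) := hS.trans hs'
  have b1 : bl N (130 * t) ≤ 2 ^ (17 * 130 * t) :=
    bl_le N 130 t 17 ht (by norm_num) (by norm_num) h1 h2 (by norm_num)
  have b2 : bl N (4 * t) ≤ 2 ^ (22 * 4 * t) :=
    bl_le N 4 t 22 ht (by norm_num) (by norm_num) h1 h2 (by norm_num)
  have b3 : bl N (140 * t) ≤ 2 ^ (17 * 140 * t) :=
    bl_le N 140 t 17 ht (by norm_num) (by norm_num) h1 h2 (by norm_num)
  have h4 : S * (2 ^ N * bl N (130 * t) * bl N (4 * t)) + 2 ^ N * bl N (140 * t)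
      ≤ 2 ^ (2446680 * t) * (2 ^ N * 2 ^ (17 * 130 * t) * 2 ^ (22 * 4 * t)) +
        2 ^ N * 2 ^ (17 * 140 * t) := by
    gcongr
  have h5 : 2 ^ (2446680 * t) * (2 ^ N * 2 ^ (17 * 130 * t) * 2 ^ (22 * 4 * t)) +
        2 ^ N * 2 ^ (17 * 140 * t)
      ≤ 2 ^ (N + 2448978 * t + 1) := by
    have e1 : 2 ^ (2446680 * t) * (2 ^ N * 2 ^ (17 * 130 * t) * 2 ^ (22 * 4 * t)) =
        2 ^ (N + 2448978 * t) := by
      rw [← pow_add, ← pow_add, ← pow_add]
      congr 1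
      ring
    have e2 : 2 ^ N * 2 ^ (17 * 140 * t) ≤ 2 ^ (N + 2448978 * t) := by
      rw [← pow_add]
      apply Nat.pow_le_pow_right (by norm_num)
      omega
    rw [e1, pow_succ]
    omega
  have h6 : 2 ^ (N + 2448978 * t + 1) < 3 ^ N := by
    obtain ⟨r, hr⟩ : ∃ r, N = 4194300 * t + r := ⟨N - 4194300 * t, by omega⟩
    have c0 : 2 ^ 84 ≤ 3 ^ 53 := by norm_num
    have c1 : 2 ^ (6647508 * t) ≤ 3 ^ (4194300 * t) := by
      calc 2 ^ (6647508 * t) = (2 ^ 84) ^ (79137 * t) := by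
            rw [← pow_mul]
            congr 1
            ring
        _ ≤ (3 ^ 53) ^ (79137 * t) := Nat.pow_le_pow_left c0 _
        _ = 3 ^ (4194261 * t) := by
            rw [← pow_mul]
            congr 1
            ring
        _ ≤ 3 ^ (4194300 * t) := Nat.pow_le_pow_right (by norm_num) (by omega)
    have c2 : 2 ^ r ≤ 3 ^ r := Nat.pow_le_pow_left (by norm_num) r
    calc 2 ^ (N + 2448978 * t + 1) = 2 ^ (6643278 * t + 1) * 2 ^ r := by
          rw [← pow_add]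
          congr 1
          omega
      _ < 2 ^ (6647508 * t) * 2 ^ r := by
          apply Nat.mul_lt_mul_of_pos_right _ (pow_pos (by norm_num) r)
          apply Nat.pow_lt_pow_right (by norm_num)
          omega
      _ ≤ 3 ^ (4194300 * t) * 3 ^ r := Nat.mul_le_mul c1 c2
      _ = 3 ^ N := by rw [← pow_add, hr]
  exact lt_of_le_of_lt (h4.trans h5) h6

end Pool.Agent.H47.SQ.NUE
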