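import Pool.Agent.H47.SQ.Targets3
import Pool.Agent.H47.SQ.FID

/-!
The savings of backtracking search on random k-CNFs (MP_c62aed_lc): the lower bound.
-/

set_option autoImplicit false

namespace Pool.Agent.H47.SR

open Finset Pool.Agent.H97.RK
open Pool.Agent.H47.PL (Sat nsol Os)
open Pool.Agent.H47.SQ (success sav guess chain)

/-- the lower bound -/
theorem lower_core (hD : T_UPD) (hB : T_UPB) (n k m h u : ℕ) (hk1 : 1 ≤ k) (hkn : k ≤ n)
    (huh : u ≤ h) (hhn : h ≤ n) (X : ℝ) (hX : 0 ≤ X)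
    (hbig : 8 * n * X ≤ 2 ^ (h - u))
    (hnum : 4 * n * (2 ^ h * (1 - u * (k * ((n - h).descFactorial (k - 1) : ℝ) /
        ((2 ^ k - 1) * (n.descFactorial k : ℝ)))) ^ m) ≤ 1) :
    (n : ℝ) * Nat.card {p : Pool.Agent.H47.SQ.Fml n k m × (Fin n → Bool) //
      Pool.Agent.H47.SQ.Dist p.1 ∧ Pool.Agent.H47.SQ.Sat p.1 p.2 ∧
      ¬ X * guess n k m ≤ success p.1 1 1 (chain (List.finRange n))} ≤
      Nat.card {p : Pool.Agent.H47.SQ.Fml n k m × (Fin n → Bool) //
        Pool.Agent.H47.SQ.Dist p.1 ∧ Pool.Agent.H47.SQ.Sat p.1 p.2} := by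
  classical
  have hn1 : (1 : ℝ) ≤ n := by exact_mod_cast (by omega : 1 ≤ n)
  have h1 := hB n k m h u hk1 hkn hhn huh
  have hPE := pairs_eq (n := n) (k := k) (m := m)
  set P := (univ.filter fun p : Fml n k m × (Fin n → Bool) => Dist p.1 ∧ Sat p.1 p.2).card
    with hP
  set E : ℝ := 2 ^ n * (1 - (1 / 2 : ℝ) ^ k) ^ m with hEdef
  set poor : Fml n k m → (Fin n → Bool) → Prop := fun F σ =>
    u ≤ (univ.filter fun v : Fin n => n ≤ v.1 + h ∧ ¬ Frc F σ v).card with hpoor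
  set Bp := (univ.filter fun p : Fml n k m × (Fin n → Bool) => Dist p.1 ∧ Sat p.1 p.2 ∧
      poor p.1 p.2) with hBp
  have h2 : 4 * n * (Bp.card : ℝ) ≤ P := by
    have h1' : (Bp.card : ℝ) ≤ 2 ^ h * (1 - u * (k * ((n - h).descFactorial (k - 1) : ℝ) /
      ((2 ^ k - 1) * (n.descFactorial k : ℝ)))) ^ m * P := h1
    have hn4 : (0 : ℝ) ≤ 4 * n := by positivity
    calc 4 * n * (Bp.card : ℝ) ≤ 4 * n * (2 ^ h * (1 - u * (k * ((n - h).descFactorial (k - 1) : ℝ) /
          ((2 ^ k - 1) * (n.descFactorial k : ℝ)))) ^ m * P) :=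
          mul_le_mul_of_nonneg_left h1' hn4
      _ = (4 * n * (2 ^ h * (1 - u * (k * ((n - h).descFactorial (k - 1) : ℝ) /
          ((2 ^ k - 1) * (n.descFactorial k : ℝ)))) ^ m)) * P := by ring
      _ ≤ 1 * P := mul_le_mul_of_nonneg_right hnum (Nat.cast_nonneg _)
      _ = P := one_mul _
  have hBps := card_pairs2 poor Bp (fun p => by rw [hBp, mem_filter]; exact ⟨fun h => h.2, fun h => ⟨mem_univ _, h⟩⟩)
  set pc : Fml n k m → ℕ := fun F => cn fun σ => Sat F σ ∧ poor F σ with hpc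
  -- the two sets
  set Ba := (univ.filter fun p : Fml n k m × (Fin n → Bool) => Dist p.1 ∧ Sat p.1 p.2 ∧
      nsol p.1 ≤ 2 * pc p.1) with hBa
  set Bb := (univ.filter fun p : Fml n k m × (Fin n → Bool) => Dist p.1 ∧ Sat p.1 p.2 ∧
      2 * n * (nsol p.1 : ℝ) < E) with hBb
  have hBas := card_pairs2 (fun F _ => nsol F ≤ 2 * pc F) Ba (fun p => by rw [hBa, mem_filter]; exact ⟨fun h => h.2, fun h => ⟨mem_univ _, h⟩⟩)
  have hBbs := card_pairs2 (fun F _ => 2 * n * (nsol F : ℝ) < E) Bb (fun p => by rw [hBb, mem_filter]; exact ⟨fun h => h.2, fun h => ⟨mem_univ _, h⟩⟩)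
  have h3 : Ba.card ≤ 2 * Bp.card := by
    rw [hBas, hBps, mul_sum]
    refine sum_le_sum fun F _ => ?_
    by_cases hF : nsol F ≤ 2 * pc F
    · have h5 : (cn fun σ => Sat F σ ∧ nsol F ≤ 2 * pc F) ≤ nsol F := by
        rw [nsol_cn]
        exact cn_mono fun σ hσ => hσ.1
      exact h5.trans hF
    · rw [cn_zero fun σ h => hF h.2]
      exact Nat.zero_le _
  have h4 : 2 * n * (Bb.card : ℝ) ≤ P := by
    rw [hBbs, hPE]
    push_cast
    rw [mul_sum, ← nsmul_eq_mul, ← sum_const]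
    refine sum_le_sum fun F _ => ?_
    have hE0 : 0 ≤ E := by
      have : (0 : ℝ) ≤ 1 - (1 / 2 : ℝ) ^ k := by
        have := pow_le_one₀ (n := k) (show (0 : ℝ) ≤ 1 / 2 by norm_num) (by norm_num)
        linarith
      positivity
    by_cases hF : 2 * n * (nsol F : ℝ) < E
    · refine le_trans ?_ hF.le
      have h6 : (cn fun σ => Sat F σ ∧ 2 * n * (nsol F : ℝ) < E) ≤ nsol F := by
        rw [nsol_cn]
        exact cn_mono fun σ hσ => hσ.1
      have h5 : ((cn fun σ => Sat F σ ∧ 2 * n * (nsol F : ℝ) < E : ℕ) : ℝ) ≤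
        nsol F := by exact_mod_cast h6
      exact mul_le_mul_of_nonneg_left h5 (by positivity)
    · rw [cn_zero fun σ h => hF h.2]
      simpa using hE0
  have h5 : Nat.card {p : Pool.Agent.H47.SQ.Fml n k m × (Fin n → Bool) //
      Pool.Agent.H47.SQ.Dist p.1 ∧ Pool.Agent.H47.SQ.Sat p.1 p.2} = P := by
    rw [Nat.card_eq_fintype_card, Fintype.card_subtype]
    rfl
  have h6 : Nat.card {p : Pool.Agent.H47.SQ.Fml n k m × (Fin n → Bool) //
      Pool.Agent.H47.SQ.Dist p.1 ∧ Pool.Agent.H47.SQ.Sat p.1 p.2 ∧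
      ¬ X * guess n k m ≤
        success p.1 1 1 (chain (List.finRange n))} ≤ (Ba ∪ Bb).card := by
    rw [Nat.card_eq_fintype_card, Fintype.card_subtype]
    refine card_le_card fun p hp => ?_
    rw [mem_filter] at hp
    obtain ⟨_, hDi, hS, hs⟩ := hp
    rw [mem_union]
    by_contra hcon
    rw [not_or] at hcon
    obtain ⟨hca, hcb⟩ := hcon
    have hca' : 2 * pc p.1 < nsol p.1 := by
      by_contra h7
      exact hca (mem_filter.2 ⟨mem_univ _, hDi, hS, not_lt.1 h7⟩)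
    have hcb' : E ≤ 2 * n * (nsol p.1 : ℝ) := by
      by_contra h7
      exact hcb (mem_filter.2 ⟨mem_univ _, hDi, hS, not_le.1 h7⟩)
    apply hs
    refine le_trans ?_ (hD n k m p.1)
    -- the solutions which are not poor
    have h7 : nsol p.1 ≤ pc p.1 + (univ.filter fun σ => Sat p.1 σ ∧ ¬ poor p.1 σ).card := by
      rw [hpc]
      simp only [cn_eq]
      unfold nsol
      refine le_trans (card_le_card (t := (univ.filter fun σ => Sat p.1 σ ∧ poor p.1 σ) ∪
        (univ.filter fun σ => Sat p.1 σ ∧ ¬ poor p.1 σ)) fun σ hσ => ?_) (card_union_le _ _)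
      rw [mem_filter] at hσ
      rw [mem_union, mem_filter, mem_filter]
      by_cases hq : poor p.1 σ
      · exact Or.inl ⟨mem_univ _, hσ.2, hq⟩
      · exact Or.inr ⟨mem_univ _, hσ.2, hq⟩
    have h8 : ∀ σ ∈ univ.filter (fun σ => Sat p.1 σ ∧ ¬ poor p.1 σ),
        (2 : ℝ) ^ (h - u) ≤ (2 : ℝ) ^ (univ.filter fun v => Frc p.1 σ v).card := by
      intro σ hσ
      have hq : ¬ poor p.1 σ := (mem_filter.1 hσ).2.2
      refine pow_le_pow_right₀ (by norm_num) ?_
      have h9 := card_last hhn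
      have h10 : (univ.filter fun v : Fin n => n ≤ v.1 + h).card ≤
          (univ.filter fun v : Fin n => n ≤ v.1 + h ∧ ¬ Frc p.1 σ v).card +
          (univ.filter fun v => Frc p.1 σ v).card := by
        refine le_trans (card_le_card (t := (univ.filter fun v : Fin n => n ≤ v.1 + h ∧
          ¬ Frc p.1 σ v) ∪ (univ.filter fun v => Frc p.1 σ v)) fun v hv => ?_)
          (card_union_le _ _)
        rw [mem_union, mem_filter, mem_filter]
        by_cases hF : Frc p.1 σ v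
        · exact Or.inr ⟨mem_univ _, hF⟩
        · exact Or.inl ⟨mem_univ _, (mem_filter.1 hv).2, hF⟩
      have h11 : (univ.filter fun v : Fin n => n ≤ v.1 + h ∧ ¬ Frc p.1 σ v).card < u :=
        not_le.1 hq
      omega
    have h9 : (nsol p.1 : ℝ) / 2 * (2 : ℝ) ^ (h - u) ≤
        ∑ σ ∈ univ.filter fun σ : Fin n → Bool => Sat p.1 σ,
          (2 : ℝ) ^ (univ.filter fun v => Frc p.1 σ v).card := by
      have h10 : (nsol p.1 : ℝ) / 2 ≤ (univ.filter fun σ => Sat p.1 σ ∧ ¬ poor p.1 σ).card := by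
        have h11 : nsol p.1 ≤ 2 * (univ.filter fun σ => Sat p.1 σ ∧ ¬ poor p.1 σ).card := by
          omega
        have h12 : (nsol p.1 : ℝ) ≤ 2 * (univ.filter fun σ => Sat p.1 σ ∧ ¬ poor p.1 σ).card := by
          exact_mod_cast h11
        linarith
      calc (nsol p.1 : ℝ) / 2 * (2 : ℝ) ^ (h - u) ≤
          (univ.filter fun σ => Sat p.1 σ ∧ ¬ poor p.1 σ).card * (2 : ℝ) ^ (h - u) :=
            mul_le_mul_of_nonneg_right h10 (by positivity)
        _ = ∑ _σ ∈ univ.filter (fun σ => Sat p.1 σ ∧ ¬ poor p.1 σ), (2 : ℝ) ^ (h - u) := by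
            rw [sum_const, nsmul_eq_mul]
        _ ≤ ∑ σ ∈ univ.filter (fun σ => Sat p.1 σ ∧ ¬ poor p.1 σ),
            (2 : ℝ) ^ (univ.filter fun v => Frc p.1 σ v).card := sum_le_sum h8
        _ ≤ _ := by
            refine sum_le_sum_of_subset_of_nonneg (fun σ hσ => ?_) (fun _ _ _ => by positivity)
            rw [mem_filter] at hσ ⊢
            exact ⟨mem_univ _, hσ.2.1⟩
    have h10 : (1 : ℝ) ≤ nsol p.1 := by
      have : 1 ≤ nsol p.1 := by omega
      exact_mod_cast this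
    have h11 : 2 ^ n * guess n k m ≤ 4 * n * (nsol p.1 : ℝ) := by
      have h12 : 2 ^ n * guess n k m = 1 + E := by
        unfold guess
        rw [mul_add, ← mul_pow, hEdef]
        norm_num
      rw [h12]
      nlinarith
    have h12 : (0 : ℝ) ≤ X := hX
    have h13 : (0 : ℝ) < (1 / 2 : ℝ) ^ n := by positivity
    have h14 : (2 : ℝ) ^ n * (1 / 2) ^ n = 1 := by
      rw [← mul_pow]
      norm_num
    calc X * guess n k m =
          X * (2 ^ n * guess n k m) * (1 / 2) ^ n := by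
          have h15 : X * (2 ^ n * guess n k m) * (1 / 2) ^ n =
              X * guess n k m * ((2 : ℝ) ^ n * (1 / 2) ^ n) := by ring
          rw [h15, h14, mul_one]
      _ ≤ X * (4 * n * (nsol p.1 : ℝ)) * (1 / 2) ^ n := by
          gcongr
      _ = (nsol p.1 : ℝ) / 2 * (8 * n * X) * (1 / 2) ^ n := by
          ring
      _ ≤ (nsol p.1 : ℝ) / 2 * (2 : ℝ) ^ (h - u) * (1 / 2) ^ n := by gcongr
      _ ≤ _ := mul_le_mul_of_nonneg_right h9 h13.le
  rw [h5]
  have h7 : (Ba ∪ Bb).card ≤ Ba.card + Bb.card := card_union_le _ _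
  have h8 : (Ba.card : ℝ) ≤ 2 * Bp.card := by exact_mod_cast h3
  have h9 : (Nat.card {p : Pool.Agent.H47.SQ.Fml n k m × (Fin n → Bool) //
      Pool.Agent.H47.SQ.Dist p.1 ∧ Pool.Agent.H47.SQ.Sat p.1 p.2 ∧
      ¬ X * guess n k m ≤
        success p.1 1 1 (chain (List.finRange n))} : ℝ) ≤ Ba.card + Bb.card := by
    exact_mod_cast h6.trans h7
  have h10 : (0 : ℝ) ≤ n := by linarith
  calc (n : ℝ) * _ ≤ n * (Ba.card + Bb.card) := mul_le_mul_of_nonneg_left h9 h10
    _ ≤ n * (2 * Bp.card + Bb.card) := by gcongr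
    _ ≤ P := by nlinarith

end Pool.Agent.H47.SR
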