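import Pool.Agent.H47.SQ.Targets3
import Pool.Agent.H47.SQ.XFL

/-!
The savings of backtracking search on random k-CNFs (MP_c62aed_lc): row XFI.
-/

set_option autoImplicit false

namespace Pool.Agent.H47.SR

open Finset Pool.Agent.H97.RK
open Pool.Agent.H47.PL (Sat nsol Os)
open Pool.Agent.H47.SQ (success sav guess chain Refuted AlmostAll)

theorem rpow_dom {x c c' : ℝ} (hx : 1 ≤ x) (h : c ≤ c') : x ^ c ≤ x ^ c' :=
  Real.rpow_le_rpow_of_exponent_le hx h

/-- the bound for the good formulas -/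
theorem xfi_upper (hEX : T_XEX) (hSU : T_XSU) (hLG : T_XLG) (n k m : ℕ) (F : Fml n k m)
    (t t₁ d u u₁ b₀ Q a s t₀ : ℕ) (ε lam g : ℝ) (h1 : 1 ≤ t₁) (h2 : t₁ ≤ t) (h3 : u ≤ u₁)
    (h4 : u ≤ n) (h5 : 1 ≤ Q) (h6 : b₀ + 12 * t + d ≤ u) (h7 : 2 * u ≤ Q * b₀)
    (h8 : a ≤ 2 * t)
    (h9 : 2 * (s * ((2 : ℝ) ^ (4 * t) * (1 - 1 / (4 * (Q : ℝ))) ^ (u - (b₀ + d + 6 * t)))) < 1)
    (h10 : (u : ℝ) + 4 * t ≤ (1 + ε) * lam) (ht₀ : 1 ≤ t₀) (htn : 2 ^ 22 * t₀ ≤ n)
    (ha : a ≤ 2 * t₀) (hs : s ^ 12 ≤ 2 ^ (7 * ((2 ^ 22 + 4) * t₀))) (hg0 : 0 ≤ g) (hg : g ≤ 2)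
    (hG1 : (nsol F : ℝ) ≤ (2 : ℝ) ^ (ε * lam) * (2 ^ n * g))
    (hG2 : (badB F t t₁ d u u₁ : ℝ) * 2 ^ ((2 ^ 22 + 4) * t₀) ≤ 2 ^ n * g)
    (hG3 : ∀ t, t₀ ≤ t → 2 ^ 22 * t ≤ n →
        (badr F t (2 ^ 22 * t + 4 * t + 1) : ℝ) * 2 ^ (5 * (2 ^ 22 * t)) ≤
        2 ^ (2 ^ 22 * t₀) * (2 ^ n * g)) (hε : 0 ≤ ε) (hlam : 2 ≤ ε * lam) :
    success F a s (chain (List.finRange n)) ≤ (2 : ℝ) ^ ((1 + 3 * ε) * lam) * g := by
  classical
  have hA := hSU n k m F a s
  set N := (2 : ℝ) ^ n * g with hN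
  have hN0 : 0 ≤ N := by positivity
  set S0 := univ.filter fun τ : Fin n → Bool => Sat F τ with hS0
  have hsplit : ∑ τ ∈ S0, (2 : ℝ) ^ exc (Refuted F a s) τ =
      ∑ τ ∈ S0.filter (fun τ => BG F t t₁ d u u₁ τ), (2 : ℝ) ^ exc (Refuted F a s) τ +
      ∑ τ ∈ S0.filter (fun τ => ¬ BG F t t₁ d u u₁ τ), (2 : ℝ) ^ exc (Refuted F a s) τ :=
    (sum_filter_add_sum_filter_not _ _ _).symm
  -- the good solutions
  have hB1 : ∑ τ ∈ S0.filter (fun τ => BG F t t₁ d u u₁ τ), (2 : ℝ) ^ exc (Refuted F a s) τ ≤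
      (2 : ℝ) ^ (ε * lam) * N * (2 : ℝ) ^ ((1 + ε) * lam) := by
    have hB2 : ∀ τ ∈ S0.filter (fun τ => BG F t t₁ d u u₁ τ),
        (2 : ℝ) ^ exc (Refuted F a s) τ ≤ (2 : ℝ) ^ ((1 + ε) * lam) := by
      intro τ hτ
      rw [mem_filter] at hτ
      have h11 := hEX n k m F t t₁ d u u₁ b₀ Q a s h1 h2 h3 h4 h5 h6 h7 h8 h9 τ
        (mem_filter.1 hτ.1).2 hτ.2
      rw [← Real.rpow_natCast]
      refine Real.rpow_le_rpow_of_exponent_le (by norm_num) (le_trans ?_ h10)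
      exact_mod_cast h11
    have hB3 : ((S0.filter (fun τ => BG F t t₁ d u u₁ τ)).card : ℝ) ≤ nsol F := by
      have : (S0.filter (fun τ => BG F t t₁ d u u₁ τ)).card ≤ S0.card :=
        card_le_card (filter_subset _ _)
      exact_mod_cast this
    calc ∑ τ ∈ S0.filter (fun τ => BG F t t₁ d u u₁ τ), (2 : ℝ) ^ exc (Refuted F a s) τ
        ≤ ∑ _τ ∈ S0.filter (fun τ => BG F t t₁ d u u₁ τ), (2 : ℝ) ^ ((1 + ε) * lam) :=
          sum_le_sum hB2
      _ = (S0.filter (fun τ => BG F t t₁ d u u₁ τ)).card * (2 : ℝ) ^ ((1 + ε) * lam) := by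
          rw [sum_const, nsmul_eq_mul]
      _ ≤ _ := by
          refine mul_le_mul_of_nonneg_right (hB3.trans hG1) (by positivity)
  -- the bad solutions
  have hC1 : ∑ τ ∈ S0.filter (fun τ => ¬ BG F t t₁ d u u₁ τ),
      (2 : ℝ) ^ exc (Refuted F a s) τ ≤ N + N := by
    have hC2 := hLG n k m F t₀ (2 ^ (2 ^ 22 * t₀) * N)
      (S0.filter (fun τ => ¬ BG F t t₁ d u u₁ τ)) ht₀ htn
      (fun τ hτ => (mem_filter.1 (mem_filter.1 hτ).1).2) (by
        calc (2 : ℝ) ^ (2 ^ 22 * t₀) * N ≤ 2 ^ (2 ^ 22 * t₀) * (2 ^ n * 2) := by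
              rw [hN]
              gcongr
          _ = _ := by rw [pow_add, pow_add]; ring) hG3 a s ha hs
    refine hC2.trans (add_le_add ?_ ?_)
    · have hC3 : (S0.filter (fun τ => ¬ BG F t t₁ d u u₁ τ)).card = badB F t t₁ d u u₁ := by
        unfold badB
        rw [hS0, filter_filter]
      rw [hC3]
      exact hG2
    · have h12 : (2 : ℝ) ^ (2 ^ 22 * t₀) * N / 2 ^ (2 * (2 ^ 22 * t₀)) =
          N / 2 ^ (2 ^ 22 * t₀) := by
        rw [two_mul, pow_add]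
        field_simp
      rw [h12]
      refine div_le_self hN0 (one_le_pow₀ (by norm_num))
  have hD : success F a s (chain (List.finRange n)) * 2 ^ n ≤
      ((2 : ℝ) ^ ((1 + 3 * ε) * lam) * g) * 2 ^ n := by
    have hlam0 : 0 ≤ ε * lam := by linarith
    calc success F a s (chain (List.finRange n)) * 2 ^ n
        ≤ (2 : ℝ) ^ (ε * lam) * N * (2 : ℝ) ^ ((1 + ε) * lam) + (N + N) := by
          refine hA.trans ?_
          rw [hsplit]
          exact add_le_add hB1 hC1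
      _ = ((2 : ℝ) ^ (lam + 2 * (ε * lam)) + 2) * N := by
          have : (2 : ℝ) ^ (lam + 2 * (ε * lam)) =
              (2 : ℝ) ^ (ε * lam) * (2 : ℝ) ^ ((1 + ε) * lam) := by
            rw [← Real.rpow_add (by norm_num)]
            congr 1
            ring
          rw [this]
          ring
      _ ≤ (2 : ℝ) ^ ((1 + 3 * ε) * lam) * N := by
          refine mul_le_mul_of_nonneg_right ?_ hN0
          have h13 : (2 : ℝ) ^ ((1 + 3 * ε) * lam) =
              (2 : ℝ) ^ (lam + 2 * (ε * lam)) * (2 : ℝ) ^ (ε * lam) := by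
            rw [← Real.rpow_add (by norm_num)]
            congr 1
            ring
          have h14 : (4 : ℝ) ≤ (2 : ℝ) ^ (ε * lam) := by
            calc (4 : ℝ) = (2 : ℝ) ^ (2 : ℝ) := by
                  rw [show (2 : ℝ) = ((2 : ℕ) : ℝ) by norm_num, Real.rpow_natCast]
                  norm_num
              _ ≤ _ := Real.rpow_le_rpow_of_exponent_le (by norm_num) hlam
          have h15 : (1 : ℝ) ≤ (2 : ℝ) ^ (lam + 2 * (ε * lam)) := by
            refine Real.one_le_rpow (by norm_num) ?_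
            have h16 : 0 ≤ lam := by
              rcases hε.lt_or_eq with h | h
              · by_contra h17
                have : ε * lam < 0 := mul_neg_of_pos_of_neg h (not_le.1 h17)
                linarith
              · rw [← h] at hlam
                linarith
            linarith
          rw [h13]
          nlinarith
      _ = _ := by rw [hN]; ring
  exact le_of_mul_le_mul_right hD (by positivity)

/-- numbers -/
theorem sav_small (k n m : ℕ) (c : ℝ) (hk : 2 ^ 104 ≤ k) (hn : 1 ≤ n) (hc0 : 0 ≤ c)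
    (hm : (m : ℝ) ≤ (2 : ℝ) ^ ((1 + c) * k) * n) : sav n k m ≤ 1 / 2 ^ 50 + c := by
  have hk1 : (2 : ℝ) ^ 104 ≤ k := by exact_mod_cast hk
  have hk0 : (0 : ℝ) < k := lt_of_lt_of_le (by positivity) hk1
  have hn0 : (0 : ℝ) < n := by exact_mod_cast hn
  have h1 : (m : ℝ) / (2 ^ k * n) ≤ (2 : ℝ) ^ (c * k) := by
    rw [div_le_iff₀ (by positivity)]
    have h2 : (2 : ℝ) ^ ((1 + c) * k) = (2 : ℝ) ^ (c * k) * 2 ^ k := by
      rw [← Real.rpow_natCast, ← Real.rpow_add (by norm_num)]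
      congr 1
      ring
    rw [h2] at hm
    linarith
  have h3 : (1 : ℝ) ≤ (2 : ℝ) ^ (c * k) := Real.one_le_rpow (by norm_num) (by positivity)
  have h4 : (0 : ℝ) ≤ m / (2 ^ k * n) := by positivity
  have h5 : k * (1 + m / (2 ^ k * n)) ≤ (2 * k) * (2 : ℝ) ^ (c * k) := by nlinarith
  have h6 : Real.log (k * (1 + m / (2 ^ k * n))) ≤ Real.log (2 * k) + c * k := by
    have h7 := Real.log_le_log (by positivity) h5
    have h10 : Real.log ((2 * k) * (2 : ℝ) ^ (c * k)) = Real.log (2 * k) + c * k * Real.log 2 := by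
      rw [Real.log_mul (by positivity) (by positivity), Real.log_rpow (by norm_num)]
    rw [h10] at h7
    have h8 := Real.log_two_lt_d9
    have h9 : 0 ≤ c * k := by positivity
    nlinarith
  have h7 : Real.log (2 * k) ≤ 2 * Real.sqrt (2 * k) := by
    have h8 : Real.log (Real.sqrt (2 * k)) ≤ Real.sqrt (2 * k) :=
      (Real.log_le_sub_one_of_pos (by positivity)).trans (by linarith)
    rw [Real.log_sqrt (by positivity)] at h8
    linarith
  have h8 : 2 * Real.sqrt (2 * k) ≤ k / 2 ^ 50 := by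
    have h9 : Real.sqrt (2 * k) ≤ k / 2 ^ 51 := by
      rw [Real.sqrt_le_left (by positivity)]
      nlinarith
    linarith
  unfold sav
  rw [div_le_iff₀ hk0]
  linarith

theorem lam_large (k n m K : ℕ) (hk : 3 ≤ k) (hn : K * k ≤ n) :
    (K : ℝ) ≤ sav n k m * n ∧ (n : ℝ) / k ≤ sav n k m * n := by
  have hk3 : (3 : ℝ) ≤ k := by exact_mod_cast hk
  have hk0 : (0 : ℝ) < k := by linarith
  have h1 : (1 : ℝ) ≤ Real.log (k * (1 + m / (2 ^ k * n))) := by
    rw [Real.le_log_iff_exp_le (by positivity)]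
    have h2 : (0 : ℝ) ≤ m / (2 ^ k * n) := by positivity
    have h3 := Real.exp_one_lt_d9
    nlinarith
  have h2 : (n : ℝ) / k ≤ sav n k m * n := by
    unfold sav
    rw [div_mul_eq_mul_div, div_le_div_iff_of_pos_right hk0]
    nlinarith [Nat.cast_nonneg (α := ℝ) n]
  refine ⟨le_trans ?_ h2, h2⟩
  rw [le_div_iff₀ hk0]
  exact_mod_cast hn

theorem pf_XFI : T_XFI := by
  intro hEX hSU hLG hNP hGO hD hB hNL ε hε
  obtain ⟨e, he⟩ : ∃ e : ℝ, e = min ε 1 / 3 := ⟨_, rfl⟩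
  have he0 : 0 < e := by
    rw [he]
    have : 0 < min ε 1 := lt_min hε one_pos
    linarith
  have he1 : e ≤ 1 := by
    rw [he]
    have := min_le_right ε 1
    linarith
  have he3 : 3 * e ≤ ε := by
    rw [he]
    have := min_le_left ε 1
    linarith
  obtain ⟨c₁, K₁, Q, hc₁, hQ, h1⟩ := hNP e he0 he1
  obtain ⟨c₂, K₂, hc₂, h2⟩ := hGO e he0
  obtain ⟨c₃, K₃, hc₃, h3⟩ := hNL (min ε 1) (lt_min hε one_pos) (min_le_right _ _)
  obtain ⟨c, hc⟩ : ∃ c : ℝ, c = min (min c₁ c₂) (min c₃ (1 / 2 ^ 50)) := ⟨_, rfl⟩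
  have hc0 : 0 < c := by
    rw [hc]
    exact lt_min (lt_min hc₁ hc₂) (lt_min hc₃ (by positivity))
  have hcc1 : c ≤ c₁ := by
    rw [hc]
    exact (min_le_left _ _).trans (min_le_left _ _)
  have hcc2 : c ≤ c₂ := by
    rw [hc]
    exact (min_le_left _ _).trans (min_le_right _ _)
  have hcc3 : c ≤ c₃ := by
    rw [hc]
    exact (min_le_right _ _).trans (min_le_left _ _)
  have hcc4 : c ≤ 1 / 2 ^ 50 := by
    rw [hc]
    exact (min_le_right _ _).trans (min_le_right _ _)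
  obtain ⟨K, hK⟩ : ∃ K : ℕ, K = K₁ + K₂ + K₃ + 2 ^ 104 + ⌈2 / e⌉₊ := ⟨_, rfl⟩
  refine ⟨c, K, hc0, ?_⟩
  intro k n m hk hn hm1 hm2
  have hK1 : 1 ≤ K := by omega
  have hk104 : 2 ^ 104 ≤ k := by omega
  have hkn : k ≤ n := by
    have : 1 * k ≤ K * k := Nat.mul_le_mul_right _ hK1
    omega
  have hk2 : 2 ≤ k := by omega
  have hn1 : 1 ≤ n := by omega
  have hk1' : (1 : ℝ) ≤ k := by exact_mod_cast (by omega : 1 ≤ k)
  have hn0 : (0 : ℝ) < n := by exact_mod_cast hn1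
  have hmono : ∀ c' : ℝ, c ≤ c' → (2 : ℝ) ^ k * n ≤ (k : ℝ) ^ c' * m := by
    intro c' hc'
    refine hm1.trans ?_
    exact mul_le_mul_of_nonneg_right (Real.rpow_le_rpow_of_exponent_le hk1' hc')
      (Nat.cast_nonneg _)
  have hmono2 : ∀ c' : ℝ, c ≤ c' → (m : ℝ) ≤ (2 : ℝ) ^ ((1 + c') * k) * n := by
    intro c' hc'
    refine hm2.trans ?_
    have : (2 : ℝ) ^ ((1 + c) * k) ≤ (2 : ℝ) ^ ((1 + c') * k) := by
      refine Real.rpow_le_rpow_of_exponent_le (by norm_num) ?_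
      nlinarith
    exact mul_le_mul_of_nonneg_right this hn0.le
  obtain ⟨hl1, hl2⟩ := lam_large k n m K (by omega) hn
  have hsv := sav_small k n m c hk104 hn1 hc0.le hm2
  have hKe : 2 / e ≤ K := by
    have h4 : 2 / e ≤ ⌈2 / e⌉₊ := Nat.le_ceil _
    have h5 : (⌈2 / e⌉₊ : ℝ) ≤ K := by exact_mod_cast (by omega : ⌈2 / e⌉₊ ≤ K)
    linarith
  constructor
  · obtain ⟨t, t₁, d, u, u₁, b₀, q1, q2, q3, q4, q5, q6, q7, q8, q9, q10, q11⟩ :=
      h1 k n m (by omega) ((Nat.mul_le_mul_right _ (by omega)).trans hn) (hmono2 c₁ hcc1)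
    obtain ⟨t₀, ht₀⟩ : ∃ t₀, t₀ = ⌈2 ^ 20 * sav n k m * n⌉₊ := ⟨_, rfl⟩
    have hK0 : (2 : ℝ) ^ 104 ≤ K := by exact_mod_cast (by omega : 2 ^ 104 ≤ K)
    have hlam1 : (1 : ℝ) ≤ sav n k m * n := by
      have : (1 : ℝ) ≤ 2 ^ 104 := by norm_num
      linarith
    have ht1 : 2 ^ 20 * sav n k m * n ≤ t₀ := by
      rw [ht₀]
      exact Nat.le_ceil _
    have ht1' : 2 ^ 20 * (sav n k m * n) ≤ t₀ := by
      rw [← mul_assoc]
      exact ht1
    have ht2 : (t₀ : ℝ) ≤ 2 ^ 20 * sav n k m * n + 1 := by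
      rw [ht₀]
      refine (Nat.ceil_lt_add_one ?_).le
      rw [mul_assoc]
      linarith
    have ht2' : (t₀ : ℝ) ≤ 2 ^ 20 * (sav n k m * n) + 1 := by
      rw [← mul_assoc]
      exact ht2
    have ht3 : 1 ≤ t₀ := by
      have : (0 : ℝ) < t₀ := by linarith
      exact_mod_cast this
    have hn104 : (2 : ℝ) ^ 104 ≤ n := by
      exact_mod_cast hk104.trans hkn
    have hlamn : sav n k m * n ≤ (1 / 2 ^ 49) * n := by
      refine mul_le_mul_of_nonneg_right ?_ hn0.le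
      have : (1 : ℝ) / 2 ^ 49 = 1 / 2 ^ 50 + 1 / 2 ^ 50 := by norm_num
      linarith
    have ht4 : 2 ^ 22 * t₀ ≤ n := by
      have : (2 : ℝ) ^ 22 * t₀ ≤ n := by nlinarith
      exact_mod_cast this
    obtain ⟨G, hG, hGF⟩ := h2 k n m (by omega) ((Nat.mul_le_mul_right _ (by omega)).trans hn)
      (hmono c₂ hcc2) (hmono2 c₂ hcc2) t₀ t t₁ d u u₁ ht1 ht2 ht4 q6 q5 q10
    refine ⟨G, hG, ?_⟩
    intro F hF a s ha hs
    obtain ⟨g1, g2, g3⟩ := hGF F hF
    have hle : (2 : ℝ) ^ ((1 + 3 * e) * (sav n k m * n)) ≤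
        (2 : ℝ) ^ ((1 + ε) * sav n k m * n) := by
      refine Real.rpow_le_rpow_of_exponent_le (by norm_num) ?_
      rw [mul_assoc (1 + ε)]
      refine mul_le_mul_of_nonneg_right (by linarith) (by linarith)
    have ha1 : a ≤ 2 * t := by
      refine ha.trans (Nat.div_le_of_le_mul ?_)
      rw [mul_comm]
      exact q3
    have ha2 : a ≤ 2 * t₀ := by
      have h8 : (a : ℝ) ≤ ((n / k : ℕ) : ℝ) := by exact_mod_cast ha
      have h5 : (a : ℝ) ≤ n / k := h8.trans Nat.cast_div_le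
      have h6 : (a : ℝ) ≤ t₀ := by linarith
      have h7 : a ≤ t₀ := by exact_mod_cast h6
      omega
    have hs' : (s : ℝ) ≤ (2 : ℝ) ^ (c * (sav n k m * n)) := by
      rw [← mul_assoc]
      exact hs
    have hs12 : s ^ 12 ≤ 2 ^ (7 * ((2 ^ 22 + 4) * t₀)) := by
      have h5 : (s : ℝ) ^ 12 ≤ (2 : ℝ) ^ (7 * ((2 ^ 22 + 4) * t₀)) := by
        calc (s : ℝ) ^ 12 ≤ ((2 : ℝ) ^ (c * (sav n k m * n))) ^ 12 := by gcongr
          _ = (2 : ℝ) ^ (c * (sav n k m * n) * 12) := by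
              rw [← Real.rpow_natCast, ← Real.rpow_mul (by norm_num)]
              norm_num
          _ ≤ (2 : ℝ) ^ ((7 * ((2 ^ 22 + 4) * t₀) : ℕ) : ℝ) := by
              refine Real.rpow_le_rpow_of_exponent_le (by norm_num) ?_
              push_cast
              have h6 : c ≤ 1 := by
                have : (1 : ℝ) / 2 ^ 50 ≤ 1 := by norm_num
                linarith
              nlinarith
          _ = _ := by rw [Real.rpow_natCast]
      exact_mod_cast h5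
    have hQ4 : (0 : ℝ) ≤ 1 - 1 / (4 * (Q : ℝ)) := by
      have hQ1 : (1 : ℝ) ≤ Q := by exact_mod_cast hQ
      have : 1 / (4 * (Q : ℝ)) ≤ 1 := by
        rw [div_le_one (by linarith)]
        linarith
      linarith
    refine le_trans (xfi_upper hEX hSU hLG n k m F t t₁ d u u₁ b₀ Q a s t₀ e (sav n k m * n)
      (guess n k m) q1 q2 q4 (q4.trans q5) hQ q7 q8 ha1 ?_ ?_ ht3 ht4 ha2 hs12
      (guess_pos n k m).le (guess_le n k m) ?_ g2 g3 he0.le ?_) ?_
    · refine lt_of_le_of_lt ?_ q11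
      have h5 : (s : ℝ) ≤ (2 : ℝ) ^ (c₁ * sav n k m * n) := by
        refine hs'.trans (Real.rpow_le_rpow_of_exponent_le (by norm_num) ?_)
        rw [mul_assoc c₁]
        exact mul_le_mul_of_nonneg_right hcc1 (by linarith)
      gcongr
    · rw [← mul_assoc]
      exact q9
    · have h5 := g1
      rw [mul_assoc e] at h5
      exact h5
    · have h5 : 2 / e ≤ sav n k m * n := hKe.trans hl1
      rw [div_le_iff₀ he0] at h5
      linarith
    · exact mul_le_mul_of_nonneg_right hle (guess_pos n k m).le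
  · obtain ⟨h, u, huh, hhn, hbig, hnum⟩ := h3 k n m (by omega)
      ((Nat.mul_le_mul_right _ (by omega)).trans hn) (hmono c₃ hcc3) (hmono2 c₃ hcc3)
    refine lower_core hD hB n k m h u (by omega) hkn huh hhn
      ((2 : ℝ) ^ ((1 - ε) * sav n k m * n)) (by positivity) (le_trans ?_ hbig) hnum
    have h5 : (2 : ℝ) ^ ((1 - ε) * sav n k m * n) ≤
        (2 : ℝ) ^ ((1 - min ε 1) * sav n k m * n) := by
      refine Real.rpow_le_rpow_of_exponent_le (by norm_num) ?_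
      rw [mul_assoc, mul_assoc]
      refine mul_le_mul_of_nonneg_right ?_ ?_
      · have := min_le_left ε 1
        linarith
      · have : (0 : ℝ) ≤ K := Nat.cast_nonneg _
        linarith
    gcongr

end Pool.Agent.H47.SR
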