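import Pool.Agent.H47.SQ.XFI

/-!
# Row XNP (board ppz_modules)
-/

set_option autoImplicit false

open Finset Pool.Agent.H97.RK Pool.Agent.H41.SS Pool.Agent.H47.SR

namespace Pool.Agent.H47.SQ.XNP

/-- `lam` is large compared with `n / k` -/
theorem lam_ge (k n m K : ℕ) (A : ℝ) (hA : Real.exp A ≤ K) (hk : K ≤ k) (hk1 : 1 ≤ k) :
    A * ((n : ℝ) / k) ≤ sav n k m * n := by
  have hk0 : (0 : ℝ) < k := by exact_mod_cast hk1
  have h1 : A ≤ Real.log (k * (1 + m / (2 ^ k * n))) := by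
    rw [Real.le_log_iff_exp_le (by positivity)]
    have h2 : (0 : ℝ) ≤ m / (2 ^ k * n) := by positivity
    have h3 : (K : ℝ) ≤ k := by exact_mod_cast hk
    nlinarith
  unfold sav
  rw [← mul_div_assoc, div_mul_eq_mul_div, div_le_div_iff_of_pos_right hk0]
  exact mul_le_mul_of_nonneg_right h1 (Nat.cast_nonneg _)

/-- the last inequality -/
theorem last (e c lam x : ℝ) (G Q t r : ℕ) (he : 0 < e) (hQ : 1 ≤ Q) (hc0 : 0 ≤ c)
    (hc : c * (32 * Q) ≤ e) (hlam : 0 < lam) (ht : (t : ℝ) ≤ G * x + 1) (hx : 1 ≤ x)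
    (hG : 1 ≤ G) (hL : 256 * G * Q * x ≤ e * lam) (hr : e * lam ≤ r) :
    2 * ((2 : ℝ) ^ (c * lam) * ((2 : ℝ) ^ (4 * t) * (1 - 1 / (4 * (Q : ℝ))) ^ r)) < 1 := by
  have hQ0 : (1 : ℝ) ≤ Q := by exact_mod_cast hQ
  have hG0 : (1 : ℝ) ≤ G := by exact_mod_cast hG
  have l2 := Real.log_two_lt_d9
  have l0 : 0 < Real.log 2 := Real.log_pos (by norm_num)
  have e2 : (2 : ℝ) ≤ Real.exp 1 := by
    have := Real.add_one_le_exp (1 : ℝ)
    linarith
  have h1 : (2 : ℝ) ^ (c * lam) ≤ Real.exp (c * lam) := by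
    rw [Real.rpow_def_of_pos (by norm_num)]
    apply Real.exp_le_exp.2
    have : 0 ≤ c * lam := by positivity
    nlinarith
  have h2 : (2 : ℝ) ^ (4 * t) ≤ Real.exp (4 * t) := by
    have h3 : Real.exp (4 * t) = Real.exp 1 ^ (4 * t) := by
      rw [← Real.exp_nat_mul]
      congr 1
      push_cast
      ring
    rw [h3]
    exact pow_le_pow_left₀ (by norm_num) e2 _
  have h3 : (0 : ℝ) ≤ 1 - 1 / (4 * (Q : ℝ)) := by
    have : 1 / (4 * (Q : ℝ)) ≤ 1 := by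
      rw [div_le_one (by positivity)]
      linarith
    linarith
  have h4 : (1 - 1 / (4 * (Q : ℝ))) ^ r ≤ Real.exp (-(r / (4 * Q))) := by
    have h5 : 1 - 1 / (4 * (Q : ℝ)) ≤ Real.exp (-(1 / (4 * (Q : ℝ)))) := by
      have := Real.add_one_le_exp (-(1 / (4 * (Q : ℝ))))
      linarith
    calc (1 - 1 / (4 * (Q : ℝ))) ^ r ≤ Real.exp (-(1 / (4 * (Q : ℝ)))) ^ r :=
          pow_le_pow_left₀ h3 h5 _
      _ = _ := by
          rw [← Real.exp_nat_mul]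
          congr 1
          ring
  have h6 : 2 * ((2 : ℝ) ^ (c * lam) * ((2 : ℝ) ^ (4 * t) * (1 - 1 / (4 * (Q : ℝ))) ^ r)) ≤
      Real.exp 1 * (Real.exp (c * lam) * (Real.exp (4 * t) * Real.exp (-(r / (4 * Q))))) := by
    have h7 : (0 : ℝ) ≤ (1 - 1 / (4 * (Q : ℝ))) ^ r := pow_nonneg h3 _
    gcongr
  refine lt_of_le_of_lt h6 ?_
  rw [← Real.exp_add, ← Real.exp_add, ← Real.exp_add]
  refine lt_of_lt_of_eq (Real.exp_lt_exp.2 (?_ : _ < (0 : ℝ))) Real.exp_zero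
  have h8 : (r : ℝ) / (4 * Q) ≥ e * lam / (4 * Q) := by gcongr
  have h9 : c * lam ≤ e * lam / (32 * Q) := by
    rw [le_div_iff₀ (by positivity)]
    nlinarith
  have h10 : 8 * (G * x) ≤ e * lam / (32 * Q) := by
    rw [le_div_iff₀ (by positivity)]
    linarith
  have h11 : e * lam / (4 * Q) = 8 * (e * lam / (32 * Q)) := by
    field_simp
    ring
  have h12 : 1 ≤ G * x := by nlinarith
  rw [h11] at h8
  have h13 : 0 < e * lam / (32 * Q) := by positivity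
  linarith

theorem pf_XNP (hXNB : T_XNB) (hXNE : T_XNE) : T_XNP := by
  intro ε hε hε1
  obtain ⟨e, he⟩ : ∃ e : ℝ, e = ε / 8 := ⟨_, rfl⟩
  have he0 : 0 < e := by rw [he]; linarith
  have he1 : 8 * e ≤ 1 := by rw [he]; linarith
  obtain ⟨G, hG⟩ : ∃ G : ℕ, G = ⌈2 ^ 46 / e⌉₊ := ⟨_, rfl⟩
  obtain ⟨Q, hQ⟩ : ∃ Q : ℕ, Q = ⌈8 / e⌉₊ := ⟨_, rfl⟩
  have hG1 : 2 ^ 46 ≤ e * G := by
    have h : (2 : ℝ) ^ 46 / e ≤ G := by rw [hG]; exact Nat.le_ceil _
    rw [div_le_iff₀ he0] at h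
    linarith
  have hQ1 : 8 ≤ e * Q := by
    have h : (8 : ℝ) / e ≤ Q := by rw [hQ]; exact Nat.le_ceil _
    rw [div_le_iff₀ he0] at h
    linarith
  have hG2 : (1 : ℝ) ≤ G := by
    have h : e * G ≤ 1 * G := mul_le_mul_of_nonneg_right (by linarith) (Nat.cast_nonneg _)
    linarith only [h, hG1]
  have hQ2 : (64 : ℝ) ≤ Q := by
    have h : (8 * e) * Q ≤ 1 * Q := mul_le_mul_of_nonneg_right he1 (Nat.cast_nonneg _)
    linarith only [h, hQ1]
  have hG3 : 1 ≤ G := by exact_mod_cast hG2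
  have hQ3 : 1 ≤ Q := by
    have : (1 : ℝ) ≤ Q := by linarith
    exact_mod_cast this
  obtain ⟨c₁, K₁, hc₁, h1⟩ := hXNB e G (2 ^ 47) he0 (by linarith) hG1
  obtain ⟨c₂, K₂, hc₂, h2⟩ := hXNE G (2 ^ 46) (le_refl _)
  obtain ⟨c, hc⟩ : ∃ c : ℝ, c = min (min c₁ c₂) (min (e / (32 * Q)) (1 / 2 ^ 50)) := ⟨_, rfl⟩
  have hc0 : 0 < c := by
    rw [hc]
    exact lt_min (lt_min hc₁ hc₂) (lt_min (by positivity) (by positivity))
  have hcc1 : c ≤ c₁ := by
    rw [hc]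
    exact (min_le_left _ _).trans (min_le_left _ _)
  have hcc2 : c ≤ c₂ := by
    rw [hc]
    exact (min_le_left _ _).trans (min_le_right _ _)
  have hcc3 : c ≤ e / (32 * Q) := by
    rw [hc]
    exact (min_le_right _ _).trans (min_le_left _ _)
  have hcc4 : c ≤ 1 / 2 ^ 50 := by
    rw [hc]
    exact (min_le_right _ _).trans (min_le_right _ _)
  obtain ⟨A, hA⟩ : ∃ A : ℝ, A = 256 * G * Q / e := ⟨_, rfl⟩
  obtain ⟨K, hK⟩ : ∃ K : ℕ, K = max (max K₁ K₂) (max (2 ^ 104) ⌈Real.exp A⌉₊) := ⟨_, rfl⟩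
  have hK1 : K₁ ≤ K := by
    rw [hK]
    exact (le_max_left _ _).trans (le_max_left _ _)
  have hK2 : K₂ ≤ K := by
    rw [hK]
    exact (le_max_right _ _).trans (le_max_left _ _)
  have hK3 : 2 ^ 104 ≤ K := by
    rw [hK]
    exact (le_max_left _ _).trans (le_max_right _ _)
  have hK4 : Real.exp A ≤ K := by
    have h : ⌈Real.exp A⌉₊ ≤ K := by
      rw [hK]
      exact (le_max_right _ _).trans (le_max_right _ _)
    exact (Nat.le_ceil _).trans (by exact_mod_cast h)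
  refine ⟨c, K, Q, hc0, hQ3, fun k n m hk hn hm => ?_⟩
  have hk104 : 2 ^ 104 ≤ k := hK3.trans hk
  have hk1 : 1 ≤ k := le_trans (by norm_num) hk104
  have hk0 : (0 : ℝ) < k := by exact_mod_cast hk1
  have hn1 : 1 ≤ n := by
    have : 1 ≤ K * k := Nat.mul_pos (lt_of_lt_of_le (by norm_num) hK3) hk1
    omega
  have hn0 : (0 : ℝ) < n := by exact_mod_cast hn1
  obtain ⟨x, hx⟩ : ∃ x : ℝ, x = (n : ℝ) / k := ⟨_, rfl⟩
  obtain ⟨lam, hlam⟩ : ∃ lam : ℝ, lam = sav n k m * n := ⟨_, rfl⟩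
  have hx1 : 1 ≤ x := by
    rw [hx, le_div_iff₀ hk0, one_mul]
    have : k ≤ n := le_trans (Nat.le_mul_of_pos_left k (lt_of_lt_of_le (by norm_num) hK3)) hn
    exact_mod_cast this
  have hLx : A * x ≤ lam := by
    rw [hx, hlam]
    exact lam_ge k n m K A hK4 hk hk1
  have hL : 256 * G * Q * x ≤ e * lam := by
    have h : A * x = 256 * G * Q * x / e := by rw [hA]; ring
    rw [h, div_le_iff₀ he0] at hLx
    linarith
  have hxG : x ≤ G * x := le_mul_of_one_le_left (by linarith only [hx1]) hG2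
  have hGx : 1 ≤ G * x := hx1.trans hxG
  have hL2 : 256 * 64 * (G * x) ≤ e * lam := by
    have h : 64 * (G * x) ≤ Q * (G * x) := mul_le_mul_of_nonneg_right hQ2 (by positivity)
    linarith only [h, hL]
  have hlam0 : 0 < lam := by
    have h : 0 < e * lam := by linarith
    exact (mul_pos_iff_of_pos_left he0).1 h
  have helam : 8 * (e * lam) ≤ lam := by
    have h := mul_le_mul_of_nonneg_right he1 hlam0.le
    linarith only [h]
  have hsav : sav n k m ≤ 1 / 2 ^ 50 + c := sav_small k n m c hk104 hn1 hc0.le hm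
  have hlamn : 2 ^ 49 * lam ≤ n := by
    have h : lam ≤ (1 / 2 ^ 50 + 1 / 2 ^ 50) * n := by
      rw [hlam]
      exact mul_le_mul_of_nonneg_right (by linarith) hn0.le
    linarith
  obtain ⟨t, ht⟩ : ∃ t : ℕ, t = ⌈G * x⌉₊ := ⟨_, rfl⟩
  obtain ⟨t₁, ht₁⟩ : ∃ t₁ : ℕ, t₁ = ⌈x⌉₊ := ⟨_, rfl⟩
  obtain ⟨d, hd⟩ : ∃ d : ℕ, d = ⌈(1 + e) * lam⌉₊ := ⟨_, rfl⟩
  obtain ⟨b, hb⟩ : ∃ b : ℕ, b = ⌈e * lam⌉₊ := ⟨_, rfl⟩
  obtain ⟨u₁, hu₁⟩ : ∃ u₁ : ℕ, u₁ = ⌈2 ^ 46 * lam⌉₊ := ⟨_, rfl⟩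
  have hta : G * x ≤ t := by rw [ht]; exact Nat.le_ceil _
  have htb : (t : ℝ) ≤ G * x + 1 := by rw [ht]; exact (Nat.ceil_lt_add_one (by positivity)).le
  have ht1a : x ≤ t₁ := by rw [ht₁]; exact Nat.le_ceil _
  have ht1b : (t₁ : ℝ) ≤ x + 1 := by rw [ht₁]; exact (Nat.ceil_lt_add_one (by positivity)).le
  have hda : (1 + e) * lam ≤ d := by rw [hd]; exact Nat.le_ceil _
  have hdb : (d : ℝ) ≤ (1 + e) * lam + 1 := by
    rw [hd]; exact (Nat.ceil_lt_add_one (by positivity)).le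
  have hba : e * lam ≤ b := by rw [hb]; exact Nat.le_ceil _
  have hbb : (b : ℝ) ≤ e * lam + 1 := by rw [hb]; exact (Nat.ceil_lt_add_one (by positivity)).le
  have hua : 2 ^ 46 * lam ≤ u₁ := by rw [hu₁]; exact Nat.le_ceil _
  have hub : (u₁ : ℝ) ≤ 2 ^ 46 * lam + 1 := by
    rw [hu₁]; exact (Nat.ceil_lt_add_one (by positivity)).le
  have hu1n : u₁ ≤ n := by
    rw [hu₁]
    apply Nat.ceil_le.2
    linarith
  obtain ⟨u, hu⟩ : ∃ u : ℕ, u = b + 12 * t + d + b := ⟨_, rfl⟩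
  have hur : (u : ℝ) = b + 12 * t + d + b := by rw [hu]; push_cast; ring
  have hu3 : (u : ℝ) ≤ (1 + 4 * e) * lam := by
    rw [hur]
    linarith
  have hu4 : (u : ℝ) + 4 * t ≤ (1 + ε) * lam := by
    have : ε = 8 * e := by rw [he]; ring
    rw [this]
    linarith
  have huu : u ≤ u₁ := by
    have : (u : ℝ) ≤ u₁ := by linarith
    exact_mod_cast this
  have ht1t : t₁ ≤ t := by
    rw [ht₁, ht]
    exact Nat.ceil_le_ceil hxG
  have ht1 : 1 ≤ t₁ := by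
    have : (1 : ℝ) ≤ t₁ := hx1.trans ht1a
    exact_mod_cast this
  have hxk : x * k = n := by
    rw [hx]
    field_simp
  have hntk : n ≤ 2 * t * k := by
    have h : (n : ℝ) ≤ 2 * t * k := by
      have h5 : x ≤ t := hxG.trans hta
      have h6 : x * k ≤ t * k := mul_le_mul_of_nonneg_right h5 hk0.le
      have h7 : (0 : ℝ) ≤ t * k := by positivity
      linarith
    exact_mod_cast h
  have hdn : d ≤ n := by
    have h : (d : ℝ) ≤ n := by linarith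
    exact_mod_cast h
  have hmono : ∀ c', c ≤ c' → (m : ℝ) ≤ (2 : ℝ) ^ ((1 + c') * k) * n := by
    intro c' hc'
    refine hm.trans (mul_le_mul_of_nonneg_right ?_ hn0.le)
    apply Real.rpow_le_rpow_of_exponent_le (by norm_num)
    exact mul_le_mul_of_nonneg_right (by linarith) hk0.le
  have hnn : ∀ K', K' ≤ K → K' * k ≤ n := fun K' h => (Nat.mul_le_mul_right k h).trans hn
  refine ⟨t, t₁, d, u, u₁, b, ht1, ht1t, hntk, huu, hu1n, hdn, by omega, ?_, ?_, ?_, ?_⟩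
  · have h : (2 * u : ℝ) ≤ Q * b := by
      have h5 : (Q : ℝ) * (e * lam) ≤ Q * b := mul_le_mul_of_nonneg_left hba (by positivity)
      have h6 : 8 * lam ≤ Q * (e * lam) := by
        have : 8 * lam ≤ (e * Q) * lam := mul_le_mul_of_nonneg_right hQ1 hlam0.le
        linarith
      linarith
    exact_mod_cast h
  · rw [mul_assoc, ← hlam]
    exact hu4
  · have h5 := h1 k n m t t₁ d u u₁ (hK1.trans hk) (hnn K₁ hK1) (hmono c₁ hcc1)
      (by rw [← hx]; exact htb) (by rw [← hx]; exact hta) (by rw [← hx]; exact ht1b)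
      (by rw [mul_assoc, ← hlam]; exact hda) hdn (by rw [← hlam]; linarith)
      (by rw [← hlam]; push_cast; linarith) hu1n
    have h6 := h2 k n m t t₁ u₁ (hK2.trans hk) (hnn K₂ hK2) (hmono c₂ hcc2)
      (ht1.trans ht1t) (by rw [← hx]; exact htb) (by rw [← hx]; exact ht1a)
      (by rw [← hlam]; push_cast; linarith only [hua]) hu1n
    have h7 : pT n k m t t₁ d u u₁ ≤ 2 * (2 : ℝ) ^ (-(2 ^ 45 * sav n k m * n)) := by
      unfold pT
      linarith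
    refine h7.trans ?_
    have h8 : (2 : ℝ) * (2 : ℝ) ^ (-(2 ^ 45 * sav n k m * n)) =
        (2 : ℝ) ^ (1 + -(2 ^ 45 * sav n k m * n)) := by
      rw [Real.rpow_add (by norm_num), Real.rpow_one]
    rw [h8]
    apply Real.rpow_le_rpow_of_exponent_le (by norm_num)
    rw [mul_assoc, mul_assoc, ← hlam]
    linarith only [helam, hL2, hGx]
  · have h5 : u - (b + d + 6 * t) = 6 * t + b := by omega
    rw [h5, mul_assoc c, ← hlam]
    refine last e c lam x G Q t (6 * t + b) he0 hQ3 hc0.le ?_ hlam0 htb hx1 hG3 hL ?_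
    · rw [le_div_iff₀ (by positivity)] at hcc3
      exact hcc3
    · push_cast
      have : (0 : ℝ) ≤ t := Nat.cast_nonneg _
      linarith

end Pool.Agent.H47.SQ.XNP
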