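import Pool.Agent.H47.SQ.Defs
import Pool.Agent.H47.PL.Targets2
import Pool.Agent.H41.SS.Targets

/-!
The savings of backtracking search on random k-CNFs (MP_c62aed_lc): auxiliary definitions and
targets.
-/

set_option autoImplicit false

namespace Pool.Agent.H47.SR

open Finset Pool.Agent.H97.RK Pool.Agent.H41.SS
open Pool.Agent.H47.PL (Sat Agr Con dm nsol Os)
open Pool.Agent.H47.SQ (Derivation Refuted Find success sav guess AlmostAll)

/-! ### Definitions -/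

section

variable {n k m : ℕ}

/-- the state of a solution: `A` is the set of the known variables, `W` the set of the reserved
variables, `J` the set of the reserved clauses -/
structure St2 (F : Fml n k m) (D : ℕ) (y : Fin n → Bool) (A W : Finset (Fin n))
    (J : Finset (Fin m)) : Prop where
  mem : ∀ c ∈ J, ∀ i, (F c i).1 ∈ A ∪ W
  fls : ∀ c ∈ J, Al F y (A \ W) c
  sat : ∀ c ∈ J, Sa F y (A ∪ W) c
  inv : ∀ S : Finset (Fin m), S.card ≤ D → (∀ c ∈ S, c ∉ J ∧ Al F y A c) →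
    2 * S.card ≤ (VS F S \ (A ∪ W)).card
  lt : J.card < D
  crd : W.card ≤ 2 * J.card

open Classical in
/-- the number of the assignments in `C` which extend `L` -/
noncomputable def nC (C : Finset (Fin n → Bool)) (L : Finset (Fin n × Bool)) : ℕ :=
  (C.filter fun τ => Agr τ L).card

/-- the interface between the adversary and the search, for the solutions in `C`: `Res L W`: at the
partial assignment `L` the variables in `W` are reserved -/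
structure Rs (C : Finset (Fin n → Bool)) (D e : ℕ) (Ex : Finset (Fin n × Bool) → Prop)
    (Res : Finset (Fin n × Bool) → Finset (Fin n) → Prop) : Prop where
  init : ∃ W, Res ∅ W
  card : ∀ L W, Res L W → W.card ≤ e
  step : ∀ L W v b τ, Res L W → L.card < D → v ∉ dm L → τ ∈ C → Agr τ (insert (v, b) L) →
    ∃ W', W ⊆ W' ∧ Res (insert (v, b) L) W'
  free : ∀ L W v b τ, Res L W → L.card < D → v ∉ dm L → v ∉ W → τ ∈ C →
    Agr τ (insert (v, b) L) → ¬ Ex (insert (v, !b) L)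

open Classical in
/-- the good solutions at the scale `t` -/
noncomputable def gds (F : Fml n k m) (t : ℕ) : Finset (Fin n → Bool) :=
  univ.filter fun τ => Sat F τ ∧
    ∀ z, dst z τ ≤ 2 ^ 15 * t + 4 * t + 1 → Gd F t (128 * t) (12 * t) z

open Classical in
/-- the number of the bad solutions at the scale `t` -/
noncomputable def bad (F : Fml n k m) (t : ℕ) : ℕ :=
  (univ.filter fun τ => Sat F τ ∧
    ¬ ∀ z, dst z τ ≤ 2 ^ 15 * t + 4 * t + 1 → Gd F t (128 * t) (12 * t) z).card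

/-- the search with the property `Q` of the leaves -/
def FindQ (Ex Q : Finset (Fin n × Bool) → Prop) (ω : Finset (Fin n × Bool) → Bool) :
    Pool.Agent.H47.SQ.Tree n → Finset (Fin n × Bool) → Prop
  | Pool.Agent.H47.SQ.Tree.leaf, L => Q L
  | Pool.Agent.H47.SQ.Tree.node v f, L =>
    (∃ b, (v, b) ∈ L ∧ FindQ Ex Q ω (f b b) L) ∨
    ((∀ b, (v, b) ∉ L) ∧ ∃ b, (ω L = b ∨ Ex (insert (v, !b) L)) ∧
      FindQ Ex Q ω (f (ω L) b) (insert (v, b) L))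

/-- the fraction `2 ^ (- (i + 1))` of the assignments which extend `L` is in `C` -/
def Qi (C : Finset (Fin n → Bool)) (i : ℕ) (L : Finset (Fin n × Bool)) : Prop :=
  2 ^ n ≤ 2 ^ (i + 1) * (nC C L * 2 ^ L.card)

/-- the probability that a fixed assignment is not good -/
noncomputable def prb (n k m t d w : ℕ) : ℝ :=
  (n.choose d : ℝ) * n.choose w * (2 * m).choose t * (((n : ℝ) - d + w) / (2 * n)) ^ (k * t)

/-- `v` is the last variable of a clause in which only the literal with the variable `v` is true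
under `σ` -/
def Frc (F : Fml n k m) (σ : Fin n → Bool) (v : Fin n) : Prop :=
  ∃ c i, (F c i).1 = v ∧ σ v = (F c i).2 ∧
    ∀ j, j ≠ i → (F c j).1 < v ∧ σ (F c j).1 ≠ (F c j).2

end

/-! ### The adversary -/

/-- (CLO) the closure. -/
def T_CLO : Prop :=
  ∀ (n k m : ℕ) (F : Fml n k m) (D d w : ℕ), 4 * D ≤ w →
    ∀ (y : Fin n → Bool) (A W : Finset (Fin n)) (J : Finset (Fin m)), Gd F D d w y →
    (∀ c ∈ J, ∀ i, (F c i).1 ∈ A ∪ W) → (∀ c ∈ J, Al F y (A \ W) c) → J.card < D →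
    W.card ≤ 2 * J.card → A.card + w + d ≤ n →
    ∃ (W' : Finset (Fin n)) (J' : Finset (Fin m)), W ⊆ W' ∧
      (∀ c ∈ J', ∀ i, (F c i).1 ∈ A ∪ W') ∧ (∀ c ∈ J', Al F y (A \ W') c) ∧ J'.card < D ∧
      W'.card ≤ 2 * J'.card ∧
      ∀ S : Finset (Fin m), S.card ≤ D → (∀ c ∈ S, c ∉ J' ∧ Al F y A c) →
        2 * S.card ≤ (VS F S \ (A ∪ W')).card

/-- (SOL) the states of the solutions. -/
def T_SOL : Prop :=
  ∀ (n k m : ℕ) (F : Fml n k m) (D d w : ℕ), 1 ≤ D → 4 * D ≤ w → w + d ≤ n →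
    (∀ τ, Sat F τ → Gd F D d w τ → ∃ W J, St2 F D τ ∅ W J) ∧
    (∀ (τ τ' : Fin n → Bool) (A W : Finset (Fin n)) (J : Finset (Fin m)), St2 F D τ A W J →
      Sat F τ' → (∀ u ∈ A, τ' u = τ u) → St2 F D τ' A W J) ∧
    (∀ (τ : Fin n → Bool) (A W : Finset (Fin n)) (J : Finset (Fin m)) (v : Fin n),
      St2 F D τ A W J → Sat F τ → Gd F D d w τ → (insert v A).card + w + d ≤ n →
      ∃ (W' : Finset (Fin n)) (J' : Finset (Fin m)), W ⊆ W' ∧ St2 F D τ (insert v A) W' J') ∧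
    ∀ (τ y : Fin n → Bool) (A W : Finset (Fin n)) (J : Finset (Fin m)) (v : Fin n),
      St2 F D τ A W J → v ∉ A ∪ W → (∀ u, u ≠ v → y u = τ u) → Sta F D 0 y A W J

/-- (TAR) more variables are asked. -/
def T_TAR : Prop :=
  ∀ (n k m : ℕ) (F : Fml n k m) (D d w : ℕ), 6 * D ≤ w →
    ∀ (x y : Fin n → Bool) (A B W : Finset (Fin n)) (J : Finset (Fin m)), Gd F D d w x →
    Sta F D 0 y A W J → (∀ u, u ∉ W → y u = x u) → (A ∪ B).card + w + d ≤ n →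
    ∃ (y' : Fin n → Bool) (W' : Finset (Fin n)) (J' : Finset (Fin m)),
      W ⊆ W' ∧ (∀ u ∈ A ∪ W, y' u = y u) ∧ (∀ u, u ∉ W' → y' u = x u) ∧
      Sta F D 0 y' (A ∪ B) W' J'

/-- (MLN) a line of medium strength. -/
def T_MLN : Prop :=
  ∀ (n k m : ℕ) (F : Fml n k m) (t d w : ℕ), 1 ≤ t → 2 * t ≤ w →
    ∀ (a S : ℕ) (line : ℕ → Clause n), a ≤ 2 * t → Derivation F a S line →
    ∀ (y : Fin n → Bool) (A W : Finset (Fin n)) (J : Finset (Fin m)), Sta F (2 * t) 0 y A W J →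
    (∀ z : Fin n → Bool, (∀ u ∈ A, z u = y u) → Gd F t d w z) →
    ∀ r, r < S → Falsified (line r) y → vs (line r) ⊆ A →
    ∃ i, i < S ∧ ∃ z : Fin n → Bool, (∀ u ∈ A, z u = y u) ∧ Falsified (line i) z ∧
      n ≤ (A ∪ vs (line i)).card + (d + 2 * t)

/-- (NCS) a derivation of a line which is false in a state is long. -/
def T_NCS : Prop :=
  ∀ (n k m : ℕ) (F : Fml n k m) (t d w : ℕ), 1 ≤ t → 12 * t ≤ w →
    ∀ (a S : ℕ) (line : ℕ → Clause n), a ≤ 2 * t → Derivation F a S line →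
    ∀ (y : Fin n → Bool) (A W : Finset (Fin n)) (J : Finset (Fin m)), Sta F (2 * t) 0 y A W J →
    (∀ z : Fin n → Bool, (∀ u ∈ A, z u = y u) → Gd F t d w z) →
    ∀ r, r < S → Falsified (line r) y → vs (line r) ⊆ A →
    ∃ N, n ≤ A.card + 4 * t + N ∧ N + A.card ≤ n ∧
      3 ^ N ≤ S * (2 ^ N * bl N (d + 2 * t) * bl N (4 * t)) + 2 ^ N * bl N (w + d)

/-- (RSV) the interface. -/
def T_RSV : Prop :=
  ∀ (n k m : ℕ) (F : Fml n k m) (t a s : ℕ) (C : Finset (Fin n → Bool)), 1 ≤ t →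
    2 ^ 15 * t ≤ n → a ≤ 2 * t → C ⊆ gds F t →
    (∀ N S : ℕ, S ≤ s → 2 ^ 15 * t ≤ N + 4 * t → N ≤ 2 ^ 15 * t →
      S * (2 ^ N * bl N (130 * t) * bl N (4 * t)) + 2 ^ N * bl N (140 * t) < 3 ^ N) →
    ∃ Res, Rs C (n - 2 ^ 15 * t) (4 * t) (Refuted F a s) Res

/-! ### The search -/

open Classical in
/-- (DRQ) the probability that the search finds an element of `C`. -/
def T_DRQ : Prop :=
  ∀ (n : ℕ) (C : Finset (Fin n → Bool)) (D e : ℕ) (Ex : Finset (Fin n × Bool) → Prop)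
    (Res : Finset (Fin n × Bool) → Finset (Fin n) → Prop), Rs C D e Ex Res → D ≤ n →
    ∀ (M : ℕ) (Q : Finset (Fin n × Bool) → Prop),
    (∀ L, Q L → 2 ^ n ≤ M * (nC C L * 2 ^ L.card)) → ∀ T : Pool.Agent.H47.SQ.Tree n,
    (univ.filter fun ω => FindQ Ex Q ω T ∅).card * 2 ^ D ≤
      M * (C.card * 2 ^ e) * Fintype.card (Finset (Fin n × Bool) → Bool)

/-- (PIG) success for one of the classes. -/
def T_PIG : Prop :=
  ∀ (n k m : ℕ) (F : Fml n k m) (Ex : Finset (Fin n × Bool) → Prop)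
    (ω : Finset (Fin n × Bool) → Bool) (I : ℕ) (C : ℕ → Finset (Fin n → Bool)),
    (∀ τ, Sat F τ → ∃ i, i < I ∧ τ ∈ C i) → ∀ (T : Pool.Agent.H47.SQ.Tree n)
    (L : Finset (Fin n × Bool)), Con L → Find F Ex ω T L →
    ∃ i, i < I ∧ FindQ Ex (Qi (C i) i) ω T L

/-- (MSC) all scales together. -/
def T_MSC : Prop :=
  ∀ (n k m : ℕ) (F : Fml n k m) (t₀ I : ℕ) (Nh : ℝ), 1 ≤ t₀ → 2 ^ 15 * (2 ^ I * t₀) ≤ n →
    n < 2 ^ 16 * (2 ^ I * t₀) → (nsol F : ℝ) ≤ Nh → Nh ≤ 2 ^ (2 ^ 15 * t₀ + n + 1) →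
    (∀ i, i ≤ I → (bad F (2 ^ i * t₀) : ℝ) * 2 ^ (5 * (2 ^ 15 * (2 ^ i * t₀))) ≤ Nh) →
    ∀ (a s : ℕ) (T : Pool.Agent.H47.SQ.Tree n), a ≤ t₀ → 1 ≤ s →
    success F a s T * 2 ^ n ≤ (s : ℝ) ^ 8 * 2 ^ (2 * (2 ^ 15 * t₀) + 4) * Nh

/-- (NUA) numbers. -/
def T_NUA : Prop :=
  ∀ t s N S : ℕ, 1 ≤ t → s ^ 2 ≤ 2 ^ (2 ^ 15 * t) → S ≤ s → 2 ^ 15 * t ≤ N + 4 * t →
    N ≤ 2 ^ 15 * t → S * (2 ^ N * bl N (130 * t) * bl N (4 * t)) + 2 ^ N * bl N (140 * t) < 3 ^ N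

/-! ### Random formulas -/

open Classical in
/-- (PGO) a fixed assignment is good, clauses in `Ω`. -/
def T_PGO : Prop :=
  ∀ (n k m t d w : ℕ) (Ω : Finset (Fin k → Fin n × Bool)), 1 ≤ n → k ≤ n → d + w ≤ n →
    Ω ⊆ Om n k → (Om n k).card ≤ 2 * Ω.card → ∀ x : Fin n → Bool,
    ((univ.filter fun F : Fml n k m => (∀ c, F c ∈ Ω) ∧ ¬ Gd F t d w x).card : ℝ) ≤
      prb n k m t d w * (Ω.card : ℝ) ^ m

open Classical in
/-- (EXU) the bad solutions of the uniform formulas. -/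
def T_EXU : Prop :=
  ∀ (n k m t : ℕ), 1 ≤ k → k ≤ n → 140 * t ≤ n →
    (∑ F ∈ univ.filter fun F : Fml n k m => Dist F, (bad F t : ℝ)) ≤
      bl n (2 ^ 15 * t + 4 * t + 1) * prb n k m t (128 * t) (12 * t) *
        (univ.filter fun p : Fml n k m × (Fin n → Bool) => Dist p.1 ∧ Sat p.1 p.2).card

open Classical in
/-- (EXP) the bad solutions of the planted formulas. -/
def T_EXP : Prop :=
  ∀ (n k m t : ℕ), 2 ≤ k → k ≤ n → 140 * t ≤ n →
    (∑ p ∈ univ.filter fun p : Fml n k m × (Fin n → Bool) => Dist p.1 ∧ Sat p.1 p.2,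
      (bad p.1 t : ℝ)) ≤
      bl n (2 ^ 15 * t + 4 * t + 1) * prb n k m t (128 * t) (12 * t) *
        (2 ^ n * ∑ w ∈ range (n + 1), (n.choose w : ℝ) *
        ((2 ^ k - 2) * (n.descFactorial k : ℝ) + ((n - w).descFactorial k : ℝ)) ^ m)

/-- (NSS) the second moment. -/
def T_NSS : Prop :=
  ∀ k n m : ℕ, 2 ≤ k → k ≤ n →
    ∑ w ∈ range (n + 1), (n.choose w : ℝ) *
        (((2 : ℝ) ^ k - 2) * (n.descFactorial k : ℝ) + ((n - w).descFactorial k : ℝ)) ^ m ≤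
      (2 : ℝ) ^ (2 ^ 27 * sav n k m * n) * (2 ^ n * guess n k m) *
        (((2 : ℝ) ^ k - 1) * (n.descFactorial k : ℝ)) ^ m

/-- (NUB) numbers. -/
def T_NUB : Prop :=
  ∀ k n m t : ℕ, 2 ≤ k → k ≤ n → 1 ≤ t → 2 ^ 13 * sav n k m * n ≤ t → 2 ^ 15 * t ≤ n →
    bl n (2 ^ 15 * t + 4 * t + 1) * prb n k m t (128 * t) (12 * t) *
      2 ^ (7 * (2 ^ 15 * t)) ≤ 1

open Classical in
/-- (GOD) the good formulas. -/
def T_GOD : Prop :=
  ∀ k n m t₀ I : ℕ, 2 ≤ k → k ≤ n → 1 ≤ t₀ → 2 ^ 13 * sav n k m * n ≤ t₀ →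
    2 ^ 15 * (2 ^ I * t₀) ≤ n → ∃ G : Set (Fml n k m), AlmostAll G ∧ ∀ F ∈ G,
    (nsol F : ℝ) ≤ 2 ^ (2 ^ 15 * t₀) * (2 ^ n * guess n k m) ∧
    ∀ i, i ≤ I → (bad F (2 ^ i * t₀) : ℝ) * 2 ^ (5 * (2 ^ 15 * (2 ^ i * t₀))) ≤
      2 ^ (2 ^ 15 * t₀) * (2 ^ n * guess n k m)

/-! ### The second part -/

open Classical in
/-- (UPA) forced variables. -/
def T_UPA : Prop :=
  ∀ (n k m : ℕ) (F : Fml n k m) (σ : Fin n → Bool), Sat F σ →
    (2 : ℝ) ^ (univ.filter fun v => Frc F σ v).card * (1 / 2) ^ n ≤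
      success F 1 1 (Pool.Agent.H47.SQ.chain (List.finRange n))

open Classical in
/-- (UPB) many variables are forced. -/
def T_UPB : Prop :=
  ∀ (n k m h u : ℕ), 1 ≤ k → k ≤ n → h ≤ n → u ≤ h →
    ((univ.filter fun p : Fml n k m × (Fin n → Bool) => Dist p.1 ∧ Sat p.1 p.2 ∧
      u ≤ (univ.filter fun v : Fin n => n ≤ v.1 + h ∧ ¬ Frc p.1 p.2 v).card).card : ℝ) ≤
    2 ^ h * (1 - u * (k * ((n - h).descFactorial (k - 1) : ℝ) /
      ((2 ^ k - 1) * (n.descFactorial k : ℝ)))) ^ m *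
    (univ.filter fun p : Fml n k m × (Fin n → Bool) => Dist p.1 ∧ Sat p.1 p.2).card

/-- (UPC) numbers. -/
def T_UPC : Prop :=
  ∃ K : ℕ, ∀ k n m : ℕ, K ≤ k → K * k ≤ n → 2 ^ k * n ≤ m → m ≤ 4 ^ k * n →
    ∃ h u : ℕ, u ≤ h ∧ h ≤ n ∧ 1 / 20 * sav n k m * n ≤ ((h : ℝ) - u) ∧
      n * (2 ^ h * (1 - u * (k * ((n - h).descFactorial (k - 1) : ℝ) /
        ((2 ^ k - 1) * (n.descFactorial k : ℝ)))) ^ m) ≤ 1

/-! ### The end -/

/-- (FIA) the first part. -/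
def T_FIA : Prop := T_MSC → T_GOD → Pool.Agent.H47.SQ.MainA

/-- (FIB) the second part. -/
def T_FIB : Prop := T_UPA → T_UPB → T_UPC → Pool.Agent.H47.SQ.MainB

end Pool.Agent.H47.SR
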