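import Pool.Agent.H47.SQ.Stmt2
import Pool.Agent.H47.SQ.Targets

/-!
The savings of backtracking search on random k-CNFs (MP_c62aed_lc): targets, second part (the
exponent 12/7 of the number of the lines, all densities in the lower bound).
-/

set_option autoImplicit false

namespace Pool.Agent.H47.SR

open Finset Pool.Agent.H97.RK Pool.Agent.H41.SS
open Pool.Agent.H47.PL (Sat Agr Con dm nsol Os)
open Pool.Agent.H47.SQ (Derivation Refuted Find success sav guess AlmostAll)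

section

variable {n k m : ℕ}

open Classical in
/-- the good solutions at the scale `t` -/
noncomputable def gdr (F : Fml n k m) (t r : ℕ) : Finset (Fin n → Bool) :=
  univ.filter fun τ => Sat F τ ∧ ∀ z, dst z τ ≤ r → Gd F t (128 * t) (12 * t) z

open Classical in
/-- the number of the bad solutions at the scale `t` -/
noncomputable def badr (F : Fml n k m) (t r : ℕ) : ℕ :=
  (univ.filter fun τ => Sat F τ ∧ ¬ ∀ z, dst z τ ≤ r → Gd F t (128 * t) (12 * t) z).card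

end

/-- (RSW) the interface; as (RSV) with `R` instead of `2 ^ 15`. -/
def T_RSW : Prop :=
  ∀ (n k m : ℕ) (F : Fml n k m) (R t a s : ℕ) (C : Finset (Fin n → Bool)), 1 ≤ t → 144 ≤ R →
    R * t ≤ n → a ≤ 2 * t → C ⊆ gdr F t (R * t + 4 * t + 1) →
    (∀ N S : ℕ, S ≤ s → R * t ≤ N + 4 * t → N ≤ R * t →
      S * (2 ^ N * bl N (130 * t) * bl N (4 * t)) + 2 ^ N * bl N (140 * t) < 3 ^ N) →
    ∃ Res, Rs C (n - R * t) (4 * t) (Refuted F a s) Res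

/-- (MSD) all scales together. -/
def T_MSD : Prop :=
  ∀ (n k m : ℕ) (F : Fml n k m) (t₀ : ℕ) (Nh : ℝ), 1 ≤ t₀ → 2 ^ 22 * t₀ ≤ n →
    (nsol F : ℝ) ≤ Nh → Nh ≤ 2 ^ (2 ^ 22 * t₀ + n + 1) →
    (∀ t, t₀ ≤ t → 2 ^ 22 * t ≤ n →
      (badr F t (2 ^ 22 * t + 4 * t + 1) : ℝ) * 2 ^ (5 * (2 ^ 22 * t)) ≤ Nh) →
    ∀ (a s : ℕ) (T : Pool.Agent.H47.SQ.Tree n), a ≤ t₀ → 1 ≤ s →
    success F a s T * 2 ^ n ≤ (s : ℝ) ^ (12 / 7 : ℝ) * 2 ^ ((2 ^ 22 + 4) * t₀ + 2) * Nh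

/-- (NUE) numbers. -/
def T_NUE : Prop :=
  ∀ t s N S : ℕ, 1 ≤ t → s ^ 12 ≤ 2 ^ (7 * ((2 ^ 22 + 4) * t)) → S ≤ s →
    2 ^ 22 * t ≤ N + 4 * t → N ≤ 2 ^ 22 * t →
    S * (2 ^ N * bl N (130 * t) * bl N (4 * t)) + 2 ^ N * bl N (140 * t) < 3 ^ N

open Classical in
/-- (EXV) the bad solutions of the uniform formulas; as (EXU) with `r`. -/
def T_EXV : Prop :=
  ∀ (n k m t r : ℕ), 1 ≤ k → k ≤ n → 140 * t ≤ n →
    (∑ F ∈ univ.filter fun F : Fml n k m => Dist F, (badr F t r : ℝ)) ≤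
      bl n r * prb n k m t (128 * t) (12 * t) *
        (univ.filter fun p : Fml n k m × (Fin n → Bool) => Dist p.1 ∧ Sat p.1 p.2).card

open Classical in
/-- (EXQ) the bad solutions of the planted formulas; as (EXP) with `r`. -/
def T_EXQ : Prop :=
  ∀ (n k m t r : ℕ), 2 ≤ k → k ≤ n → 140 * t ≤ n →
    (∑ p ∈ univ.filter fun p : Fml n k m × (Fin n → Bool) => Dist p.1 ∧ Sat p.1 p.2,
      (badr p.1 t r : ℝ)) ≤
      bl n r * prb n k m t (128 * t) (12 * t) *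
        (2 ^ n * ∑ w ∈ range (n + 1), (n.choose w : ℝ) *
        ((2 ^ k - 2) * (n.descFactorial k : ℝ) + ((n - w).descFactorial k : ℝ)) ^ m)

/-- (NUF) numbers; as (NUB). -/
def T_NUF : Prop :=
  ∀ k n m t : ℕ, 2 ≤ k → k ≤ n → 1 ≤ t → 2 ^ 20 * sav n k m * n ≤ t → 2 ^ 22 * t ≤ n →
    bl n (2 ^ 22 * t + 4 * t + 1) * prb n k m t (128 * t) (12 * t) *
      2 ^ (7 * (2 ^ 22 * t)) ≤ 1

open Classical in
/-- (GOE) the good formulas; as (GOD). -/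
def T_GOE : Prop :=
  ∀ k n m t₀ : ℕ, 2 ≤ k → k ≤ n → 1 ≤ t₀ → 2 ^ 20 * sav n k m * n ≤ t₀ →
    2 ^ 22 * t₀ ≤ n → ∃ G : Set (Fml n k m), AlmostAll G ∧ ∀ F ∈ G,
    (nsol F : ℝ) ≤ 2 ^ (2 ^ 22 * t₀) * (2 ^ n * guess n k m) ∧
    ∀ t, t₀ ≤ t → 2 ^ 22 * t ≤ n →
      (badr F t (2 ^ 22 * t + 4 * t + 1) : ℝ) * 2 ^ (5 * (2 ^ 22 * t)) ≤
      2 ^ (2 ^ 22 * t₀) * (2 ^ n * guess n k m)

open Classical in
/-- (UPD) forced variables, all solutions; contains (UPA). -/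
def T_UPD : Prop :=
  ∀ (n k m : ℕ) (F : Fml n k m),
    (∑ σ ∈ univ.filter fun σ : Fin n → Bool => Sat F σ,
      (2 : ℝ) ^ (univ.filter fun v => Frc F σ v).card) * (1 / 2) ^ n ≤
      success F 1 1 (Pool.Agent.H47.SQ.chain (List.finRange n))

/-- (UPE) numbers; as (UPC), for `1 / √k ≤ Δ`. -/
def T_UPE : Prop :=
  ∃ K : ℕ, ∀ k n m : ℕ, K ≤ k → K * k ≤ n → (2 ^ k * n) ^ 2 ≤ k * m ^ 2 → m ≤ 4 ^ k * n →
    ∃ h u : ℕ, u ≤ h ∧ h ≤ n ∧ 8 * n * (2 : ℝ) ^ (1 / 40 * sav n k m * n) ≤ 2 ^ (h - u) ∧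
      4 * n * (2 ^ h * (1 - u * (k * ((n - h).descFactorial (k - 1) : ℝ) /
        ((2 ^ k - 1) * (n.descFactorial k : ℝ)))) ^ m) ≤ 1

/-- (FIC) the first part. -/
def T_FIC : Prop := T_MSD → T_GOE → Pool.Agent.H47.SQ.Upper

/-- (FID) the second part. -/
def T_FID : Prop := T_UPD → T_UPB → T_UPE → Pool.Agent.H47.SQ.Lower

end Pool.Agent.H47.SR
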