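import Pool.Agent.H47.SQ.Stmt3
import Pool.Agent.H47.SQ.Targets2

/-!
The savings of backtracking search on random k-CNFs (MP_c62aed_lc): targets, third part: the exact
savings for a fixed order of the variables.
-/

set_option autoImplicit false

namespace Pool.Agent.H47.SR

open Finset Pool.Agent.H97.RK Pool.Agent.H41.SS
open Pool.Agent.H47.PL (Sat Agr Con dm nsol Os)
open Pool.Agent.H47.SQ (Derivation Refuted Find success sav guess AlmostAll)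

/-! ### Definitions -/

/-- the first `i` variables -/
def pre (n i : ℕ) : Finset (Fin n) := univ.filter fun v => v.1 < i

section

variable {n k m : ℕ}

/-- the first `i` variables with their values under `τ` -/
def gr (τ : Fin n → Bool) (i : ℕ) : Finset (Fin n × Bool) := (pre n i).image fun v => (v, τ v)

open Classical in
/-- the number of the variables whose wrong value is excluded along `τ` -/
noncomputable def exc (Ex : Finset (Fin n × Bool) → Prop) (τ : Fin n → Bool) : ℕ :=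
  (univ.filter fun v : Fin n => Ex (insert (v, !τ v) (gr τ v.1))).card

open Classical in
/-- `z` is good: few clauses lie in `T ∪ W` and are false under `z` on `T`; the first `n - u`
variables are in `T ∪ W`, and few of the first `n - u₁` variables are in `W` -/
def GdB (F : Fml n k m) (t t₁ d u u₁ : ℕ) (z : Fin n → Bool) : Prop :=
  ∀ T W : Finset (Fin n), Disjoint T W → W.card ≤ 12 * t →
    (W ∩ pre n (n - u₁)).card ≤ 2 * t₁ → T.card + W.card + d ≤ n → pre n (n - u) ⊆ T ∪ W →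
    (univ.filter fun c => (∀ i, (F c i).1 ∈ T ∪ W) ∧ Al F z T c).card < t

open Classical in
/-- `x` is good at the beginning: `T` is the set of the first `n - u₁` variables without `W` -/
def GdE (F : Fml n k m) (t t₁ u₁ : ℕ) (x : Fin n → Bool) : Prop :=
  ∀ (s : ℕ) (W : Finset (Fin n)), t₁ ≤ s → s ≤ 6 * t → W.card ≤ 2 * s →
    (univ.filter fun c => (∀ i, (F c i).1 ∈ pre n (n - u₁) ∪ W) ∧
      Al F x (pre n (n - u₁) \ W) c).card < s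

/-- `z` is near to `τ` -/
def Zb (t t₁ u u₁ : ℕ) (τ z : Fin n → Bool) : Prop :=
  ((pre n (n - u)).filter fun v => z v ≠ τ v).card ≤ 4 * t + 1 ∧
  ((pre n (n - u₁)).filter fun v => z v ≠ τ v).card ≤ 2 * t₁ + 1

/-- the assignments near to `τ` are good -/
def BG (F : Fml n k m) (t t₁ d u u₁ : ℕ) (τ : Fin n → Bool) : Prop :=
  (∀ z, Zb t t₁ u u₁ τ z → GdB F t t₁ d u u₁ z) ∧ ∀ x, dst x τ ≤ 1 → GdE F t t₁ u₁ x

/-- invariants of the states -/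
def Inw (t₁ u₁ i : ℕ) (W : Finset (Fin n)) (J : Finset (Fin m)) : Prop :=
  (W ∩ pre n (n - u₁)).card ≤ 2 * t₁ ∧ (i ≤ n - u₁ → J.card < t₁)

/-- the hypothesis of the closure: no large set of clauses lies in `A ∪ W''` and is false outside
of `W''` -/
def Cnt (F : Fml n k m) (x : Fin n → Bool) (A W : Finset (Fin n)) (j₀ N : ℕ) : Prop :=
  ∀ (W'' : Finset (Fin n)) (J'' : Finset (Fin m)), W ⊆ W'' → (∀ v ∈ A, v ∈ W'' → v ∈ W) →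
    (∀ c ∈ J'', ∀ i, (F c i).1 ∈ A ∪ W'') → (∀ c ∈ J'', Al F x (A \ W'') c) →
    W''.card ≤ 2 * J''.card → J''.card < N → J''.card < j₀

open Classical in
/-- the number of the solutions which are not good -/
noncomputable def badB (F : Fml n k m) (t t₁ d u u₁ : ℕ) : ℕ :=
  (univ.filter fun τ => Sat F τ ∧ ¬ BG F t t₁ d u u₁ τ).card

end

/-- the probability that an assignment is not good -/
noncomputable def prB (n k m t t₁ d u u₁ : ℕ) : ℝ :=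
  2 ^ u * bl n (2 * t₁) * bl u₁ (12 * t) * (2 * m).choose t *
    (((n : ℝ) - d + 12 * t) / (2 * n)) ^ (k * t)

/-- the same for the beginning -/
noncomputable def prE (n k m t t₁ u₁ : ℕ) : ℝ :=
  ∑ s ∈ Icc t₁ (6 * t), (bl n (2 * s) : ℝ) * (2 * m).choose s *
    (((n : ℝ) - u₁ + 4 * s) / (2 * n)) ^ (k * s)

/-- the probability that a solution is not good -/
noncomputable def pT (n k m t t₁ d u u₁ : ℕ) : ℝ :=
  2 ^ u * bl u₁ (4 * t + 1) * bl n (2 * t₁ + 1) * prB n k m t t₁ d u u₁ +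
    (n + 1) * prE n k m t t₁ u₁

/-! ### The adversary -/

/-- (XCL) the closure. -/
def T_XCL : Prop :=
  ∀ (n k m : ℕ) (F : Fml n k m) (D j₀ : ℕ), j₀ ≤ D →
    ∀ (x y : Fin n → Bool) (A W : Finset (Fin n)) (J : Finset (Fin m)),
    (∀ u, u ∉ W → y u = x u) → (∀ c ∈ J, ∀ i, (F c i).1 ∈ A ∪ W) →
    (∀ c ∈ J, Al F y (A \ W) c) → (∀ c ∈ J, Sa F y (A ∪ W) c) → J.card < j₀ →
    W.card ≤ 2 * J.card → Cnt F x A W j₀ (j₀ + 2 * D) →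
    (∀ S : Finset (Fin m), S.card < D → (∀ c ∈ S, Al F y (A ∪ W) c) →
      ∃ z : Fin n → Bool, (∀ u ∈ A ∪ W, z u = y u) ∧ ∀ c ∈ S, Sa F z univ c) →
    ∃ (y' : Fin n → Bool) (W' : Finset (Fin n)) (J' : Finset (Fin m)),
      W ⊆ W' ∧ (∀ v ∈ A, v ∈ W' → v ∈ W) ∧ (∀ u ∈ A ∪ W, y' u = y u) ∧
      (∀ u, u ∉ W' → y' u = x u) ∧ Sta F D 0 y' A W' J' ∧ J'.card < j₀

/-- (XCY) the closure for solutions. -/
def T_XCY : Prop :=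
  ∀ (n k m : ℕ) (F : Fml n k m) (D j₀ : ℕ)
    (y : Fin n → Bool) (A W : Finset (Fin n)) (J : Finset (Fin m)),
    (∀ c ∈ J, ∀ i, (F c i).1 ∈ A ∪ W) → (∀ c ∈ J, Al F y (A \ W) c) → J.card < j₀ →
    W.card ≤ 2 * J.card → Cnt F y A W j₀ (j₀ + D) →
    ∃ (W' : Finset (Fin n)) (J' : Finset (Fin m)), W ⊆ W' ∧ (∀ v ∈ A, v ∈ W' → v ∈ W) ∧
      (∀ c ∈ J', ∀ i, (F c i).1 ∈ A ∪ W') ∧ (∀ c ∈ J', Al F y (A \ W') c) ∧ J'.card < j₀ ∧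
      W'.card ≤ 2 * J'.card ∧
      ∀ S : Finset (Fin m), S.card ≤ D → (∀ c ∈ S, c ∉ J' ∧ Al F y A c) →
        2 * S.card ≤ (VS F S \ (A ∪ W')).card

/-- (XAS) one more variable is asked. -/
def T_XAS : Prop :=
  ∀ (n k m : ℕ) (F : Fml n k m) (D j₀ : ℕ), j₀ ≤ D →
    ∀ (x y : Fin n → Bool) (A W : Finset (Fin n)) (J : Finset (Fin m)) (v : Fin n),
    Sta F D 0 y A W J → J.card < j₀ → (∀ u, u ∉ W → y u = x u) →
    Cnt F x (insert v A) W j₀ (j₀ + 2 * D) →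
    ∃ (y' : Fin n → Bool) (W' : Finset (Fin n)) (J' : Finset (Fin m)),
      W ⊆ W' ∧ (∀ w ∈ insert v A, w ∈ W' → w ∈ W) ∧ (∀ u ∈ insert v (A ∪ W), y' u = y u) ∧
      (∀ u, u ∉ W' → y' u = x u) ∧ Sta F D 0 y' (insert v A) W' J' ∧ J'.card < j₀

/-- (XCN) the hypothesis of the closure, at the end and at the beginning. -/
def T_XCN : Prop :=
  ∀ (n k m : ℕ) (F : Fml n k m) (t t₁ d u u₁ : ℕ) (x : Fin n → Bool), u ≤ u₁ →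
    (GdB F t t₁ d u u₁ x → ∀ A W : Finset (Fin n), pre n (n - u₁) ⊆ A →
      (W ∩ pre n (n - u₁)).card ≤ 2 * t₁ → (A ∪ pre n (n - u)).card + 12 * t + d ≤ n →
      Cnt F x A W (2 * t) (6 * t)) ∧
    (GdE F t t₁ u₁ x → t₁ ≤ t → ∀ (i : ℕ) (W : Finset (Fin n)), i ≤ n - u₁ →
      Cnt F x (pre n i) W t₁ (t₁ + 4 * t))

/-- (XL1) one more variable is asked at the end. -/
def T_XL1 : Prop :=
  ∀ (n k m : ℕ) (F : Fml n k m) (t t₁ d u u₁ : ℕ) (x : Fin n → Bool), u ≤ u₁ →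
    GdB F t t₁ d u u₁ x →
    ∀ (y : Fin n → Bool) (A W : Finset (Fin n)) (J : Finset (Fin m)) (v : Fin n),
    Sta F (2 * t) 0 y A W J → (W ∩ pre n (n - u₁)).card ≤ 2 * t₁ →
    (∀ w, w ∉ W → y w = x w) → pre n (n - u₁) ⊆ A →
    (insert v A ∪ pre n (n - u)).card + 12 * t + d ≤ n →
    ∃ (y' : Fin n → Bool) (W' : Finset (Fin n)) (J' : Finset (Fin m)),
      W ⊆ W' ∧ (W' ∩ pre n (n - u₁)).card ≤ 2 * t₁ ∧
      (∀ w ∈ insert v (A ∪ W), y' w = y w) ∧ (∀ w, w ∉ W' → y' w = x w) ∧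
      Sta F (2 * t) 0 y' (insert v A) W' J'

/-- (XTA) more variables are asked at the end. -/
def T_XTA : Prop :=
  ∀ (n k m : ℕ) (F : Fml n k m) (t t₁ d u u₁ : ℕ) (x : Fin n → Bool), u ≤ u₁ →
    GdB F t t₁ d u u₁ x →
    ∀ (y : Fin n → Bool) (A B W : Finset (Fin n)) (J : Finset (Fin m)),
    Sta F (2 * t) 0 y A W J → (W ∩ pre n (n - u₁)).card ≤ 2 * t₁ →
    (∀ w, w ∉ W → y w = x w) → pre n (n - u₁) ⊆ A →
    (A ∪ B ∪ pre n (n - u)).card + 12 * t + d ≤ n →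
    ∃ (y' : Fin n → Bool) (W' : Finset (Fin n)) (J' : Finset (Fin m)),
      W ⊆ W' ∧ (W' ∩ pre n (n - u₁)).card ≤ 2 * t₁ ∧ (∀ w ∈ A ∪ W, y' w = y w) ∧
      (∀ w, w ∉ W' → y' w = x w) ∧ Sta F (2 * t) 0 y' (A ∪ B) W' J'

/-- (XUP) the variables `i, .., i' - 1` are asked. -/
def T_XUP : Prop :=
  ∀ (n k m : ℕ) (F : Fml n k m) (t t₁ d u u₁ : ℕ) (x : Fin n → Bool), t₁ ≤ t → u ≤ u₁ →
    u ≤ n → 12 * t + d ≤ u → GdB F t t₁ d u u₁ x → GdE F t t₁ u₁ x →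
    ∀ (i i' : ℕ) (y : Fin n → Bool) (W : Finset (Fin n)) (J : Finset (Fin m)),
    Sta F (2 * t) 0 y (pre n i) W J → Inw t₁ u₁ i W J → (∀ w, w ∉ W → y w = x w) →
    i < i' → i' ≤ n - u →
    ∃ (y' : Fin n → Bool) (W' : Finset (Fin n)) (J' : Finset (Fin m)),
      W ⊆ W' ∧ Inw t₁ u₁ i' W' J' ∧ (∀ w ∈ pre n (i + 1) ∪ W, y' w = y w) ∧
      (∀ w, w ∉ W' → y' w = x w) ∧ Sta F (2 * t) 0 y' (pre n i') W' J'

/-- (XML) a line of medium strength. -/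
def T_XML : Prop :=
  ∀ (n k m : ℕ) (F : Fml n k m) (t t₁ d u u₁ : ℕ), 1 ≤ t →
    ∀ (a S : ℕ) (line : ℕ → Clause n), a ≤ 2 * t → Derivation F a S line →
    ∀ (y : Fin n → Bool) (A W : Finset (Fin n)) (J : Finset (Fin m)), Sta F (2 * t) 0 y A W J →
    pre n (n - u₁) ⊆ A → pre n (n - u) ⊆ A →
    (∀ z : Fin n → Bool, (∀ w ∈ A, z w = y w) → GdB F t t₁ d u u₁ z) →
    ∀ r, r < S → Falsified (line r) y → vs (line r) ⊆ A →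
    ∃ i, i < S ∧ ∃ z : Fin n → Bool, (∀ w ∈ A, z w = y w) ∧ Falsified (line i) z ∧
      n ≤ (A ∪ vs (line i)).card + (d + 2 * t)

/-- (XCR) counting restrictions with few variables. -/
def T_XCR : Prop :=
  ∀ (n : ℕ) (V : Finset (Fin n)) (x₀ : Fin n → Bool) (S q b₀ Q h : ℕ) (line : ℕ → Clause n),
    1 ≤ Q → 2 * V.card ≤ Q * b₀ →
    (∀ (x : Fin n → Bool) (B : Finset (Fin n)), (∀ u, u ∉ V → x u = x₀ u) → B ⊆ V →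
      B.card ≤ b₀ → ∃ i, i < S ∧ ∃ y z : Fin n → Bool, dst y x ≤ q ∧
        (∀ u ∈ B, z u = y u) ∧ Falsified (line i) z ∧ h ≤ (vs (line i) ∩ V).card) →
    (1 : ℝ) ≤ 2 * (S * (2 ^ q * (1 - 1 / (4 * (Q : ℝ))) ^ h))

/-- (XNC) a derivation of a line which is false in a state is long. -/
def T_XNC : Prop :=
  ∀ (n k m : ℕ) (F : Fml n k m) (t t₁ d u u₁ b₀ Q : ℕ), 1 ≤ t → u ≤ u₁ → u ≤ n → 1 ≤ Q →
    b₀ + 12 * t + d ≤ u → 2 * u ≤ Q * b₀ →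
    ∀ (a S : ℕ) (line : ℕ → Clause n), a ≤ 2 * t → Derivation F a S line →
    ∀ (y : Fin n → Bool) (W : Finset (Fin n)) (J : Finset (Fin m)),
    Sta F (2 * t) 0 y (pre n (n - u)) W J → (W ∩ pre n (n - u₁)).card ≤ 2 * t₁ →
    (∀ z : Fin n → Bool, (∀ w ∈ pre n (n - u), z w = y w) → GdB F t t₁ d u u₁ z) →
    ∀ r, r < S → Falsified (line r) y → vs (line r) ⊆ pre n (n - u) →
    (1 : ℝ) ≤ 2 * (S * (2 ^ (4 * t) * (1 - 1 / (4 * (Q : ℝ))) ^ (u - (b₀ + d + 6 * t))))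

/-- (XS0) the states of a good solution. -/
def T_XS0 : Prop :=
  ∀ (n k m : ℕ) (F : Fml n k m) (t t₁ d u u₁ : ℕ), 1 ≤ t₁ → t₁ ≤ t → u ≤ u₁ → u ≤ n →
    12 * t + d ≤ u → ∀ τ, Sat F τ → BG F t t₁ d u u₁ τ →
    (∃ (W : Finset (Fin n)) (J : Finset (Fin m)),
      St2 F (2 * t) τ (pre n 0) W J ∧ Inw t₁ u₁ 0 W J) ∧
    ∀ (i : ℕ) (W : Finset (Fin n)) (J : Finset (Fin m)), i < n - u →
      St2 F (2 * t) τ (pre n i) W J → Inw t₁ u₁ i W J →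
      ∃ (W' : Finset (Fin n)) (J' : Finset (Fin m)), W ⊆ W' ∧
        St2 F (2 * t) τ (pre n (i + 1)) W' J' ∧ Inw t₁ u₁ (i + 1) W' J'

/-- (XFR) a wrong value is not refuted. -/
def T_XFR : Prop :=
  ∀ (n k m : ℕ) (F : Fml n k m) (t t₁ d u u₁ b₀ Q a s : ℕ), 1 ≤ t₁ → t₁ ≤ t → u ≤ u₁ →
    u ≤ n → 1 ≤ Q → b₀ + 12 * t + d ≤ u → 2 * u ≤ Q * b₀ → a ≤ 2 * t →
    2 * (s * ((2 : ℝ) ^ (4 * t) * (1 - 1 / (4 * (Q : ℝ))) ^ (u - (b₀ + d + 6 * t)))) < 1 →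
    ∀ τ, Sat F τ → BG F t t₁ d u u₁ τ →
    ∀ (v : Fin n) (W : Finset (Fin n)) (J : Finset (Fin m)), v.1 < n - u →
      St2 F (2 * t) τ (pre n v.1) W J → Inw t₁ u₁ v.1 W J → v ∉ W →
      ¬ Refuted F a s (insert (v, !τ v) (gr τ v.1))

/-- (XEX) few wrong values are refuted. -/
def T_XEX : Prop :=
  ∀ (n k m : ℕ) (F : Fml n k m) (t t₁ d u u₁ b₀ Q a s : ℕ), 1 ≤ t₁ → t₁ ≤ t → u ≤ u₁ →
    u ≤ n → 1 ≤ Q → b₀ + 12 * t + d ≤ u → 2 * u ≤ Q * b₀ → a ≤ 2 * t →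
    2 * (s * ((2 : ℝ) ^ (4 * t) * (1 - 1 / (4 * (Q : ℝ))) ^ (u - (b₀ + d + 6 * t)))) < 1 →
    ∀ τ, Sat F τ → BG F t t₁ d u u₁ τ → exc (Refuted F a s) τ ≤ u + 4 * t

/-! ### The search -/

open Classical in
/-- (XSU) the probability that the search succeeds. -/
def T_XSU : Prop :=
  ∀ (n k m : ℕ) (F : Fml n k m) (a s : ℕ),
    success F a s (Pool.Agent.H47.SQ.chain (List.finRange n)) * 2 ^ n ≤
      ∑ τ ∈ univ.filter fun τ : Fin n → Bool => Sat F τ, (2 : ℝ) ^ exc (Refuted F a s) τ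

/-- (XSQ) the number of the exclusions. -/
def T_XSQ : Prop :=
  ∀ (n : ℕ) (C : Finset (Fin n → Bool)) (D e : ℕ) (Ex : Finset (Fin n × Bool) → Prop)
    (Res : Finset (Fin n × Bool) → Finset (Fin n) → Prop), Rs C D e Ex Res → D ≤ n →
    ∀ τ ∈ C, exc Ex τ ≤ (n - D) + e

/-- (XLG) the bad solutions at the scales `t ≥ t₀`. -/
def T_XLG : Prop :=
  ∀ (n k m : ℕ) (F : Fml n k m) (t₀ : ℕ) (Nh : ℝ) (C : Finset (Fin n → Bool)), 1 ≤ t₀ →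
    2 ^ 22 * t₀ ≤ n → (∀ τ ∈ C, Sat F τ) → Nh ≤ 2 ^ (2 ^ 22 * t₀ + n + 1) →
    (∀ t, t₀ ≤ t → 2 ^ 22 * t ≤ n →
      (badr F t (2 ^ 22 * t + 4 * t + 1) : ℝ) * 2 ^ (5 * (2 ^ 22 * t)) ≤ Nh) →
    ∀ a s : ℕ, a ≤ 2 * t₀ → s ^ 12 ≤ 2 ^ (7 * ((2 ^ 22 + 4) * t₀)) →
    ∑ τ ∈ C, (2 : ℝ) ^ exc (Refuted F a s) τ ≤
      C.card * 2 ^ ((2 ^ 22 + 4) * t₀) + Nh / 2 ^ (2 * (2 ^ 22 * t₀))

/-! ### Random formulas -/

open Classical in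
/-- (XPB) a fixed assignment is good, clauses in `Ω`. -/
def T_XPB : Prop :=
  ∀ (n k m t t₁ d u u₁ : ℕ) (Ω : Finset (Fin k → Fin n × Bool)), 1 ≤ n → k ≤ n → d ≤ n →
    Ω ⊆ Om n k → (Om n k).card ≤ 2 * Ω.card → ∀ z : Fin n → Bool,
    ((univ.filter fun F : Fml n k m => (∀ c, F c ∈ Ω) ∧ ¬ GdB F t t₁ d u u₁ z).card : ℝ) ≤
      prB n k m t t₁ d u u₁ * (Ω.card : ℝ) ^ m

open Classical in
/-- (XPE) the same for the beginning. -/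
def T_XPE : Prop :=
  ∀ (n k m t t₁ u₁ : ℕ) (Ω : Finset (Fin k → Fin n × Bool)), 1 ≤ n → k ≤ n → u₁ ≤ n →
    Ω ⊆ Om n k → (Om n k).card ≤ 2 * Ω.card → ∀ x : Fin n → Bool,
    ((univ.filter fun F : Fml n k m => (∀ c, F c ∈ Ω) ∧ ¬ GdE F t t₁ u₁ x).card : ℝ) ≤
      prE n k m t t₁ u₁ * (Ω.card : ℝ) ^ m

/-- (XZB) the number of the assignments near to `τ`. -/
def T_XZB : Prop :=
  ∀ (n t t₁ u u₁ : ℕ) (τ : Fin n → Bool),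
    Nat.card {z : Fin n → Bool // Zb t t₁ u u₁ τ z} ≤
      2 ^ u * bl u₁ (4 * t + 1) * bl n (2 * t₁ + 1)

open Classical in
/-- (XEU) the bad solutions of the uniform formulas. -/
def T_XEU : Prop :=
  ∀ (n k m t t₁ d u u₁ : ℕ), 1 ≤ k → k ≤ n → d ≤ n → u₁ ≤ n →
    (∑ F ∈ univ.filter fun F : Fml n k m => Dist F, (badB F t t₁ d u u₁ : ℝ)) ≤
      pT n k m t t₁ d u u₁ *
        (univ.filter fun p : Fml n k m × (Fin n → Bool) => Dist p.1 ∧ Sat p.1 p.2).card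

open Classical in
/-- (XEP) the bad solutions of the planted formulas. -/
def T_XEP : Prop :=
  ∀ (n k m t t₁ d u u₁ : ℕ), 2 ≤ k → k ≤ n → d ≤ n → u₁ ≤ n →
    (∑ p ∈ univ.filter fun p : Fml n k m × (Fin n → Bool) => Dist p.1 ∧ Sat p.1 p.2,
      (badB p.1 t t₁ d u u₁ : ℝ)) ≤
      pT n k m t t₁ d u u₁ *
        (2 ^ n * ∑ w ∈ range (n + 1), (n.choose w : ℝ) *
        ((2 ^ k - 2) * (n.descFactorial k : ℝ) + ((n - w).descFactorial k : ℝ)) ^ m)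

/-! ### Numbers -/

/-- (XNB) the first part of `pT` is small. -/
def T_XNB : Prop :=
  ∀ (ε : ℝ) (G C₁ : ℕ), 0 < ε → ε ≤ 1 → 2 ^ 46 ≤ ε * G → ∃ (c : ℝ) (K : ℕ), 0 < c ∧
    ∀ k n m t t₁ d u u₁ : ℕ, K ≤ k → K * k ≤ n → (m : ℝ) ≤ (2 : ℝ) ^ ((1 + c) * k) * n →
    (t : ℝ) ≤ G * (n / k) + 1 → G * (n / k : ℝ) ≤ t → (t₁ : ℝ) ≤ (n / k) + 1 →
    (1 + ε) * sav n k m * n ≤ d → d ≤ n → (u : ℝ) ≤ 3 * (sav n k m * n) →
    (u₁ : ℝ) ≤ C₁ * (sav n k m * n) → u₁ ≤ n →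
    2 ^ u * bl u₁ (4 * t + 1) * bl n (2 * t₁ + 1) * prB n k m t t₁ d u u₁ ≤
      (2 : ℝ) ^ (-(2 ^ 45 * sav n k m * n))

/-- (XNE) the second part of `pT` is small. -/
def T_XNE : Prop :=
  ∀ G C₁ : ℕ, 2 ^ 46 ≤ C₁ → ∃ (c : ℝ) (K : ℕ), 0 < c ∧
    ∀ k n m t t₁ u₁ : ℕ, K ≤ k → K * k ≤ n → (m : ℝ) ≤ (2 : ℝ) ^ ((1 + c) * k) * n →
    1 ≤ t → (t : ℝ) ≤ G * (n / k) + 1 → (n / k : ℝ) ≤ t₁ →
    C₁ * (sav n k m * n) ≤ u₁ → u₁ ≤ n →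
    (n + 1) * prE n k m t t₁ u₁ ≤ (2 : ℝ) ^ (-(2 ^ 45 * sav n k m * n))

/-- (XNP) the parameters. -/
def T_XNP : Prop :=
  ∀ ε : ℝ, 0 < ε → ε ≤ 1 → ∃ (c : ℝ) (K Q : ℕ), 0 < c ∧ 1 ≤ Q ∧ ∀ k n m : ℕ, K ≤ k →
    K * k ≤ n → (m : ℝ) ≤ (2 : ℝ) ^ ((1 + c) * k) * n → ∃ t t₁ d u u₁ b₀ : ℕ, 1 ≤ t₁ ∧
      t₁ ≤ t ∧ n ≤ 2 * t * k ∧ u ≤ u₁ ∧ u₁ ≤ n ∧ d ≤ n ∧ b₀ + 12 * t + d ≤ u ∧
      2 * u ≤ Q * b₀ ∧ (u : ℝ) + 4 * t ≤ (1 + ε) * sav n k m * n ∧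
      pT n k m t t₁ d u u₁ ≤ (2 : ℝ) ^ (-(2 ^ 44 * sav n k m * n)) ∧
      2 * ((2 : ℝ) ^ (c * sav n k m * n) * ((2 : ℝ) ^ (4 * t) *
        (1 - 1 / (4 * (Q : ℝ))) ^ (u - (b₀ + d + 6 * t)))) < 1

/-- (XNS) the second moment. -/
def T_XNS : Prop :=
  ∀ ε : ℝ, 0 < ε → ∃ (c : ℝ) (K : ℕ), 0 < c ∧ ∀ k n m : ℕ, K ≤ k → K * k ≤ n →
    (2 : ℝ) ^ k * n ≤ (k : ℝ) ^ c * m → (m : ℝ) ≤ (2 : ℝ) ^ ((1 + c) * k) * n →
    ∑ w ∈ range (n + 1), (n.choose w : ℝ) *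
        (((2 : ℝ) ^ k - 2) * (n.descFactorial k : ℝ) + ((n - w).descFactorial k : ℝ)) ^ m ≤
      (2 : ℝ) ^ (ε * sav n k m * n) * (2 ^ n * guess n k m) *
        (((2 : ℝ) ^ k - 1) * (n.descFactorial k : ℝ)) ^ m

/-- (XGO) the good formulas. -/
def T_XGO : Prop :=
  ∀ ε : ℝ, 0 < ε → ∃ (c : ℝ) (K : ℕ), 0 < c ∧ ∀ k n m : ℕ, K ≤ k → K * k ≤ n →
    (2 : ℝ) ^ k * n ≤ (k : ℝ) ^ c * m → (m : ℝ) ≤ (2 : ℝ) ^ ((1 + c) * k) * n →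
    ∀ t₀ t t₁ d u u₁ : ℕ, 2 ^ 20 * sav n k m * n ≤ t₀ → (t₀ : ℝ) ≤ 2 ^ 20 * sav n k m * n + 1 →
    2 ^ 22 * t₀ ≤ n → d ≤ n → u₁ ≤ n →
    pT n k m t t₁ d u u₁ ≤ (2 : ℝ) ^ (-(2 ^ 44 * sav n k m * n)) →
    ∃ G : Set (Fml n k m), AlmostAll G ∧ ∀ F ∈ G,
      (nsol F : ℝ) ≤ (2 : ℝ) ^ (ε * sav n k m * n) * (2 ^ n * guess n k m) ∧
      (badB F t t₁ d u u₁ : ℝ) * 2 ^ ((2 ^ 22 + 4) * t₀) ≤ 2 ^ n * guess n k m ∧
      ∀ t, t₀ ≤ t → 2 ^ 22 * t ≤ n →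
        (badr F t (2 ^ 22 * t + 4 * t + 1) : ℝ) * 2 ^ (5 * (2 ^ 22 * t)) ≤
        2 ^ (2 ^ 22 * t₀) * (2 ^ n * guess n k m)

/-- (XNL) numbers; as (UPE), for the exact constant. -/
def T_XNL : Prop :=
  ∀ ε : ℝ, 0 < ε → ε ≤ 1 → ∃ (c : ℝ) (K : ℕ), 0 < c ∧ ∀ k n m : ℕ, K ≤ k → K * k ≤ n →
    (2 : ℝ) ^ k * n ≤ (k : ℝ) ^ c * m → (m : ℝ) ≤ (2 : ℝ) ^ ((1 + c) * k) * n →
    ∃ h u : ℕ, u ≤ h ∧ h ≤ n ∧ 8 * n * (2 : ℝ) ^ ((1 - ε) * sav n k m * n) ≤ 2 ^ (h - u) ∧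
      4 * n * (2 ^ h * (1 - u * (k * ((n - h).descFactorial (k - 1) : ℝ) /
        ((2 ^ k - 1) * (n.descFactorial k : ℝ)))) ^ m) ≤ 1

/-- (XFI) everything together. -/
def T_XFI : Prop :=
  T_XEX → T_XSU → T_XLG → T_XNP → T_XGO → T_UPD → T_UPB → T_XNL → Pool.Agent.H47.SQ.Exact

end Pool.Agent.H47.SR
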