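import Pool.Agent.H47.SQ.Defs

/-!
The savings of backtracking search on random k-CNFs (MP_c62aed_lc): the statement.
-/

set_option autoImplicit false

namespace Pool.Agent.H47.SQ

open Finset

/-- Every search succeeds with probability at most `s ^ (12 / 7) 2 ^ (C sav n) guess`. -/
def Upper : Prop :=
  ∃ C : ℝ, ∀ k n m : ℕ, 2 ≤ k → k ≤ n → ∃ G : Set (Fml n k m), AlmostAll G ∧
    ∀ F ∈ G, ∀ (a s : ℕ) (T : Tree n), 1 ≤ s → (a : ℝ) ≤ sav n k m * n →
      success F a s T ≤ (s : ℝ) ^ (12 / 7 : ℝ) * (2 : ℝ) ^ (C * sav n k m * n) * guess n k m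

/-- For `1 / √k ≤ Δ ≤ 2 ^ k` the search with a fixed order of the variables and unit clauses
succeeds with probability at least `2 ^ (c sav n) guess`. -/
def Lower : Prop :=
  ∃ (c : ℝ) (K : ℕ), 0 < c ∧ ∀ k n m : ℕ, K ≤ k → K * k ≤ n → (2 ^ k * n) ^ 2 ≤ k * m ^ 2 →
    m ≤ 4 ^ k * n →
    (n : ℝ) * Nat.card {p : Fml n k m × (Fin n → Bool) // Dist p.1 ∧ Sat p.1 p.2 ∧
      ¬ (2 : ℝ) ^ (c * sav n k m * n) * guess n k m ≤
        success p.1 1 1 (chain (List.finRange n))} ≤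
      Nat.card {p : Fml n k m × (Fin n → Bool) // Dist p.1 ∧ Sat p.1 p.2}

end Pool.Agent.H47.SQ
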