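import Pool.Agent.H47.SQ.Defs

/-!
The savings of backtracking search on random k-CNFs (MP_c62aed_lc): the exact savings for a fixed
order of the variables.
-/

set_option autoImplicit false

namespace Pool.Agent.H47.SQ

open Finset

/-- For `k ^ (- c) ≤ Δ ≤ 2 ^ (c k)`: for almost all formulas the search with a fixed order of the
variables and derivations with at most `2 ^ (c sav n)` lines from consequences of at most `n / k`
clauses succeeds with probability at most `2 ^ ((1 + ε) sav n) guess`; for almost all pairs the same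
search with violated clauses only succeeds with probability at least
`2 ^ ((1 - ε) sav n) guess`. -/
def Exact : Prop :=
  ∀ ε : ℝ, 0 < ε → ∃ (c : ℝ) (K : ℕ), 0 < c ∧ ∀ k n m : ℕ, K ≤ k → K * k ≤ n →
    (2 : ℝ) ^ k * n ≤ (k : ℝ) ^ c * m → (m : ℝ) ≤ (2 : ℝ) ^ ((1 + c) * k) * n →
    (∃ G : Set (Fml n k m), AlmostAll G ∧ ∀ F ∈ G, ∀ a s : ℕ, a ≤ n / k →
      (s : ℝ) ≤ (2 : ℝ) ^ (c * sav n k m * n) → success F a s (chain (List.finRange n)) ≤
        (2 : ℝ) ^ ((1 + ε) * sav n k m * n) * guess n k m) ∧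
    (n : ℝ) * Nat.card {p : Fml n k m × (Fin n → Bool) // Dist p.1 ∧ Sat p.1 p.2 ∧
      ¬ (2 : ℝ) ^ ((1 - ε) * sav n k m * n) * guess n k m ≤
        success p.1 1 1 (chain (List.finRange n))} ≤
      Nat.card {p : Fml n k m × (Fin n → Bool) // Dist p.1 ∧ Sat p.1 p.2}

end Pool.Agent.H47.SQ
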