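import Mathlib

/-!
The savings of backtracking search on random k-CNFs (MP_c62aed_lc): the definitions used by the
statement.
-/

set_option autoImplicit false

namespace Pool.Agent.H47.SQ

open Finset

/-! ### Formulas -/

/-- A formula with `n` variables and `m` clauses of `k` literals. The literal `F c i = (x, s)` is
true when the variable `x` has the value `s`. -/
abbrev Fml (n k m : ℕ) : Type := Fin m → Fin k → Fin n × Bool

/-- The `k` variables of each clause are distinct. -/
def Dist {n k m : ℕ} (F : Fml n k m) : Prop := ∀ c, Function.Injective fun i => (F c i).1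

/-- The assignment `τ` satisfies `F`: every clause contains a literal which is true under `τ`. -/
def Sat {n k m : ℕ} (F : Fml n k m) (τ : Fin n → Bool) : Prop :=
  ∀ c, ∃ i, τ (F c i).1 = (F c i).2

/-- A partial assignment `L` is a finite set of pairs (variable, value). It satisfies `F` if every
clause contains a literal which is true under `L`. -/
def Done {n k m : ℕ} (F : Fml n k m) (L : Finset (Fin n × Bool)) : Prop :=
  ∀ c, ∃ i, F c i ∈ L

/-- `guess = 2 ^ (- n) + (1 - 2 ^ (- k)) ^ m` -/
noncomputable def guess (n k m : ℕ) : ℝ := (1 / 2 : ℝ) ^ n + (1 - (1 / 2 : ℝ) ^ k) ^ m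

/-- `sav = log (k (1 + Δ)) / k`, where `m = Δ 2 ^ k n` -/
noncomputable def sav (n k m : ℕ) : ℝ := Real.log (k * (1 + m / (2 ^ k * n))) / k

/-! ### Resolution -/

/-- The lines `0, 1, .., S - 1` are clauses, i.e. finite sets of literals. Each of them follows from
at most `a` clauses of `F`, or contains an earlier line, or contains the resolvent on a variable `x`
of two earlier lines. -/
def Derivation {n k m : ℕ} (F : Fml n k m) (a S : ℕ) (line : ℕ → Finset (Fin n × Bool)) : Prop :=
  ∀ i, i < S →
    (∃ C : Finset (Fin m), C.card ≤ a ∧ ∀ z : Fin n → Bool,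
      (∀ c ∈ C, ∃ p, z (F c p).1 = (F c p).2) → ∃ x ∈ line i, z x.1 = x.2) ∨
    (∃ j, j < i ∧ line j ⊆ line i) ∨
    ∃ (x : Fin n) (j l : ℕ), j < i ∧ l < i ∧ line j ⊆ insert (x, true) (line i) ∧
      line l ⊆ insert (x, false) (line i)

/-- `L` is refuted: all literals of some line of a derivation with at most `s` lines are false
under `L`. -/
def Refuted {n k m : ℕ} (F : Fml n k m) (a s : ℕ) (L : Finset (Fin n × Bool)) : Prop :=
  ∃ (S r : ℕ) (line : ℕ → Finset (Fin n × Bool)), S ≤ s ∧ r < S ∧ Derivation F a S line ∧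
    ∀ l ∈ line r, (l.1, !l.2) ∈ L

/-! ### Search -/

/-- A search tree: at a node the variable `v` is set, `f a b` is the subtree if the first value is
`a` and the value taken is `b`. -/
inductive Tree (n : ℕ) : Type
  | leaf : Tree n
  | node (v : Fin n) (f : Bool → Bool → Tree n) : Tree n

/-- The search succeeds from a node of the tree at which the partial assignment is `L`. At a leaf:
`L` satisfies `F`. At a node with a variable `v` which has no value: `ω L` is the first value of
`v`, and the search may pass to the other value if `L` with the first value is excluded (`Ex`). If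
`v` has a value, it is kept. -/
def Find {n k m : ℕ} (F : Fml n k m) (Ex : Finset (Fin n × Bool) → Prop)
    (ω : Finset (Fin n × Bool) → Bool) : Tree n → Finset (Fin n × Bool) → Prop
  | Tree.leaf, L => Done F L
  | Tree.node v f, L =>
    (∃ b, (v, b) ∈ L ∧ Find F Ex ω (f b b) L) ∨
    ((∀ b, (v, b) ∉ L) ∧ ∃ b, (ω L = b ∨ Ex (insert (v, !b) L)) ∧
      Find F Ex ω (f (ω L) b) (insert (v, b) L))

/-- The probability that the search with the tree `T` and random first values succeeds, if a value
may be skipped when it is refuted in `s` lines from consequences of `a` clauses. -/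
noncomputable def success {n k m : ℕ} (F : Fml n k m) (a s : ℕ) (T : Tree n) : ℝ :=
  (Nat.card {ω : Finset (Fin n × Bool) → Bool // Find F (Refuted F a s) ω T ∅} : ℝ) /
    Nat.card (Finset (Fin n × Bool) → Bool)

/-- the tree which sets the variables of the list, one after the other -/
def chain {n : ℕ} : List (Fin n) → Tree n
  | [] => Tree.leaf
  | v :: l => Tree.node v fun _ _ => chain l

/-! ### The statement -/

/-- For all but the fraction `1 / n` of the formulas `F` and of the pairs `(F, σ)` such that `σ`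
satisfies `F`, the formula `F` is in `G`. -/
def AlmostAll {n k m : ℕ} (G : Set (Fml n k m)) : Prop :=
  (n : ℝ) * Nat.card {F : Fml n k m // Dist F ∧ F ∉ G} ≤ Nat.card {F : Fml n k m // Dist F} ∧
  (n : ℝ) * Nat.card {p : Fml n k m × (Fin n → Bool) // Dist p.1 ∧ Sat p.1 p.2 ∧ p.1 ∉ G} ≤
    Nat.card {p : Fml n k m × (Fin n → Bool) // Dist p.1 ∧ Sat p.1 p.2}

/-- Every search succeeds with probability at most `(s 2 ^ (sav n)) ^ C guess`. -/
def MainA : Prop :=
  ∃ C : ℝ, ∀ k n m : ℕ, 2 ≤ k → k ≤ n → ∃ G : Set (Fml n k m), AlmostAll G ∧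
    ∀ F ∈ G, ∀ (a s : ℕ) (T : Tree n), 1 ≤ s → (a : ℝ) ≤ sav n k m * n →
      success F a s T ≤ (s * (2 : ℝ) ^ (sav n k m * n)) ^ C * guess n k m

/-- For `1 ≤ Δ ≤ 2 ^ k` the search with a fixed order of the variables and unit clauses succeeds with
probability at least `2 ^ (c sav n) 2 ^ (- n)`. -/
def MainB : Prop :=
  ∃ (c : ℝ) (K : ℕ), 0 < c ∧ ∀ k n m : ℕ, K ≤ k → K * k ≤ n → 2 ^ k * n ≤ m → m ≤ 4 ^ k * n →
    (n : ℝ) * Nat.card {p : Fml n k m × (Fin n → Bool) // Dist p.1 ∧ Sat p.1 p.2 ∧
      ¬ (2 : ℝ) ^ (c * sav n k m * n) * (1 / 2) ^ n ≤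
        success p.1 1 1 (chain (List.finRange n))} ≤
      Nat.card {p : Fml n k m × (Fin n → Bool) // Dist p.1 ∧ Sat p.1 p.2}

end Pool.Agent.H47.SQ
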