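import Pool.Agent.H47.SQ.Defs

/-!
The savings of backtracking search on random k-CNFs (MP_c62aed_lc): the exact savings for every
order of the variables, at large densities.
-/

set_option autoImplicit false

namespace Pool.Agent.H47.SQ

open Finset

/-- For `k ^ K ≤ Δ ≤ 2 ^ (c k)`: for almost all formulas every search with derivations with at most
`2 ^ (c sav n)` lines from consequences of at most `n / k` clauses succeeds with probability at most
`2 ^ ((1 + ε) sav n) guess`. -/
def Sharp : Prop :=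
  ∀ ε : ℝ, 0 < ε → ∃ (c : ℝ) (K : ℕ), 0 < c ∧ ∀ k n m : ℕ, K ≤ k → K * k ≤ n →
    k ^ K * (2 ^ k * n) ≤ m → (m : ℝ) ≤ (2 : ℝ) ^ ((1 + c) * k) * n →
    ∃ G : Set (Fml n k m), AlmostAll G ∧ ∀ F ∈ G, ∀ (a s : ℕ) (T : Tree n), a ≤ n / k →
      (s : ℝ) ≤ (2 : ℝ) ^ (c * sav n k m * n) → success F a s T ≤
        (2 : ℝ) ^ ((1 + ε) * sav n k m * n) * guess n k m

end Pool.Agent.H47.SQ
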