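import Pool.Agent.H47.SQ.Stmt4
import Pool.Agent.H47.SQ.Targets3

/-!
The savings of backtracking search on random k-CNFs (MP_c62aed_lc): targets, fourth part: the exact
savings for every order of the variables, at large densities.
-/

set_option autoImplicit false

namespace Pool.Agent.H47.SR

open Finset Pool.Agent.H97.RK Pool.Agent.H41.SS
open Pool.Agent.H47.PL (Sat Agr Con dm nsol Os)
open Pool.Agent.H47.SQ (Derivation Refuted Find success sav guess AlmostAll)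

section

variable {n k m : ℕ}

open Classical in
/-- the good solutions, as `gdr`, with any `d` -/
noncomputable def gdw (F : Fml n k m) (t d r : ℕ) : Finset (Fin n → Bool) :=
  univ.filter fun τ => Sat F τ ∧ ∀ z, dst z τ ≤ r → Gd F t d (12 * t) z

open Classical in
/-- the number of the bad solutions -/
noncomputable def badw (F : Fml n k m) (t d r : ℕ) : ℕ :=
  (univ.filter fun τ => Sat F τ ∧ ¬ ∀ z, dst z τ ≤ r → Gd F t d (12 * t) z).card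

end

/-- (ZNC) a derivation of a line which is false in a state is long; as (XNC), any set `A`. -/
def T_ZNC : Prop :=
  ∀ (n k m : ℕ) (F : Fml n k m) (t d u b₀ Q : ℕ), 1 ≤ t → 1 ≤ Q → b₀ + 12 * t + d ≤ u →
    2 * u ≤ Q * b₀ →
    ∀ (a S : ℕ) (line : ℕ → Clause n), a ≤ 2 * t → Derivation F a S line →
    ∀ (y : Fin n → Bool) (A W : Finset (Fin n)) (J : Finset (Fin m)), A.card + u = n →
    Sta F (2 * t) 0 y A W J →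
    (∀ z : Fin n → Bool, (∀ w ∈ A, z w = y w) → Gd F t d (12 * t) z) →
    ∀ r, r < S → Falsified (line r) y → vs (line r) ⊆ A →
    (1 : ℝ) ≤ 2 * (S * (2 ^ (4 * t) * (1 - 1 / (4 * (Q : ℝ))) ^ (u - (b₀ + d + 6 * t))))

/-- (ZRS) the interface; as (RSW). -/
def T_ZRS : Prop :=
  ∀ (n k m : ℕ) (F : Fml n k m) (t d u b₀ Q a s : ℕ) (C : Finset (Fin n → Bool)), 1 ≤ t →
    1 ≤ Q → u ≤ n → b₀ + 12 * t + d ≤ u → 2 * u ≤ Q * b₀ → a ≤ 2 * t →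
    2 * (s * ((2 : ℝ) ^ (4 * t) * (1 - 1 / (4 * (Q : ℝ))) ^ (u - (b₀ + d + 6 * t)))) < 1 →
    C ⊆ gdw F t d (u + 4 * t + 1) → ∃ Res, Rs C (n - u) (4 * t) (Refuted F a s) Res

/-- (ZMS) all scales together; `C` are the solutions which are good at the scale `t`. -/
def T_ZMS : Prop :=
  ∀ (n k m : ℕ) (F : Fml n k m) (t₀ : ℕ) (Nh : ℝ) (C B : Finset (Fin n → Bool)) (u e a s : ℕ),
    1 ≤ t₀ → 2 ^ 22 * t₀ ≤ n → u ≤ n → (∀ τ, Sat F τ → τ ∈ C ∨ τ ∈ B) → (∀ τ ∈ B, Sat F τ) →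
    Nh ≤ 2 ^ (2 ^ 22 * t₀ + n + 1) →
    (∀ t, t₀ ≤ t → 2 ^ 22 * t ≤ n →
      (badr F t (2 ^ 22 * t + 4 * t + 1) : ℝ) * 2 ^ (5 * (2 ^ 22 * t)) ≤ Nh) →
    a ≤ 2 * t₀ → s ^ 12 ≤ 2 ^ (7 * ((2 ^ 22 + 4) * t₀)) →
    (∃ Res, Rs C (n - u) e (Refuted F a s) Res) →
    ∀ T : Pool.Agent.H47.SQ.Tree n, success F a s T * 2 ^ n ≤
      2 * (C.card * 2 ^ (u + e)) + 4 * (B.card * 2 ^ ((2 ^ 22 + 4) * t₀)) +
        Nh / 2 ^ (2 ^ 22 * t₀)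

open Classical in
/-- (ZEV) the bad solutions of the uniform formulas; as (EXV). -/
def T_ZEV : Prop :=
  ∀ (n k m t d r : ℕ), 1 ≤ k → k ≤ n → d + 12 * t ≤ n →
    (∑ F ∈ univ.filter fun F : Fml n k m => Dist F, (badw F t d r : ℝ)) ≤
      bl n r * prb n k m t d (12 * t) *
        (univ.filter fun p : Fml n k m × (Fin n → Bool) => Dist p.1 ∧ Sat p.1 p.2).card

open Classical in
/-- (ZEQ) the bad solutions of the planted formulas; as (EXQ). -/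
def T_ZEQ : Prop :=
  ∀ (n k m t d r : ℕ), 2 ≤ k → k ≤ n → d + 12 * t ≤ n →
    (∑ p ∈ univ.filter fun p : Fml n k m × (Fin n → Bool) => Dist p.1 ∧ Sat p.1 p.2,
      (badw p.1 t d r : ℝ)) ≤
      bl n r * prb n k m t d (12 * t) *
        (2 ^ n * ∑ w ∈ range (n + 1), (n.choose w : ℝ) *
        ((2 ^ k - 2) * (n.descFactorial k : ℝ) + ((n - w).descFactorial k : ℝ)) ^ m)

/-- (ZNB) numbers. -/
def T_ZNB : Prop :=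
  ∀ (ε : ℝ) (G : ℕ), 0 < ε → ε ≤ 1 → 2 ^ 46 ≤ ε * G → ∃ (c : ℝ) (K : ℕ), 0 < c ∧
    ∀ k n m t d u : ℕ, K ≤ k → K * k ≤ n → k ^ K * (2 ^ k * n) ≤ m →
    (m : ℝ) ≤ (2 : ℝ) ^ ((1 + c) * k) * n →
    G * (Real.log k * (n / k)) ≤ (t : ℝ) → (t : ℝ) ≤ G * (Real.log k * (n / k)) + 1 →
    (1 + ε) * sav n k m * n ≤ d → (d : ℝ) ≤ 3 * (sav n k m * n) →
    (u : ℝ) ≤ 3 * (sav n k m * n) → d + 12 * t ≤ n →
    bl n (u + 4 * t + 1) * prb n k m t d (12 * t) ≤ (2 : ℝ) ^ (-(2 ^ 45 * sav n k m * n))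

/-- (ZNP) the parameters. -/
def T_ZNP : Prop :=
  ∀ ε : ℝ, 0 < ε → ε ≤ 1 → ∃ (c : ℝ) (K Q : ℕ), 0 < c ∧ 1 ≤ Q ∧ ∀ k n m : ℕ, K ≤ k →
    K * k ≤ n → k ^ K * (2 ^ k * n) ≤ m → (m : ℝ) ≤ (2 : ℝ) ^ ((1 + c) * k) * n →
    ∃ t d u b₀ : ℕ, 1 ≤ t ∧ n ≤ 2 * t * k ∧ u ≤ n ∧ b₀ + 12 * t + d ≤ u ∧ 2 * u ≤ Q * b₀ ∧
      (u : ℝ) + 4 * t ≤ (1 + ε) * sav n k m * n ∧
      bl n (u + 4 * t + 1) * prb n k m t d (12 * t) ≤
        (2 : ℝ) ^ (-(2 ^ 44 * sav n k m * n)) ∧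
      2 * ((2 : ℝ) ^ (c * sav n k m * n) * ((2 : ℝ) ^ (4 * t) *
        (1 - 1 / (4 * (Q : ℝ))) ^ (u - (b₀ + d + 6 * t)))) < 1

/-- (ZGO) the good formulas; as (XGO). -/
def T_ZGO : Prop :=
  ∀ ε : ℝ, 0 < ε → ∃ (c : ℝ) (K : ℕ), 0 < c ∧ ∀ k n m : ℕ, K ≤ k → K * k ≤ n →
    (2 : ℝ) ^ k * n ≤ (k : ℝ) ^ c * m → (m : ℝ) ≤ (2 : ℝ) ^ ((1 + c) * k) * n →
    ∀ t₀ t d r : ℕ, 2 ^ 20 * sav n k m * n ≤ t₀ → (t₀ : ℝ) ≤ 2 ^ 20 * sav n k m * n + 1 →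
    2 ^ 22 * t₀ ≤ n → d + 12 * t ≤ n →
    bl n r * prb n k m t d (12 * t) ≤ (2 : ℝ) ^ (-(2 ^ 44 * sav n k m * n)) →
    ∃ G : Set (Fml n k m), AlmostAll G ∧ ∀ F ∈ G,
      (nsol F : ℝ) ≤ (2 : ℝ) ^ (ε * sav n k m * n) * (2 ^ n * guess n k m) ∧
      (badw F t d r : ℝ) * 2 ^ ((2 ^ 22 + 4) * t₀) ≤ 2 ^ n * guess n k m ∧
      ∀ t, t₀ ≤ t → 2 ^ 22 * t ≤ n →
        (badr F t (2 ^ 22 * t + 4 * t + 1) : ℝ) * 2 ^ (5 * (2 ^ 22 * t)) ≤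
        2 ^ (2 ^ 22 * t₀) * (2 ^ n * guess n k m)

/-- (ZFI) everything together. -/
def T_ZFI : Prop := T_ZRS → T_ZMS → T_ZNP → T_ZGO → Pool.Agent.H47.SQ.Sharp

end Pool.Agent.H47.SR
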