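import Pool.Agent.H47.SQU.Stmt
import Pool.Agent.H47.SQ.Targets4

/-!
The savings of PPSZ on random k-CNFs (MP_c62aed_lc): targets, fifth part: a random order of the
variables.
-/

set_option autoImplicit false

namespace Pool.Agent.H47.SR

open Finset Pool.Agent.H97.RK Pool.Agent.H41.SS
open Pool.Agent.H47.PL (Sat Agr Con dm nsol Os)
open Pool.Agent.H47.SQ (Derivation Refuted Find success sav guess AlmostAll chain)
open Pool.Agent.H47.SQU (mean)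

/-- the formula with the variables renamed by `π` -/
def rn {n k m : ℕ} (π : Equiv.Perm (Fin n)) (F : Fml n k m) : Fml n k m :=
  fun c i => (π (F c i).1, (F c i).2)

/-- (YRN) renaming the variables. -/
def T_YRN : Prop :=
  ∀ (n k m : ℕ) (F : Fml n k m) (π : Equiv.Perm (Fin n)) (a s : ℕ),
    success (rn π F) a s (chain (List.ofFn π)) = success F a s (chain (List.finRange n))

/-- (YSO) renaming the variables. -/
def T_YSO : Prop :=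
  ∀ (n k m : ℕ) (F : Fml n k m) (π : Equiv.Perm (Fin n)),
    nsol (rn π F) = nsol F ∧ ∀ t r : ℕ, badr (rn π F) t r = badr F t r

open Classical in
/-- (YSU) renaming the variables. -/
def T_YSU : Prop :=
  ∀ (n k m : ℕ) (π : Equiv.Perm (Fin n)) (f : Fml n k m → ℝ),
    (∑ F ∈ univ.filter fun F : Fml n k m => Dist F, f (rn π F)) =
      (∑ F ∈ univ.filter fun F : Fml n k m => Dist F, f F) ∧
    (∑ p ∈ univ.filter fun p : Fml n k m × (Fin n → Bool) => Dist p.1 ∧ Sat p.1 p.2,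
      f (rn π p.1)) =
      ∑ p ∈ univ.filter fun p : Fml n k m × (Fin n → Bool) => Dist p.1 ∧ Sat p.1 p.2, f p.1

open Classical in
/-- (YGO) the good formulas; as (XGO), with any function `β` instead of `badB`. -/
def T_YGO : Prop :=
  ∀ ε : ℝ, 0 < ε → ∃ (c : ℝ) (K : ℕ), 0 < c ∧ ∀ k n m : ℕ, K ≤ k → K * k ≤ n →
    (2 : ℝ) ^ k * n ≤ (k : ℝ) ^ c * m → (m : ℝ) ≤ (2 : ℝ) ^ ((1 + c) * k) * n →
    ∀ (t₀ : ℕ) (β : Fml n k m → ℝ) (pt : ℝ), 2 ^ 20 * sav n k m * n ≤ t₀ →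
    (t₀ : ℝ) ≤ 2 ^ 20 * sav n k m * n + 1 → 2 ^ 22 * t₀ ≤ n → (∀ F, 0 ≤ β F) → 0 ≤ pt →
    (∑ F ∈ univ.filter fun F : Fml n k m => Dist F, β F) ≤
      pt * (univ.filter fun p : Fml n k m × (Fin n → Bool) => Dist p.1 ∧ Sat p.1 p.2).card →
    (∑ p ∈ univ.filter fun p : Fml n k m × (Fin n → Bool) => Dist p.1 ∧ Sat p.1 p.2, β p.1) ≤
      pt * (2 ^ n * ∑ w ∈ range (n + 1), (n.choose w : ℝ) *
        ((2 ^ k - 2) * (n.descFactorial k : ℝ) + ((n - w).descFactorial k : ℝ)) ^ m) →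
    pt ≤ (2 : ℝ) ^ (-(2 ^ 44 * sav n k m * n)) →
    ∃ G : Set (Fml n k m), AlmostAll G ∧ ∀ F ∈ G,
      (nsol F : ℝ) ≤ (2 : ℝ) ^ (ε * sav n k m * n) * (2 ^ n * guess n k m) ∧
      β F * 2 ^ ((2 ^ 22 + 4) * t₀) ≤ 2 ^ n * guess n k m ∧
      ∀ t, t₀ ≤ t → 2 ^ 22 * t ≤ n →
        (badr F t (2 ^ 22 * t + 4 * t + 1) : ℝ) * 2 ^ (5 * (2 ^ 22 * t)) ≤
        2 ^ (2 ^ 22 * t₀) * (2 ^ n * guess n k m)

/-- (YLO) the lower bound; as `lower_core` of `XFL.lean`. -/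
def T_YLO : Prop :=
  ∀ (n k m h u : ℕ) (μ : Equiv.Perm (Fin n) → ℝ) (X : ℝ), (∀ π, 0 ≤ μ π) → ∑ π, μ π = 1 →
    1 ≤ k → k ≤ n → u ≤ h → h ≤ n → 0 ≤ X → 8 * n * X ≤ 2 ^ (h - u) →
    4 * n * (2 ^ h * (1 - u * (k * ((n - h).descFactorial (k - 1) : ℝ) /
        ((2 ^ k - 1) * (n.descFactorial k : ℝ)))) ^ m) ≤ 1 →
    (n : ℝ) * Nat.card {p : Pool.Agent.H47.SQ.Fml n k m × (Fin n → Bool) //
      Pool.Agent.H47.SQ.Dist p.1 ∧ Pool.Agent.H47.SQ.Sat p.1 p.2 ∧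
      ¬ X * guess n k m ≤ mean p.1 1 1 μ} ≤
      Nat.card {p : Pool.Agent.H47.SQ.Fml n k m × (Fin n → Bool) //
        Pool.Agent.H47.SQ.Dist p.1 ∧ Pool.Agent.H47.SQ.Sat p.1 p.2}

/-- (YFI) everything together. -/
def T_YFI : Prop :=
  T_YRN → T_YSO → T_YSU → T_YGO → T_YLO → T_XEX → T_XSU → T_XLG → T_XNP → T_XEU → T_XEP →
    T_XNL → Pool.Agent.H47.SQ.Sharp → Pool.Agent.H47.SQU.Exact

end Pool.Agent.H47.SR
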