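import Pool.Agent.H47.SQ.Targets4
import Pool.Agent.H47.SQ.XFI

/-!
The savings of backtracking search on random k-CNFs (MP_c62aed_lc): row ZFI.
-/

set_option autoImplicit false

namespace Pool.Agent.H47.SQ.ZFI

open Finset Pool.Agent.H97.RK Pool.Agent.H47.SR
open Pool.Agent.H47.PL (Sat nsol Os)
open Pool.Agent.H47.SQ (success sav guess Refuted AlmostAll)

/-- the bound for the good formulas -/
theorem zfi_upper (hRS : T_ZRS) (hMS : T_ZMS) (n k m : ℕ) (F : Fml n k m)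
    (t d u b₀ Q a s t₀ : ℕ) (ε lam g : ℝ) (h1 : 1 ≤ t) (h4 : u ≤ n) (h5 : 1 ≤ Q)
    (h6 : b₀ + 12 * t + d ≤ u) (h7 : 2 * u ≤ Q * b₀) (h8 : a ≤ 2 * t)
    (h9 : 2 * (s * ((2 : ℝ) ^ (4 * t) * (1 - 1 / (4 * (Q : ℝ))) ^ (u - (b₀ + d + 6 * t)))) < 1)
    (h10 : (u : ℝ) + 4 * t ≤ (1 + ε) * lam) (ht₀ : 1 ≤ t₀) (htn : 2 ^ 22 * t₀ ≤ n)
    (ha : a ≤ 2 * t₀) (hs : s ^ 12 ≤ 2 ^ (7 * ((2 ^ 22 + 4) * t₀))) (hg0 : 0 ≤ g) (hg : g ≤ 2)
    (hG1 : (nsol F : ℝ) ≤ (2 : ℝ) ^ (ε * lam) * (2 ^ n * g))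
    (hG2 : (badw F t d (u + 4 * t + 1) : ℝ) * 2 ^ ((2 ^ 22 + 4) * t₀) ≤ 2 ^ n * g)
    (hG3 : ∀ t, t₀ ≤ t → 2 ^ 22 * t ≤ n →
        (badr F t (2 ^ 22 * t + 4 * t + 1) : ℝ) * 2 ^ (5 * (2 ^ 22 * t)) ≤
        2 ^ (2 ^ 22 * t₀) * (2 ^ n * g)) (hε : 0 < ε) (hlam : 3 ≤ ε * lam)
    (T : Pool.Agent.H47.SQ.Tree n) :
    success F a s T ≤ (2 : ℝ) ^ ((1 + 3 * ε) * lam) * g := by
  classical
  obtain ⟨N, hN⟩ : ∃ N : ℝ, N = (2 : ℝ) ^ n * g := ⟨_, rfl⟩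
  rw [← hN] at hG1 hG2 hG3
  have hN0 : 0 ≤ N := by rw [hN]; positivity
  obtain ⟨B, hB⟩ : ∃ B : Finset (Fin n → Bool), B = univ.filter fun τ => Sat F τ ∧
    ¬ ∀ z, Pool.Agent.H97.RK.dst z τ ≤ u + 4 * t + 1 → Pool.Agent.H41.SS.Gd F t d (12 * t) z :=
    ⟨_, rfl⟩
  have hBc : B.card = badw F t d (u + 4 * t + 1) := by
    rw [hB]
    unfold badw
    congr
  have hCc : ((gdw F t d (u + 4 * t + 1)).card : ℝ) ≤ nsol F := by
    have h : (gdw F t d (u + 4 * t + 1)).card ≤ nsol F := by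
      unfold gdw nsol
      refine card_le_card fun τ hτ => ?_
      rw [mem_filter] at hτ ⊢
      exact ⟨hτ.1, hτ.2.1⟩
    exact_mod_cast h
  have hcov : ∀ τ, Sat F τ → τ ∈ gdw F t d (u + 4 * t + 1) ∨ τ ∈ B := by
    intro τ hτ
    by_cases hz : ∀ z, Pool.Agent.H97.RK.dst z τ ≤ u + 4 * t + 1 →
        Pool.Agent.H41.SS.Gd F t d (12 * t) z
    · left
      unfold gdw
      rw [mem_filter]
      exact ⟨mem_univ _, hτ, hz⟩
    · right
      rw [hB, mem_filter]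
      exact ⟨mem_univ _, hτ, hz⟩
  have hA := hMS n k m F t₀ (2 ^ (2 ^ 22 * t₀) * N) (gdw F t d (u + 4 * t + 1)) B u (4 * t) a s
    ht₀ htn h4 hcov (fun τ hτ => by
      rw [hB, mem_filter] at hτ
      exact hτ.2.1) (by
      calc (2 : ℝ) ^ (2 ^ 22 * t₀) * N ≤ 2 ^ (2 ^ 22 * t₀) * (2 ^ n * 2) := by
            rw [hN]
            gcongr
        _ = _ := by rw [pow_add, pow_add]; ring) hG3 ha hs
    (hRS n k m F t d u b₀ Q a s _ h1 h5 h4 h6 h7 h8 h9 (Finset.Subset.refl _)) T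
  have h12 : (2 : ℝ) ^ (2 ^ 22 * t₀) * N / 2 ^ (2 ^ 22 * t₀) = N := by
    rw [mul_comm, mul_div_assoc, div_self (by positivity), mul_one]
  rw [h12, hBc] at hA
  have hlam0 : 0 < lam := by
    have h : 0 < ε * lam := by linarith
    exact (mul_pos_iff_of_pos_left hε).1 h
  obtain ⟨X, hX⟩ : ∃ X : ℝ, X = (2 : ℝ) ^ (lam + 2 * (ε * lam)) := ⟨_, rfl⟩
  have hX1 : 1 ≤ X := by
    rw [hX]
    exact Real.one_le_rpow (by norm_num) (by linarith)
  have hB1 : ((gdw F t d (u + 4 * t + 1)).card : ℝ) * 2 ^ (u + 4 * t) ≤ X * N := by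
    have hB4 : (2 : ℝ) ^ (u + 4 * t) ≤ (2 : ℝ) ^ ((1 + ε) * lam) := by
      rw [← Real.rpow_natCast]
      refine Real.rpow_le_rpow_of_exponent_le (by norm_num) (le_trans (le_of_eq ?_) h10)
      push_cast
      ring
    calc ((gdw F t d (u + 4 * t + 1)).card : ℝ) * 2 ^ (u + 4 * t)
        ≤ ((2 : ℝ) ^ (ε * lam) * N) * (2 : ℝ) ^ ((1 + ε) * lam) :=
          mul_le_mul (hCc.trans hG1) hB4 (by positivity) (by positivity)
      _ = X * N := by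
          have : X = (2 : ℝ) ^ (ε * lam) * (2 : ℝ) ^ ((1 + ε) * lam) := by
            rw [hX, ← Real.rpow_add (by norm_num)]
            congr 1
            ring
          rw [this]
          ring
  have hD : success F a s T * 2 ^ n ≤ ((2 : ℝ) ^ ((1 + 3 * ε) * lam) * g) * 2 ^ n := by
    have h13 : (2 : ℝ) ^ ((1 + 3 * ε) * lam) = X * (2 : ℝ) ^ (ε * lam) := by
      rw [hX, ← Real.rpow_add (by norm_num)]
      congr 1
      ring
    have h14 : (8 : ℝ) ≤ (2 : ℝ) ^ (ε * lam) := by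
      calc (8 : ℝ) = (2 : ℝ) ^ (3 : ℝ) := by
            rw [show (3 : ℝ) = ((3 : ℕ) : ℝ) by norm_num, Real.rpow_natCast]
            norm_num
        _ ≤ _ := Real.rpow_le_rpow_of_exponent_le (by norm_num) hlam
    have h15 : N ≤ X * N := le_mul_of_one_le_left hN0 hX1
    calc success F a s T * 2 ^ n ≤ 8 * (X * N) := by linarith only [hA, hB1, hG2, h15, hN0]
      _ ≤ (2 : ℝ) ^ (ε * lam) * (X * N) :=
          mul_le_mul_of_nonneg_right h14 (by linarith only [h15, hN0])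
      _ = _ := by rw [h13, hN]; ring
  exact le_of_mul_le_mul_right hD (by positivity)

theorem pf_ZFI : T_ZFI := by
  intro hRS hMS hNP hGO ε hε
  obtain ⟨e, he⟩ : ∃ e : ℝ, e = min ε 1 / 3 := ⟨_, rfl⟩
  have he0 : 0 < e := by
    rw [he]
    have : 0 < min ε 1 := lt_min hε one_pos
    linarith
  have he1 : e ≤ 1 := by
    rw [he]
    have := min_le_right ε 1
    linarith
  have he3 : 3 * e ≤ ε := by
    rw [he]
    have := min_le_left ε 1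
    linarith
  obtain ⟨c₁, K₁, Q, hc₁, hQ, h1⟩ := hNP e he0 he1
  obtain ⟨c₂, K₂, hc₂, h2⟩ := hGO e he0
  obtain ⟨c, hc⟩ : ∃ c : ℝ, c = min (min c₁ c₂) (1 / 2 ^ 50) := ⟨_, rfl⟩
  have hc0 : 0 < c := by
    rw [hc]
    exact lt_min (lt_min hc₁ hc₂) (by positivity)
  have hcc1 : c ≤ c₁ := by
    rw [hc]
    exact (min_le_left _ _).trans (min_le_left _ _)
  have hcc2 : c ≤ c₂ := by
    rw [hc]
    exact (min_le_left _ _).trans (min_le_right _ _)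
  have hcc4 : c ≤ 1 / 2 ^ 50 := by
    rw [hc]
    exact min_le_right _ _
  obtain ⟨K, hK⟩ : ∃ K : ℕ, K = K₁ + K₂ + 2 ^ 104 + ⌈3 / e⌉₊ := ⟨_, rfl⟩
  refine ⟨c, K, hc0, ?_⟩
  intro k n m hk hn hmK hm2
  have hK1 : 1 ≤ K := by omega
  have hk104 : 2 ^ 104 ≤ k := by omega
  have hkn : k ≤ n := by
    have : 1 * k ≤ K * k := Nat.mul_le_mul_right _ hK1
    omega
  have hk1 : 1 ≤ k := by omega
  have hn1 : 1 ≤ n := by omega
  have hk1' : (1 : ℝ) ≤ k := by exact_mod_cast hk1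
  have hn0 : (0 : ℝ) < n := by exact_mod_cast hn1
  have hmono1 : k ^ K₁ * (2 ^ k * n) ≤ m :=
    (Nat.mul_le_mul_right _ (Nat.pow_le_pow_right hk1 (by omega))).trans hmK
  have hm1 : 2 ^ k * n ≤ m := by
    have h : 1 * (2 ^ k * n) ≤ k ^ K * (2 ^ k * n) :=
      Nat.mul_le_mul_right _ (Nat.one_le_pow _ _ hk1)
    omega
  have hmono : (2 : ℝ) ^ k * n ≤ (k : ℝ) ^ c₂ * m := by
    have h3 : (1 : ℝ) ≤ (k : ℝ) ^ c₂ := Real.one_le_rpow hk1' hc₂.le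
    have h4 : (2 : ℝ) ^ k * n ≤ m := by exact_mod_cast hm1
    exact h4.trans (le_mul_of_one_le_left (Nat.cast_nonneg _) h3)
  have hmono2 : ∀ c' : ℝ, c ≤ c' → (m : ℝ) ≤ (2 : ℝ) ^ ((1 + c') * k) * n := by
    intro c' hc'
    refine hm2.trans ?_
    have : (2 : ℝ) ^ ((1 + c) * k) ≤ (2 : ℝ) ^ ((1 + c') * k) := by
      refine Real.rpow_le_rpow_of_exponent_le (by norm_num) ?_
      exact mul_le_mul_of_nonneg_right (by linarith) (by linarith)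
    exact mul_le_mul_of_nonneg_right this hn0.le
  obtain ⟨hl1, hl2⟩ := lam_large k n m K (by omega) hn
  have hsv := sav_small k n m c hk104 hn1 hc0.le hm2
  have hKe : 3 / e ≤ K := by
    have h4 : 3 / e ≤ ⌈3 / e⌉₊ := Nat.le_ceil _
    have h5 : (⌈3 / e⌉₊ : ℝ) ≤ K := by exact_mod_cast (by omega : ⌈3 / e⌉₊ ≤ K)
    linarith
  obtain ⟨t, d, u, b₀, q1, q3, q4, q7, q8, q9, q10, q11⟩ :=
    h1 k n m (by omega) ((Nat.mul_le_mul_right _ (by omega)).trans hn) hmono1 (hmono2 c₁ hcc1)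
  obtain ⟨t₀, ht₀⟩ : ∃ t₀, t₀ = ⌈2 ^ 20 * sav n k m * n⌉₊ := ⟨_, rfl⟩
  have hK0 : (2 : ℝ) ^ 104 ≤ K := by exact_mod_cast (by omega : 2 ^ 104 ≤ K)
  have hlam1 : (1 : ℝ) ≤ sav n k m * n := by
    have : (1 : ℝ) ≤ 2 ^ 104 := by norm_num
    linarith
  have ht1 : 2 ^ 20 * sav n k m * n ≤ t₀ := by
    rw [ht₀]
    exact Nat.le_ceil _
  have ht1' : 2 ^ 20 * (sav n k m * n) ≤ t₀ := by
    rw [← mul_assoc]
    exact ht1
  have ht2 : (t₀ : ℝ) ≤ 2 ^ 20 * sav n k m * n + 1 := by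
    rw [ht₀]
    refine (Nat.ceil_lt_add_one ?_).le
    rw [mul_assoc]
    linarith
  have ht2' : (t₀ : ℝ) ≤ 2 ^ 20 * (sav n k m * n) + 1 := by
    rw [← mul_assoc]
    exact ht2
  have ht3 : 1 ≤ t₀ := by
    have : (0 : ℝ) < t₀ := by linarith
    exact_mod_cast this
  have hn104 : (2 : ℝ) ^ 104 ≤ n := by
    exact_mod_cast hk104.trans hkn
  have hlamn : sav n k m * n ≤ (1 / 2 ^ 49) * n := by
    refine mul_le_mul_of_nonneg_right ?_ hn0.le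
    have : (1 : ℝ) / 2 ^ 49 = 1 / 2 ^ 50 + 1 / 2 ^ 50 := by norm_num
    linarith
  have ht4 : 2 ^ 22 * t₀ ≤ n := by
    have : (2 : ℝ) ^ 22 * t₀ ≤ n := by linarith only [ht2', hlamn, hn104]
    exact_mod_cast this
  obtain ⟨G, hG, hGF⟩ := h2 k n m (by omega) ((Nat.mul_le_mul_right _ (by omega)).trans hn)
    hmono (hmono2 c₂ hcc2) t₀ t d (u + 4 * t + 1) ht1 ht2 ht4 (by omega) q10
  refine ⟨G, hG, ?_⟩
  intro F hF a s T ha hs
  obtain ⟨g1, g2, g3⟩ := hGF F hF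
  have hle : (2 : ℝ) ^ ((1 + 3 * e) * (sav n k m * n)) ≤
      (2 : ℝ) ^ ((1 + ε) * sav n k m * n) := by
    refine Real.rpow_le_rpow_of_exponent_le (by norm_num) ?_
    rw [mul_assoc (1 + ε)]
    refine mul_le_mul_of_nonneg_right (by linarith) (by linarith)
  have ha1 : a ≤ 2 * t := by
    refine ha.trans (Nat.div_le_of_le_mul ?_)
    rw [mul_comm]
    exact q3
  have ha2 : a ≤ 2 * t₀ := by
    have h8 : (a : ℝ) ≤ ((n / k : ℕ) : ℝ) := by exact_mod_cast ha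
    have h5 : (a : ℝ) ≤ n / k := h8.trans Nat.cast_div_le
    have h6 : (a : ℝ) ≤ t₀ := by linarith
    have h7 : a ≤ t₀ := by exact_mod_cast h6
    omega
  have hs' : (s : ℝ) ≤ (2 : ℝ) ^ (c * (sav n k m * n)) := by
    rw [← mul_assoc]
    exact hs
  have hs12 : s ^ 12 ≤ 2 ^ (7 * ((2 ^ 22 + 4) * t₀)) := by
    have h5 : (s : ℝ) ^ 12 ≤ (2 : ℝ) ^ (7 * ((2 ^ 22 + 4) * t₀)) := by
      calc (s : ℝ) ^ 12 ≤ ((2 : ℝ) ^ (c * (sav n k m * n))) ^ 12 := by gcongr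
        _ = (2 : ℝ) ^ (c * (sav n k m * n) * 12) := by
            rw [← Real.rpow_natCast, ← Real.rpow_mul (by norm_num)]
            norm_num
        _ ≤ (2 : ℝ) ^ ((7 * ((2 ^ 22 + 4) * t₀) : ℕ) : ℝ) := by
            refine Real.rpow_le_rpow_of_exponent_le (by norm_num) ?_
            push_cast
            have h6 : c ≤ 1 := by
              have : (1 : ℝ) / 2 ^ 50 ≤ 1 := by norm_num
              linarith
            have h7 : c * (sav n k m * n) ≤ 1 * (sav n k m * n) :=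
              mul_le_mul_of_nonneg_right h6 (by linarith)
            linarith only [h7, ht1', hlam1]
        _ = _ := by rw [Real.rpow_natCast]
    exact_mod_cast h5
  have hQ4 : (0 : ℝ) ≤ 1 - 1 / (4 * (Q : ℝ)) := by
    have hQ1 : (1 : ℝ) ≤ Q := by exact_mod_cast hQ
    have : 1 / (4 * (Q : ℝ)) ≤ 1 := by
      rw [div_le_one (by linarith)]
      linarith
    linarith
  refine le_trans (zfi_upper hRS hMS n k m F t d u b₀ Q a s t₀ e (sav n k m * n)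
    (guess n k m) q1 q4 hQ q7 q8 ha1 ?_ ?_ ht3 ht4 ha2 hs12
    (guess_pos n k m).le (guess_le n k m) ?_ g2 g3 he0 ?_ T) ?_
  · refine lt_of_le_of_lt ?_ q11
    have h5 : (s : ℝ) ≤ (2 : ℝ) ^ (c₁ * sav n k m * n) := by
      refine hs'.trans (Real.rpow_le_rpow_of_exponent_le (by norm_num) ?_)
      rw [mul_assoc c₁]
      exact mul_le_mul_of_nonneg_right hcc1 (by linarith)
    gcongr
  · rw [← mul_assoc]
    exact q9
  · have h5 := g1
    rw [mul_assoc e] at h5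
    exact h5
  · have h5 : 3 / e ≤ sav n k m * n := hKe.trans hl1
    rw [div_le_iff₀ he0] at h5
    linarith
  · exact mul_le_mul_of_nonneg_right hle (guess_pos n k m).le

end Pool.Agent.H47.SQ.ZFI
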