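import Pool.Agent.H47.SQ.Targets4

/-!
# Row ZNC (board ppz_modules): a derivation of a line which is false in a state is long (after XNC
of helper69)
-/

set_option autoImplicit false

namespace Pool.Agent.H47.SQ.ZNC

open Finset Pool.Agent.H97.RK Pool.Agent.H41.SS Pool.Agent.H47.SR
open Pool.Agent.H47.SQ (Derivation Refuted)

theorem pf_ZNC (hTRN : Pool.Agent.H41.SS.T_TRN) (hTAR : T_TAR) (hMLN : T_MLN) (hXCR : T_XCR) :
    T_ZNC := by
  classical
  intro n k m F t d u b₀ Q ht hQ hb hQb a S line ha hD y A W J hAc hSt hG r hr hF hvs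
  have hcomp : (Aᶜ).card = u := by
    rw [Finset.card_compl, Fintype.card_fin]
    omega
  have hV : ((A ∪ W)ᶜ).card ≤ u := by
    rw [← hcomp]
    exact Finset.card_le_card (Finset.compl_subset_compl.2 Finset.subset_union_left)
  have hW : W.card ≤ 4 * t := by
    have h1 := hSt.crd
    have h2 := hSt.lt
    omega
  have hAW : (A ∪ W).card ≤ A.card + W.card := Finset.card_union_le A W
  refine hXCR n ((A ∪ W)ᶜ) y S (4 * t) b₀ Q (u - (b₀ + d + 6 * t)) line hQ (by omega) ?_
  intro x B hx hBV hBc
  have h1 : ∀ w ∈ A ∪ W, x w = y w := by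
    intro w hw
    apply hx
    rw [Finset.mem_compl]
    exact fun h => h hw
  have h2 : (A ∪ B).card ≤ A.card + B.card := Finset.card_union_le A B
  have hGx : Gd F (2 * t) d (12 * t) x := fun T W' g1 g2 g3 =>
    lt_of_lt_of_le (hG x (fun w hw => h1 w (Finset.mem_union_left _ hw)) T W' g1 g2 g3)
      (by omega)
  have hStx := hTRN n k m F (2 * t) 0 y x A W J hSt h1
  obtain ⟨y', W', J', -, hyA, hyW, hSt'⟩ := hTAR n k m F (2 * t) d (12 * t) (by omega) x x A B W J
    hGx hStx (fun _ _ => rfl) (by omega)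
  have hyA' : ∀ w ∈ A, y' w = y w := fun w hw => by
    rw [hyA w (Finset.mem_union_left _ hw), h1 w (Finset.mem_union_left _ hw)]
  have hdst : dst y' x ≤ 4 * t := by
    have h3 : dst y' x ≤ W'.card := by
      unfold dst
      refine Finset.card_le_card ?_
      intro w hw
      by_contra hcon
      exact (Finset.mem_filter.1 hw).2 (hyW w hcon)
    have h4 := hSt'.crd
    have h5 := hSt'.lt
    omega
  have h3 : Falsified (line r) y' := by
    intro l hl
    have h4 : l.1 ∈ vs (line r) := Finset.mem_image_of_mem _ hl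
    rw [hyA' l.1 (hvs h4)]
    exact hF l hl
  obtain ⟨i, hi, z, hz, hFz, hn⟩ := hMLN n k m F t d (12 * t) ht (by omega) a S line ha hD y'
    (A ∪ B) W' J' hSt' (fun z hz => hG z fun w hw => by
      rw [hz w (Finset.mem_union_left _ hw), hyA' w hw]) r hr h3
    (hvs.trans Finset.subset_union_left)
  refine ⟨i, hi, y', z, hdst, fun w hw => hz w (Finset.mem_union_right _ hw), hFz, ?_⟩
  have h5 : (A ∪ B) ∪ vs (line i) ⊆ (A ∪ W) ∪ (B ∪ (vs (line i) ∩ (A ∪ W)ᶜ)) := by
    intro w hw
    rcases Finset.mem_union.1 hw with hw | hw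
    · rcases Finset.mem_union.1 hw with hw | hw
      · exact Finset.mem_union_left _ (Finset.mem_union_left _ hw)
      · exact Finset.mem_union_right _ (Finset.mem_union_left _ hw)
    · by_cases h : w ∈ A ∪ W
      · exact Finset.mem_union_left _ h
      · exact Finset.mem_union_right _ (Finset.mem_union_right _
          (Finset.mem_inter.2 ⟨hw, Finset.mem_compl.2 h⟩))
  have h6 := Finset.card_le_card h5
  have h7 := Finset.card_union_le (A ∪ W) (B ∪ (vs (line i) ∩ (A ∪ W)ᶜ))
  have h8 := Finset.card_union_le B (vs (line i) ∩ (A ∪ W)ᶜ)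
  omega

end Pool.Agent.H47.SQ.ZNC
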