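import Pool.Agent.H47.SQ.Targets4
import Pool.Agent.H47.SQ.XNP

/-!
# Row ZNP (board ppz_modules)
-/

set_option autoImplicit false

open Finset Pool.Agent.H97.RK Pool.Agent.H41.SS Pool.Agent.H47.SR

namespace Pool.Agent.H47.SQ.ZNP

/-- `lam` is large compared with `n log k / k` -/
theorem lam_ge (k n m K : ℕ) (hk1 : 1 ≤ k) (hn : 1 ≤ n) (hm : k ^ K * (2 ^ k * n) ≤ m) :
    K * (Real.log k * ((n : ℝ) / k)) ≤ sav n k m * n := by
  have hk0 : (0 : ℝ) < k := by exact_mod_cast hk1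
  have hk1' : (1 : ℝ) ≤ k := by exact_mod_cast hk1
  have hn0 : (0 : ℝ) < n := by exact_mod_cast hn
  have h0 : (k : ℝ) ^ K ≤ m / (2 ^ k * n) := by
    rw [le_div_iff₀ (by positivity)]
    exact_mod_cast hm
  have h1 : K * Real.log k ≤ Real.log (k * (1 + m / (2 ^ k * n))) := by
    rw [← Real.log_pow]
    apply Real.log_le_log (by positivity)
    have h2 : (0 : ℝ) < (k : ℝ) ^ K := by positivity
    calc (k : ℝ) ^ K ≤ 1 * (1 + m / (2 ^ k * n)) := by linarith
      _ ≤ k * (1 + m / (2 ^ k * n)) :=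
        mul_le_mul_of_nonneg_right hk1' (by positivity)
  unfold sav
  rw [← mul_assoc, ← mul_div_assoc, div_mul_eq_mul_div, div_le_div_iff_of_pos_right hk0]
  exact mul_le_mul_of_nonneg_right h1 (Nat.cast_nonneg _)

theorem pf_ZNP (hZNB : T_ZNB) : T_ZNP := by
  intro ε hε hε1
  obtain ⟨e, he⟩ : ∃ e : ℝ, e = ε / 8 := ⟨_, rfl⟩
  have he0 : 0 < e := by rw [he]; linarith
  have he1 : 8 * e ≤ 1 := by rw [he]; linarith
  obtain ⟨G, hG⟩ : ∃ G : ℕ, G = ⌈2 ^ 46 / e⌉₊ := ⟨_, rfl⟩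
  obtain ⟨Q, hQ⟩ : ∃ Q : ℕ, Q = ⌈8 / e⌉₊ := ⟨_, rfl⟩
  have hG1 : 2 ^ 46 ≤ e * G := by
    have h : (2 : ℝ) ^ 46 / e ≤ G := by rw [hG]; exact Nat.le_ceil _
    rw [div_le_iff₀ he0] at h
    linarith
  have hQ1 : 8 ≤ e * Q := by
    have h : (8 : ℝ) / e ≤ Q := by rw [hQ]; exact Nat.le_ceil _
    rw [div_le_iff₀ he0] at h
    linarith
  have hG2 : (1 : ℝ) ≤ G := by
    have h : e * G ≤ 1 * G := mul_le_mul_of_nonneg_right (by linarith) (Nat.cast_nonneg _)
    linarith only [h, hG1]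
  have hQ2 : (64 : ℝ) ≤ Q := by
    have h : (8 * e) * Q ≤ 1 * Q := mul_le_mul_of_nonneg_right he1 (Nat.cast_nonneg _)
    linarith only [h, hQ1]
  have hG3 : 1 ≤ G := by exact_mod_cast hG2
  have hQ3 : 1 ≤ Q := by
    have : (1 : ℝ) ≤ Q := by linarith
    exact_mod_cast this
  obtain ⟨c₁, K₁, hc₁, h1⟩ := hZNB e G he0 (by linarith) hG1
  obtain ⟨c, hc⟩ : ∃ c : ℝ, c = min c₁ (min (e / (32 * Q)) (1 / 2 ^ 50)) := ⟨_, rfl⟩
  have hc0 : 0 < c := by
    rw [hc]
    exact lt_min hc₁ (lt_min (by positivity) (by positivity))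
  have hcc1 : c ≤ c₁ := by
    rw [hc]
    exact min_le_left _ _
  have hcc3 : c ≤ e / (32 * Q) := by
    rw [hc]
    exact (min_le_right _ _).trans (min_le_left _ _)
  have hcc4 : c ≤ 1 / 2 ^ 50 := by
    rw [hc]
    exact (min_le_right _ _).trans (min_le_right _ _)
  obtain ⟨A, hA⟩ : ∃ A : ℕ, A = ⌈256 * G * Q / e⌉₊ := ⟨_, rfl⟩
  have hA1 : 256 * G * Q ≤ e * (A : ℝ) := by
    have h : (256 : ℝ) * G * Q / e ≤ A := by rw [hA]; exact Nat.le_ceil _
    rw [div_le_iff₀ he0] at h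
    linarith
  obtain ⟨K, hK⟩ : ∃ K : ℕ, K = max K₁ (max (2 ^ 104) A) := ⟨_, rfl⟩
  have hK1 : K₁ ≤ K := by
    rw [hK]
    exact le_max_left _ _
  have hK3 : 2 ^ 104 ≤ K := by
    rw [hK]
    exact (le_max_left _ _).trans (le_max_right _ _)
  have hK4 : A ≤ K := by
    rw [hK]
    exact (le_max_right _ _).trans (le_max_right _ _)
  refine ⟨c, K, Q, hc0, hQ3, fun k n m hk hn hmK hm => ?_⟩
  have hk104 : 2 ^ 104 ≤ k := hK3.trans hk
  have hk1 : 1 ≤ k := le_trans (by norm_num) hk104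
  have hk0 : (0 : ℝ) < k := by exact_mod_cast hk1
  have hn1 : 1 ≤ n := by
    have : 1 ≤ K * k := Nat.mul_pos (lt_of_lt_of_le (by norm_num) hK3) hk1
    omega
  have hn0 : (0 : ℝ) < n := by exact_mod_cast hn1
  have hlog : (1 : ℝ) ≤ Real.log k := by
    rw [Real.le_log_iff_exp_le hk0]
    have h2 := Real.exp_one_lt_d9
    have h3 : (3 : ℝ) ≤ k := by
      have : 3 ≤ k := le_trans (by norm_num) hk104
      exact_mod_cast this
    linarith
  obtain ⟨x, hx⟩ : ∃ x : ℝ, x = Real.log k * ((n : ℝ) / k) := ⟨_, rfl⟩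
  obtain ⟨lam, hlam⟩ : ∃ lam : ℝ, lam = sav n k m * n := ⟨_, rfl⟩
  have hnk1 : 1 ≤ (n : ℝ) / k := by
    rw [le_div_iff₀ hk0, one_mul]
    have : k ≤ n := le_trans (Nat.le_mul_of_pos_left k (lt_of_lt_of_le (by norm_num) hK3)) hn
    exact_mod_cast this
  have hnkx : (n : ℝ) / k ≤ x := by
    rw [hx]
    exact le_mul_of_one_le_left (by positivity) hlog
  have hx1 : 1 ≤ x := hnk1.trans hnkx
  have hLx : K * x ≤ lam := by
    rw [hx, hlam]
    exact lam_ge k n m K hk1 hn1 hmK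
  have hL : 256 * G * Q * x ≤ e * lam := by
    have h2 : (A : ℝ) * x ≤ K * x :=
      mul_le_mul_of_nonneg_right (by exact_mod_cast hK4) (by linarith only [hx1])
    have h3 : (256 * G * Q) * x ≤ (e * A) * x :=
      mul_le_mul_of_nonneg_right hA1 (by linarith only [hx1])
    have h4 : e * (A * x) ≤ e * lam := mul_le_mul_of_nonneg_left (h2.trans hLx) he0.le
    linarith only [h3, h4]
  have hxG : x ≤ G * x := le_mul_of_one_le_left (by linarith only [hx1]) hG2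
  have hGx : 1 ≤ G * x := hx1.trans hxG
  have hL2 : 256 * 64 * (G * x) ≤ e * lam := by
    have h : 64 * (G * x) ≤ Q * (G * x) := mul_le_mul_of_nonneg_right hQ2 (by positivity)
    linarith only [h, hL]
  have hlam0 : 0 < lam := by
    have h : 0 < e * lam := by linarith
    exact (mul_pos_iff_of_pos_left he0).1 h
  have helam : 8 * (e * lam) ≤ lam := by
    have h := mul_le_mul_of_nonneg_right he1 hlam0.le
    linarith only [h]
  have hsav : sav n k m ≤ 1 / 2 ^ 50 + c := sav_small k n m c hk104 hn1 hc0.le hm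
  have hlamn : 2 ^ 49 * lam ≤ n := by
    have h : lam ≤ (1 / 2 ^ 50 + 1 / 2 ^ 50) * n := by
      rw [hlam]
      exact mul_le_mul_of_nonneg_right (by linarith) hn0.le
    linarith
  obtain ⟨t, ht⟩ : ∃ t : ℕ, t = ⌈G * x⌉₊ := ⟨_, rfl⟩
  obtain ⟨d, hd⟩ : ∃ d : ℕ, d = ⌈(1 + e) * lam⌉₊ := ⟨_, rfl⟩
  obtain ⟨b, hb⟩ : ∃ b : ℕ, b = ⌈e * lam⌉₊ := ⟨_, rfl⟩
  have hta : G * x ≤ t := by rw [ht]; exact Nat.le_ceil _
  have htb : (t : ℝ) ≤ G * x + 1 := by rw [ht]; exact (Nat.ceil_lt_add_one (by positivity)).le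
  have hda : (1 + e) * lam ≤ d := by rw [hd]; exact Nat.le_ceil _
  have hdb : (d : ℝ) ≤ (1 + e) * lam + 1 := by
    rw [hd]; exact (Nat.ceil_lt_add_one (by positivity)).le
  have hba : e * lam ≤ b := by rw [hb]; exact Nat.le_ceil _
  have hbb : (b : ℝ) ≤ e * lam + 1 := by rw [hb]; exact (Nat.ceil_lt_add_one (by positivity)).le
  obtain ⟨u, hu⟩ : ∃ u : ℕ, u = b + 12 * t + d + b := ⟨_, rfl⟩
  have hur : (u : ℝ) = b + 12 * t + d + b := by rw [hu]; push_cast; ring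
  have hu3 : (u : ℝ) ≤ (1 + 4 * e) * lam := by
    rw [hur]
    linarith only [htb, hdb, hbb, hL2, hGx]
  have hu4 : (u : ℝ) + 4 * t ≤ (1 + ε) * lam := by
    have h : ε = 8 * e := by rw [he]; ring
    rw [h]
    linarith only [hu3, htb, hL2, hGx]
  have hu5 : (u : ℝ) ≤ 3 * lam := by linarith only [hu3, helam, hlam0]
  have hun : u ≤ n := by
    have h : (u : ℝ) ≤ n := by linarith only [hu5, hlamn, hlam0]
    exact_mod_cast h
  have hdn : d + 12 * t ≤ n := by omega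
  have ht1 : 1 ≤ t := by
    have : (1 : ℝ) ≤ t := hGx.trans hta
    exact_mod_cast this
  have hntk : n ≤ 2 * t * k := by
    have h : (n : ℝ) ≤ 2 * t * k := by
      have h5 : (n : ℝ) / k ≤ t := hnkx.trans (hxG.trans hta)
      rw [div_le_iff₀ hk0] at h5
      have h7 : (0 : ℝ) ≤ t * k := by positivity
      linarith only [h5, h7]
    exact_mod_cast h
  have hmono : ∀ c', c ≤ c' → (m : ℝ) ≤ (2 : ℝ) ^ ((1 + c') * k) * n := by
    intro c' hc'
    refine hm.trans (mul_le_mul_of_nonneg_right ?_ hn0.le)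
    apply Real.rpow_le_rpow_of_exponent_le (by norm_num)
    exact mul_le_mul_of_nonneg_right (by linarith) hk0.le
  refine ⟨t, d, u, b, ht1, hntk, hun, by omega, ?_, ?_, ?_, ?_⟩
  · have h : (2 * u : ℝ) ≤ Q * b := by
      have h5 : (Q : ℝ) * (e * lam) ≤ Q * b := mul_le_mul_of_nonneg_left hba (by positivity)
      have h6 : 8 * lam ≤ Q * (e * lam) := by
        have : 8 * lam ≤ (e * Q) * lam := mul_le_mul_of_nonneg_right hQ1 hlam0.le
        linarith only [this]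
      linarith only [h5, h6, hu5, hlam0]
    exact_mod_cast h
  · rw [mul_assoc, ← hlam]
    exact hu4
  · have h5 := h1 k n m t d u (hK1.trans hk) ((Nat.mul_le_mul_right k hK1).trans hn)
      ((Nat.mul_le_mul_right _ (Nat.pow_le_pow_right hk1 hK1)).trans hmK) (hmono c₁ hcc1)
      (by rw [← hx]; exact hta) (by rw [← hx]; exact htb)
      (by rw [mul_assoc, ← hlam]; exact hda)
      (by rw [← hlam]; linarith only [hdb, helam, hL2, hGx, hlam0])
      (by rw [← hlam]; exact hu5) hdn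
    refine h5.trans ?_
    apply Real.rpow_le_rpow_of_exponent_le (by norm_num)
    rw [mul_assoc, mul_assoc, ← hlam]
    linarith only [hlam0]
  · have h5 : u - (b + d + 6 * t) = 6 * t + b := by omega
    rw [h5, mul_assoc c, ← hlam]
    refine XNP.last e c lam x G Q t (6 * t + b) he0 hQ3 hc0.le ?_ hlam0 htb hx1 hG3 hL ?_
    · rw [le_div_iff₀ (by positivity)] at hcc3
      exact hcc3
    · push_cast
      have : (0 : ℝ) ≤ t := Nat.cast_nonneg _
      linarith only [this, hba]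

end Pool.Agent.H47.SQ.ZNP
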